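import Pool.Agent.QD.ZDefs

/-!
# QDZ: functions of finite order in vertical strips; `1/Γ`, Mellin transforms

Closure properties of `FinOrd`; `Gammaℝ⁻¹` has finite order in strips; the entire function `Λ₀` of a `WeakFEPair`
is bounded in strips.
-/

namespace Pool.Agent.QD.Z

open MeasureTheory Set Pool.Agent.HWR

private theorem one_le_x (t : ℝ) : 1 ≤ 1 + |t| := by linarith [abs_nonneg t]

theorem finOrd_nat {F : ℂ → ℂ} (hF : FinOrd F) (a b : ℝ) : ∃ (k : ℕ) (C : ℝ), 0 ≤ C ∧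
    ∀ s : ℂ, a ≤ s.re → s.re ≤ b → ‖F s‖ ≤ Real.exp (C * (1 + |s.im|) ^ k) := by
  obtain ⟨A, C, h⟩ := hF a b
  obtain ⟨k, hk⟩ := exists_nat_ge A
  refine ⟨k, |C|, abs_nonneg _, fun s h1 h2 => (h s h1 h2).trans ?_⟩
  apply Real.exp_le_exp.2
  have hx := one_le_x s.im
  have h3 : (1 + |s.im|) ^ A ≤ (1 + |s.im|) ^ k := by
    rw [← Real.rpow_natCast]
    exact Real.rpow_le_rpow_of_exponent_le hx hk
  have h4 : 0 ≤ (1 + |s.im|) ^ A := Real.rpow_nonneg (by linarith) _
  calc C * (1 + |s.im|) ^ A ≤ |C| * (1 + |s.im|) ^ A := by gcongr; exact le_abs_self C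
    _ ≤ |C| * (1 + |s.im|) ^ k := by gcongr

theorem finOrd_of_nat {F : ℂ → ℂ} (hF : ∀ a b : ℝ, ∃ (k : ℕ) (C : ℝ),
    ∀ s : ℂ, a ≤ s.re → s.re ≤ b → ‖F s‖ ≤ Real.exp (C * (1 + |s.im|) ^ k)) : FinOrd F := by
  intro a b
  obtain ⟨k, C, h⟩ := hF a b
  refine ⟨k, C, fun s h1 h2 => ?_⟩
  rw [Real.rpow_natCast]
  exact h s h1 h2

theorem finOrd_mul {F G : ℂ → ℂ} (hF : FinOrd F) (hG : FinOrd G) : FinOrd (fun s => F s * G s) := by
  apply finOrd_of_nat
  intro a b
  obtain ⟨k, C, hC, h⟩ := finOrd_nat hF a b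
  obtain ⟨l, D, hD, h'⟩ := finOrd_nat hG a b
  refine ⟨k + l, C + D, fun s h1 h2 => ?_⟩
  have hx := one_le_x s.im
  rw [norm_mul]
  refine (mul_le_mul (h s h1 h2) (h' s h1 h2) (norm_nonneg _) (Real.exp_pos _).le).trans ?_
  rw [← Real.exp_add]
  apply Real.exp_le_exp.2
  have h3 : (1 + |s.im|) ^ k ≤ (1 + |s.im|) ^ (k + l) := pow_le_pow_right₀ hx (by omega)
  have h4 : (1 + |s.im|) ^ l ≤ (1 + |s.im|) ^ (k + l) := pow_le_pow_right₀ hx (by omega)
  rw [add_mul]
  gcongr

theorem finOrd_add {F G : ℂ → ℂ} (hF : FinOrd F) (hG : FinOrd G) : FinOrd (fun s => F s + G s) := by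
  apply finOrd_of_nat
  intro a b
  obtain ⟨k, C, hC, h⟩ := finOrd_nat hF a b
  obtain ⟨l, D, hD, h'⟩ := finOrd_nat hG a b
  refine ⟨k + l, C + D + 1, fun s h1 h2 => ?_⟩
  have hx := one_le_x s.im
  have h3 : (1 + |s.im|) ^ k ≤ (1 + |s.im|) ^ (k + l) := pow_le_pow_right₀ hx (by omega)
  have h4 : (1 + |s.im|) ^ l ≤ (1 + |s.im|) ^ (k + l) := pow_le_pow_right₀ hx (by omega)
  have h5 : 1 ≤ (1 + |s.im|) ^ (k + l) := one_le_pow₀ hx
  set y := (1 + |s.im|) ^ (k + l) with hy
  have e1 : Real.exp (C * (1 + |s.im|) ^ k) ≤ Real.exp ((C + D) * y) := by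
    apply Real.exp_le_exp.2
    have : C * (1 + |s.im|) ^ k ≤ C * y := by gcongr
    have : 0 ≤ D * y := by positivity
    linarith
  have e2 : Real.exp (D * (1 + |s.im|) ^ l) ≤ Real.exp ((C + D) * y) := by
    apply Real.exp_le_exp.2
    have : D * (1 + |s.im|) ^ l ≤ D * y := by gcongr
    have : 0 ≤ C * y := by positivity
    linarith
  have e3 : (2 : ℝ) ≤ Real.exp y := by
    have := Real.add_one_le_exp y
    linarith
  calc ‖F s + G s‖ ≤ ‖F s‖ + ‖G s‖ := norm_add_le _ _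
    _ ≤ Real.exp ((C + D) * y) + Real.exp ((C + D) * y) :=
        add_le_add ((h s h1 h2).trans e1) ((h' s h1 h2).trans e2)
    _ = 2 * Real.exp ((C + D) * y) := by ring
    _ ≤ Real.exp y * Real.exp ((C + D) * y) := by gcongr
    _ = Real.exp ((C + D + 1) * y) := by rw [← Real.exp_add]; congr 1; ring

/-- exponential bounds in strips -/
theorem finOrd_of_exp {F : ℂ → ℂ} (hF : ∀ a b : ℝ, ∃ (B C : ℝ),
    ∀ s : ℂ, a ≤ s.re → s.re ≤ b → ‖F s‖ ≤ B * Real.exp (C * |s.im|)) : FinOrd F := by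
  apply finOrd_of_nat
  intro a b
  obtain ⟨B, C, h⟩ := hF a b
  refine ⟨1, |B| + |C|, fun s h1 h2 => (h s h1 h2).trans ?_⟩
  rw [pow_one]
  have hx := one_le_x s.im
  have e1 : B ≤ Real.exp |B| := by
    have := Real.add_one_le_exp |B|
    have := le_abs_self B
    linarith
  have e2 : Real.exp (C * |s.im|) ≤ Real.exp (|C| * |s.im|) := by
    apply Real.exp_le_exp.2
    gcongr
    exact le_abs_self C
  calc B * Real.exp (C * |s.im|) ≤ Real.exp |B| * Real.exp (C * |s.im|) := by gcongr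
    _ ≤ Real.exp |B| * Real.exp (|C| * |s.im|) := by gcongr
    _ = Real.exp (|B| + |C| * |s.im|) := by rw [← Real.exp_add]
    _ ≤ _ := by
        apply Real.exp_le_exp.2
        have : 0 ≤ |B| * |s.im| := by positivity
        have : 0 ≤ |C| := abs_nonneg C
        nlinarith

theorem finOrd_of_bdd {F : ℂ → ℂ} (hF : ∀ a b : ℝ, ∃ B : ℝ,
    ∀ s : ℂ, a ≤ s.re → s.re ≤ b → ‖F s‖ ≤ B) : FinOrd F := by
  apply finOrd_of_exp
  intro a b
  obtain ⟨B, h⟩ := hF a b
  exact ⟨B, 0, fun s h1 h2 => by simpa using h s h1 h2⟩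

theorem finOrd_const (c : ℂ) : FinOrd (fun _ => c) :=
  finOrd_of_bdd fun _ _ => ⟨‖c‖, fun _ _ _ => le_rfl⟩

theorem finOrd_id : FinOrd (fun s => s) := by
  apply finOrd_of_exp
  intro a b
  refine ⟨|a| + |b| + 1, 1, fun s h1 h2 => ?_⟩
  have h3 : ‖s‖ ≤ |s.re| + |s.im| := Complex.norm_le_abs_re_add_abs_im s
  have h4 : |s.re| ≤ |a| + |b| := by
    rw [abs_le]
    have := neg_abs_le a
    have := le_abs_self b
    have := abs_nonneg a
    have := abs_nonneg b
    constructor <;> linarith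
  have h5 : |s.im| + 1 ≤ Real.exp (|s.im|) := Real.add_one_le_exp _
  have h6 : 0 ≤ |a| + |b| := by positivity
  have h7 : 0 ≤ |s.im| := abs_nonneg _
  rw [one_mul]
  nlinarith

theorem finOrd_pow {F : ℂ → ℂ} (hF : FinOrd F) (m : ℕ) : FinOrd (fun s => F s ^ m) := by
  induction m with
  | zero => simpa using finOrd_const 1
  | succ m ih => simpa [pow_succ] using finOrd_mul ih hF

theorem finOrd_comp_affine {F : ℂ → ℂ} (hF : FinOrd F) (α β : ℝ) :
    FinOrd (fun s => F ((α : ℂ) * s + (β : ℂ))) := by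
  apply finOrd_of_nat
  intro a b
  obtain ⟨k, C, hC, h⟩ := finOrd_nat hF (-(|α| * (|a| + |b|)) + β) (|α| * (|a| + |b|) + β)
  refine ⟨k, C * (1 + |α|) ^ k, fun s h1 h2 => ?_⟩
  have h4 : |s.re| ≤ |a| + |b| := by
    rw [abs_le]
    have := neg_abs_le a
    have := le_abs_self b
    have := abs_nonneg a
    have := abs_nonneg b
    constructor <;> linarith
  have h5 : |α * s.re| ≤ |α| * (|a| + |b|) := by
    rw [abs_mul]; gcongr
  rw [abs_le] at h5
  have hre : ((α : ℂ) * s + (β : ℂ)).re = α * s.re + β := by simp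
  have him : ((α : ℂ) * s + (β : ℂ)).im = α * s.im := by simp
  refine (h _ (by rw [hre]; linarith) (by rw [hre]; linarith)).trans ?_
  rw [him, mul_assoc, ← mul_pow]
  apply Real.exp_le_exp.2
  have : 1 + |α * s.im| ≤ (1 + |α|) * (1 + |s.im|) := by
    rw [abs_mul]
    nlinarith [abs_nonneg α, abs_nonneg s.im]
  have h0 : 0 ≤ 1 + |α * s.im| := by positivity
  gcongr

theorem finOrd_congr {F G : ℂ → ℂ} (hF : FinOrd F) (h : ∀ s, G s = F s) : FinOrd G := by
  have : G = F := funext h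
  rw [this]
  exact hF

/-- exponentials of linear functions with real coefficients -/
theorem finOrd_cpow {D : ℝ} (hD : 0 < D) (α : ℝ) : FinOrd (fun s => (D : ℂ) ^ ((α : ℂ) * s)) := by
  apply finOrd_of_bdd
  intro a b
  refine ⟨D ^ (α * a) + D ^ (α * b), fun s h1 h2 => ?_⟩
  rw [Complex.norm_cpow_eq_rpow_re_of_pos hD]
  have hre : ((α : ℂ) * s).re = α * s.re := by simp
  rw [hre]
  have p1 : 0 < D ^ (α * a) := Real.rpow_pos_of_pos hD _
  have p2 : 0 < D ^ (α * b) := Real.rpow_pos_of_pos hD _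
  rw [Real.rpow_mul hD.le, Real.rpow_mul hD.le, Real.rpow_mul hD.le] at *
  set E := D ^ α with hE
  have hE0 : 0 < E := Real.rpow_pos_of_pos hD _
  rcases le_total 1 E with h | h
  · have := Real.rpow_le_rpow_of_exponent_le h h2
    linarith
  · have := Real.rpow_le_rpow_of_exponent_ge hE0 h h1
    linarith

/-! ### `1/Γ` -/

private theorem norm_Gamma_le {s : ℂ} (hs : 0 < s.re) : ‖Complex.Gamma s‖ ≤ Real.Gamma s.re := by
  rw [Complex.Gamma_eq_integral hs, Real.Gamma_eq_integral hs]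
  refine (norm_integral_le_integral_norm _).trans (le_of_eq ?_)
  refine setIntegral_congr_fun measurableSet_Ioi fun x hx => ?_
  have hx' : 0 < x := hx
  simp only [norm_mul]
  rw [Complex.norm_cpow_eq_rpow_re_of_pos hx', Complex.norm_real, Real.norm_of_nonneg
    (Real.exp_pos _).le]
  simp

private theorem norm_sin_le (z : ℂ) : ‖Complex.sin z‖ ≤ Real.exp |z.im| := by
  have h1 : ‖Complex.exp (-z * Complex.I)‖ ≤ Real.exp |z.im| := by
    rw [Complex.norm_exp]
    apply Real.exp_le_exp.2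
    simpa using le_abs_self z.im
  have h2 : ‖Complex.exp (z * Complex.I)‖ ≤ Real.exp |z.im| := by
    rw [Complex.norm_exp]
    apply Real.exp_le_exp.2
    simpa using neg_le_abs z.im
  have e : Complex.sin z = (Complex.exp (-z * Complex.I) - Complex.exp (z * Complex.I)) *
      Complex.I / 2 := rfl
  rw [e, norm_div, norm_mul, Complex.norm_I, mul_one]
  have h3 := norm_sub_le (Complex.exp (-z * Complex.I)) (Complex.exp (z * Complex.I))
  have : ‖(2 : ℂ)‖ = 2 := by simp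
  rw [this]
  linarith

/-- `Γ(s)⁻¹ = Γ(1-s) sin(π s) / π` -/
private theorem Gamma_inv_eq (s : ℂ) (hs : Complex.sin (Real.pi * s) ≠ 0) :
    (Complex.Gamma s)⁻¹ = Complex.Gamma (1 - s) * Complex.sin (Real.pi * s) / Real.pi := by
  have h := Complex.Gamma_mul_Gamma_one_sub s
  have hpi : (Real.pi : ℂ) ≠ 0 := by exact_mod_cast Real.pi_ne_zero
  have h0 : Complex.Gamma s ≠ 0 := by
    intro h0
    rw [h0, zero_mul] at h
    exact (div_ne_zero hpi hs) h.symm
  field_simp
  rw [mul_assoc] 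
  rw [← mul_assoc, h]
  field_simp

/-- far from the real axis, `Γ(1 - s)` is bounded in strips. -/
private theorem Gamma_bdd (b : ℝ) (m : ℕ) (a : ℝ) (hm : b < m + 1) : ∃ B : ℝ, ∀ s : ℂ, a ≤ s.re → s.re ≤ b →
    1 ≤ |s.im| → ‖Complex.Gamma (1 - s)‖ ≤ B := by
  have hcont : ContinuousOn Real.Gamma (Icc (m + 1 - b) (m + 1 - a)) := by
    intro x hx
    have : 0 < x := by have := hx.1; linarith
    refine (Real.differentiableAt_Gamma fun k hk => ?_).continuousAt.continuousWithinAt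
    rw [hk] at this
    have h0 : (0 : ℝ) ≤ k := Nat.cast_nonneg k
    linarith
  obtain ⟨B, hB⟩ := (isCompact_Icc.image_of_continuousOn hcont).bddAbove
  refine ⟨B, fun s h1 h2 h3 => ?_⟩
  -- `Γ (k + 1 - s)` dominates `Γ (1 - s)`
  have key : ∀ k : ℕ, ‖Complex.Gamma (1 - s)‖ ≤ ‖Complex.Gamma (k + 1 - s)‖ := by
    intro k
    induction k with
    | zero => simp
    | succ k ih =>
      refine ih.trans ?_
      have him : ((k : ℂ) + 1 - s).im = -s.im := by simp
      have hne : ((k : ℂ) + 1 - s) ≠ 0 := by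
        intro h0
        rw [h0] at him
        simp only [Complex.zero_im] at him
        have : s.im = 0 := by linarith
        rw [this] at h3
        norm_num at h3
      have e := Complex.Gamma_add_one _ hne
      have e2 : ((k + 1 : ℕ) : ℂ) + 1 - s = (k : ℂ) + 1 - s + 1 := by push_cast; ring
      rw [e2, e, norm_mul]
      have h4 : 1 ≤ ‖(k : ℂ) + 1 - s‖ := by
        refine h3.trans ?_
        have := Complex.abs_im_le_norm ((k : ℂ) + 1 - s)
        rwa [him, abs_neg] at this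
      have := norm_nonneg (Complex.Gamma ((k : ℂ) + 1 - s))
      nlinarith
  refine (key m).trans ?_
  have hre : ((m : ℂ) + 1 - s).re = m + 1 - s.re := by simp
  refine (norm_Gamma_le (by rw [hre]; linarith)).trans ?_
  rw [hre]
  exact hB ⟨_, ⟨by linarith, by linarith⟩, rfl⟩

theorem finOrd_Gamma_inv : FinOrd (fun s => (Complex.Gamma s)⁻¹) := by
  apply finOrd_of_exp
  intro a b
  obtain ⟨m, hm⟩ := exists_nat_gt (b - 1)
  obtain ⟨B, hB⟩ := Gamma_bdd b m a (by linarith)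
  -- compact part
  have hK : IsCompact (Icc a b ×ℂ Icc (-1 : ℝ) 1) := isCompact_Icc.reProdIm isCompact_Icc
  obtain ⟨B', hB'⟩ := (hK.image (Complex.differentiable_one_div_Gamma.continuous.norm)).bddAbove
  refine ⟨|B| + |B'|, Real.pi, fun s h1 h2 => ?_⟩
  rcases le_total 1 |s.im| with h3 | h3
  · have hsin : Complex.sin (Real.pi * s) ≠ 0 := by
      rw [Ne, Complex.sin_eq_zero_iff]
      rintro ⟨k, hk⟩
      have hpi : (Real.pi : ℂ) ≠ 0 := by exact_mod_cast Real.pi_ne_zero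
      have : s = k := by
        have : (Real.pi : ℂ) * s = Real.pi * k := by rw [hk]; ring
        exact mul_left_cancel₀ hpi this
      rw [this] at h3
      norm_num at h3
    rw [Gamma_inv_eq s hsin, norm_div, norm_mul]
    have h4 := norm_sin_le (Real.pi * s)
    have h5 : ((Real.pi : ℂ) * s).im = Real.pi * s.im := by simp
    rw [h5, abs_mul, abs_of_pos Real.pi_pos] at h4
    have h6 := hB s h1 h2 h3
    have h7 : ‖(Real.pi : ℂ)‖ = Real.pi := by
      rw [Complex.norm_real, Real.norm_of_nonneg Real.pi_pos.le]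
    rw [h7]
    have h8 : 1 ≤ Real.pi := by linarith [Real.pi_gt_three]
    calc ‖Complex.Gamma (1 - s)‖ * ‖Complex.sin (↑Real.pi * s)‖ / Real.pi
        ≤ ‖Complex.Gamma (1 - s)‖ * ‖Complex.sin (↑Real.pi * s)‖ :=
          div_le_self (by positivity) h8
      _ ≤ (|B| + |B'|) * Real.exp (Real.pi * |s.im|) := by
          gcongr
          have := le_abs_self B
          have := abs_nonneg B'
          linarith
  · have h4 : ‖(Complex.Gamma s)⁻¹‖ ≤ B' := by
      apply hB'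
      refine ⟨s, ⟨⟨h1, h2⟩, abs_le.1 h3⟩, ?_⟩
      simp
    have h5 : 1 ≤ Real.exp (Real.pi * |s.im|) := Real.one_le_exp (by positivity)
    have h6 : B' ≤ |B| + |B'| := by
      have := le_abs_self B'
      have := abs_nonneg B
      linarith
    have h7 : 0 ≤ |B| + |B'| := by positivity
    nlinarith

theorem finOrd_GammaR_inv : FinOrd (fun s => (Complex.Gammaℝ s)⁻¹) := by
  have h1 := finOrd_comp_affine finOrd_Gamma_inv (1 / 2) 0
  have h2 := finOrd_cpow Real.pi_pos (1 / 2)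
  refine finOrd_congr (finOrd_mul h2 h1) fun s => ?_
  rw [Complex.Gammaℝ_def, mul_inv]
  congr 1
  · rw [← Complex.cpow_neg]
    congr 1
    push_cast
    ring
  · congr 2
    push_cast
    ring

/-! ### Mellin transforms -/

/-- the entire function `Λ₀` of a `WeakFEPair` is bounded in vertical strips. -/
theorem Lam0_bdd (P : WeakFEPair ℂ) (a b : ℝ) : ∃ B : ℝ, ∀ s : ℂ, a ≤ s.re → s.re ≤ b →
    ‖P.Λ₀ s‖ ≤ B := by
  have hconv : ∀ s : ℂ, IntegrableOn (fun t : ℝ => (t : ℂ) ^ (s - 1) • P.f_modif t) (Ioi 0) :=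
    fun s => (P.isStrongFEPair_toStrongFEPair.hasMellin s).1
  refine ⟨∫ t in Ioi (0 : ℝ), (‖(t : ℂ) ^ ((a : ℂ) - 1) • P.f_modif t‖ +
    ‖(t : ℂ) ^ ((b : ℂ) - 1) • P.f_modif t‖), fun s h1 h2 => ?_⟩
  have e : P.Λ₀ s = ∫ t in Ioi (0 : ℝ), (t : ℂ) ^ (s - 1) • P.f_modif t := rfl
  rw [e]
  refine (norm_integral_le_integral_norm _).trans ?_
  refine setIntegral_mono_on (hconv s).norm ((hconv a).norm.add (hconv b).norm) measurableSet_Ioi
    fun t ht => ?_
  have ht' : 0 < t := ht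
  rw [norm_smul, norm_smul, norm_smul, ← add_mul]
  gcongr
  rw [Complex.norm_cpow_eq_rpow_re_of_pos ht', Complex.norm_cpow_eq_rpow_re_of_pos ht',
    Complex.norm_cpow_eq_rpow_re_of_pos ht']
  simp only [Complex.sub_re, Complex.ofReal_re, Complex.one_re]
  have p1 : 0 < t ^ (a - 1) := Real.rpow_pos_of_pos ht' _
  have p2 : 0 < t ^ (b - 1) := Real.rpow_pos_of_pos ht' _
  rcases le_total 1 t with h | h
  · have := Real.rpow_le_rpow_of_exponent_le h (by linarith : s.re - 1 ≤ b - 1)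
    linarith
  · have := Real.rpow_le_rpow_of_exponent_ge ht' h (by linarith : a - 1 ≤ s.re - 1)
    linarith

end Pool.Agent.QD.Z
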