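import Pool.Agent.QD.Z.Defs

/-!
# QDZ-ChVar (0.5 h): the logarithmic coordinates

PROOF.  `yy` is linear in `p`.  It is injective: `∑_v d_v y_v = n ρ` because `∑_v d_v log |ε_j|_v = 0`
(`Units.sum_mult_mul_log`), `n = ∑ d_v` (`InfinitePlace.sum_mult_eq`); if all `y_v = 0` then `ρ = 0` and
`∑_j a_j d_v log |ε_j|_v = 0` for all `v`, so `a = 0` by the linear independence of the fundamental units
(`Units.logEmbedding_fundSystem`, `Units.basisUnitLattice`; or the nonvanishing of the determinant
`Units.regulator_eq_det`, `Units.regulator_ne_zero`).  Dimensions: `finrank ((Fin r → ℝ) × ℝ) = r + 1 = card (InfinitePlace K)`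
(`Units.rank`, card is positive), so `yy` is a linear equivalence (`LinearEquiv.ofInjectiveOfFinrankEq`/
`LinearMap.linearEquivOfInjective`), a homeomorphism (`LinearEquiv.toContinuousLinearEquiv`), and the image of the Lebesgue
measure is a Haar measure, `= c • volume` with `0 < c < ∞` (`ContinuousLinearEquiv.isAddHaarMeasure_map`,
`Measure.isAddHaarMeasure_eq_smul` / `addHaarScalarFactor`).  Integrals: `MeasurableEmbedding.integral_map`,
`MeasurableEmbedding.integrable_map_iff`.
-/

namespace Pool.Agent.QD.Z

open NumberField NumberField.InfinitePlace MeasureTheory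

variable (K : Type) [Field K] [NumberField K]

/-- the coordinates as a linear map -/
private noncomputable def Y : ((Fin (Units.rank K) → ℝ) × ℝ) →ₗ[ℝ] (InfinitePlace K → ℝ) where
  toFun := yy
  map_add' p q := by
    funext v
    simp only [yy, Pi.add_apply, Prod.fst_add, Prod.snd_add, add_mul, Finset.sum_add_distrib]
    ring
  map_smul' c p := by
    funext v
    simp only [yy, Pi.smul_apply, Prod.smul_fst, Prod.smul_snd, smul_eq_mul, RingHom.id_apply,
      mul_assoc, ← Finset.mul_sum]
    ring

private theorem Y_inj : Function.Injective (Y K) := by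
  rw [← LinearMap.ker_eq_bot, LinearMap.ker_eq_bot']
  rintro ⟨a, ρ⟩ h
  have h0 : ∀ v : InfinitePlace K,
      ρ + ∑ j, a j * (2 * Real.log (v ((Units.fundSystem K j : 𝓞 K) : K))) = 0 :=
    fun v => congrFun h v
  have hρ : ρ = 0 := by
    have h1 : ∑ v : InfinitePlace K, (v.mult : ℝ) *
        (ρ + ∑ j, a j * (2 * Real.log (v ((Units.fundSystem K j : 𝓞 K) : K)))) = 0 :=
      Finset.sum_eq_zero fun v _ => by rw [h0 v, mul_zero]
    have h2 : ∑ v : InfinitePlace K, (v.mult : ℝ) *
        (ρ + ∑ j, a j * (2 * Real.log (v ((Units.fundSystem K j : 𝓞 K) : K)))) =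
        (Module.finrank ℚ K : ℝ) * ρ + ∑ j, a j * (2 * ∑ v : InfinitePlace K, (v.mult : ℝ) *
          Real.log (v ((Units.fundSystem K j : 𝓞 K) : K))) := by
      rw [← InfinitePlace.sum_mult_eq]
      push_cast
      rw [Finset.sum_mul]
      simp only [mul_add, Finset.sum_add_distrib, Finset.mul_sum]
      congr 1
      rw [Finset.sum_comm]
      refine Finset.sum_congr rfl fun j _ => Finset.sum_congr rfl fun v _ => ?_
      ring
    rw [h2] at h1
    have h3 : ∀ j, ∑ v : InfinitePlace K, (v.mult : ℝ) *
          Real.log (v ((Units.fundSystem K j : 𝓞 K) : K)) = 0 :=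
      fun j => Units.sum_mult_mul_log (Units.fundSystem K j)
    simp only [h3, mul_zero, Finset.sum_const_zero, add_zero] at h1
    have h4 : (Module.finrank ℚ K : ℝ) ≠ 0 := by
      have := Module.finrank_pos (R := ℚ) (M := K)
      positivity
    exact (mul_eq_zero.1 h1).resolve_left h4
  subst hρ
  have ha : ∀ j, a j = 0 := by
    have hLI := Units.isMaxRank_fundSystem K
    unfold Units.IsMaxRank at hLI
    rw [Fintype.linearIndependent_iff] at hLI
    refine hLI a ?_
    funext w
    rw [Finset.sum_apply]
    simp only [Pi.smul_apply, Units.dirichletUnitTheorem.logEmbedding_component, smul_eq_mul]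
    have h1 := h0 w.1
    rw [zero_add] at h1
    have h2 : ∑ j, a j * ((w.1.mult : ℝ) * Real.log (w.1 ((Units.fundSystem K j : 𝓞 K) : K))) =
        (w.1.mult : ℝ) / 2 * ∑ j, a j * (2 * Real.log (w.1 ((Units.fundSystem K j : 𝓞 K) : K))) := by
      rw [Finset.mul_sum]
      refine Finset.sum_congr rfl fun j _ => ?_
      ring
    rw [h1, mul_zero] at h2
    exact h2
  refine Prod.ext (funext ha) rfl

theorem exists_chvar : ∃ c : ℝ, 0 < c ∧ ∀ h : (InfinitePlace K → ℝ) → ℂ, Integrable h →
    Integrable (fun p : (Fin (Units.rank K) → ℝ) × ℝ => h (yy p)) ∧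
    ∫ p : (Fin (Units.rank K) → ℝ) × ℝ, h (yy p) = (c : ℂ) * ∫ y, h y := by
  have hdim : Module.finrank ℝ ((Fin (Units.rank K) → ℝ) × ℝ) =
      Module.finrank ℝ (InfinitePlace K → ℝ) := by
    rw [Module.finrank_prod, Module.finrank_fin_fun, Module.finrank_self, Module.finrank_pi]
    have h1 : 0 < Fintype.card (InfinitePlace K) := Fintype.card_pos
    unfold Units.rank
    omega
  set e := (LinearMap.linearEquivOfInjective (Y K) (Y_inj K) hdim).toContinuousLinearEquiv with he
  have hey : ∀ p, e p = yy p := fun p => rfl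
  have hH : Measure.IsAddHaarMeasure
      (volume : Measure ((Fin (Units.rank K) → ℝ) × ℝ)) := Measure.prod.instIsAddHaarMeasure _ _
  have hH2 : Measure.IsAddHaarMeasure
      ((volume : Measure ((Fin (Units.rank K) → ℝ) × ℝ)).map e) := e.isAddHaarMeasure_map _
  set c := Measure.addHaarScalarFactor
    ((volume : Measure ((Fin (Units.rank K) → ℝ) × ℝ)).map e)
    (volume : Measure (InfinitePlace K → ℝ)) with hc
  have hμ : (volume : Measure ((Fin (Units.rank K) → ℝ) × ℝ)).map e = c • volume :=
    Measure.isAddLeftInvariant_eq_smul _ _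
  have hc0 : 0 < c := Measure.addHaarScalarFactor_pos_of_isAddHaarMeasure _ _
  have hemb : MeasurableEmbedding e := e.toHomeomorph.measurableEmbedding
  refine ⟨c, by exact_mod_cast hc0, fun h hh => ⟨?_, ?_⟩⟩
  · have h1 : Integrable h ((volume : Measure ((Fin (Units.rank K) → ℝ) × ℝ)).map e) := by
      rw [hμ]
      exact hh.smul_measure_nnreal
    exact (hemb.integrable_map_iff).1 h1
  · have h1 := hemb.integral_map (μ := (volume : Measure ((Fin (Units.rank K) → ℝ) × ℝ))) h
    rw [hμ, integral_smul_nnreal_measure] at h1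
    rw [← Complex.real_smul]
    exact h1.symm

end Pool.Agent.QD.Z
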