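import Pool.Agent.QD.Z.Defs

/-!
# QDZ-FracDual (0.6 h): dual fractional ideals and covolumes

PROOFS.  `mem_dl`: `(dl b : FractionalIdeal) = dual ℤ ℚ b` (`FractionalIdeal.dual_eq_mul_inv`, `Units.val_inv_eq_inv_val`);
`FractionalIdeal.coe_dual` and `Submodule.traceDual_span_of_basis ℤ (I := (b : Submodule (𝓞 K) K))` with
`mem_span_basisOfFractionalIdeal`.
`Dv_eq`: `discr K = Algebra.discr ℚ (integralBasis K)` (`coe_discr`), `Algebra.discr_of_matrix_mulVec`/
`Algebra.discr_of_matrix_vecMul` for the change of basis, `det_basisOfFractionalIdeal_eq_absNorm` (equivalence of the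
index sets: `Fintype.equivOfCardEq` with `fractionalIdeal_rank`, or `Module.Free.ChooseBasisIndex`; `Algebra.discr_reindex`).
`Dv_pos`: `discr_ne_zero`, `FractionalIdeal.absNorm_ne_zero`/`absNorm_nonneg`.
`Dv_dl`: `absNorm (dl b) = absNorm (dual 1) * (absNorm b)⁻¹`; `dual 1 = (differentIdeal : FractionalIdeal)⁻¹`
(`coeIdeal_differentIdeal`), `FractionalIdeal.coeIdeal_absNorm`, `NumberField.absNorm_differentIdeal` (`= |discr|`).
-/

namespace Pool.Agent.QD.Z

open NumberField NumberField.InfinitePlace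

open scoped nonZeroDivisors

variable {K : Type} [Field K] [NumberField K]

private theorem dl_coe (b : (FractionalIdeal (𝓞 K)⁰ K)ˣ) :
    (dl b : FractionalIdeal (𝓞 K)⁰ K) = FractionalIdeal.dual ℤ ℚ (b : FractionalIdeal (𝓞 K)⁰ K) := by
  rw [FractionalIdeal.dual_eq_mul_inv]
  unfold dl
  rw [Units.val_mul, Units.val_mk0, Units.val_inv_eq_inv_val]

open Classical in
theorem mem_dl (b : (FractionalIdeal (𝓞 K)⁰ K)ˣ) (x : K) :
    x ∈ (dl b : FractionalIdeal (𝓞 K)⁰ K) ↔
      x ∈ Submodule.span ℤ (Set.range (basisOfFractionalIdeal K b).traceDual) := by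
  rw [dl_coe, ← FractionalIdeal.mem_coe, FractionalIdeal.coe_dual ℤ ℚ b.ne_zero]
  have h := Submodule.traceDual_span_of_basis (K := ℚ) ℤ (I := ((b : FractionalIdeal (𝓞 K)⁰ K) : Submodule (𝓞 K) K))
    (basisOfFractionalIdeal K b) (by
      ext y
      rw [mem_span_basisOfFractionalIdeal]
      simp)
  rw [← h]
  rfl

private theorem absN_pos (b : (FractionalIdeal (𝓞 K)⁰ K)ˣ) :
    0 < (FractionalIdeal.absNorm (b : FractionalIdeal (𝓞 K)⁰ K) : ℝ) := by
  have h1 := FractionalIdeal.absNorm_nonneg (b : FractionalIdeal (𝓞 K)⁰ K)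
  have h2 : FractionalIdeal.absNorm (b : FractionalIdeal (𝓞 K)⁰ K) ≠ 0 := by
    intro h
    exact b.ne_zero (FractionalIdeal.absNorm_eq_zero_iff.mp h)
  have h3 := lt_of_le_of_ne h1 (Ne.symm h2)
  exact_mod_cast h3

theorem Dv_pos (b : (FractionalIdeal (𝓞 K)⁰ K)ˣ) : 0 < Dv b := by
  unfold Dv
  apply mul_pos
  · apply Real.sqrt_pos.mpr
    rw [abs_pos]
    exact_mod_cast discr_ne_zero K
  · exact absN_pos b

open Classical in
theorem Dv_eq (b : (FractionalIdeal (𝓞 K)⁰ K)ˣ) :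
    Dv b = Real.sqrt |((Algebra.discr ℚ (basisOfFractionalIdeal K b) : ℚ) : ℝ)| := by
  have hcard : Fintype.card (Module.Free.ChooseBasisIndex ℤ (𝓞 K)) =
      Fintype.card (Module.Free.ChooseBasisIndex ℤ b) := by
    rw [← Module.finrank_eq_card_chooseBasisIndex, ← Module.finrank_eq_card_chooseBasisIndex,
      fractionalIdeal_rank]
  let e := Fintype.equivOfCardEq hcard
  have h1 := det_basisOfFractionalIdeal_eq_absNorm K b e
  set c := (basisOfFractionalIdeal K b).reindex e.symm with hc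
  have h2 : Algebra.discr ℚ c = Algebra.discr ℚ (basisOfFractionalIdeal K b) := by
    rw [hc, Module.Basis.coe_reindex]
    exact Algebra.discr_reindex ℚ (basisOfFractionalIdeal K b) e.symm
  have h3 : Algebra.discr ℚ c = ((integralBasis K).det c) ^ 2 * Algebra.discr ℚ (integralBasis K) := by
    have h4 := Algebra.discr_of_matrix_vecMul (A := ℚ) (integralBasis K) ((integralBasis K).toMatrix c)
    rw [Module.Basis.toMatrix_map_vecMul] at h4
    rw [Module.Basis.det_apply]
    exact h4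
  rw [← h2, h3, ← coe_discr]
  unfold Dv
  rw [← h1]
  push_cast
  rw [abs_mul, abs_pow, Real.sqrt_mul (by positivity), Real.sqrt_sq (by positivity)]
  ring

theorem Dv_dl (b : (FractionalIdeal (𝓞 K)⁰ K)ˣ) : Dv (dl b) = (Dv b)⁻¹ := by
  unfold Dv
  have hd : FractionalIdeal.absNorm (FractionalIdeal.dual ℤ ℚ (1 : FractionalIdeal (𝓞 K)⁰ K)) =
      |(discr K : ℚ)|⁻¹ := by
    have h1 := coeIdeal_differentIdeal (A := ℤ) (K := ℚ) (L := K) (B := 𝓞 K)
    have h2 : FractionalIdeal.dual ℤ ℚ (1 : FractionalIdeal (𝓞 K)⁰ K) =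
      ((differentIdeal ℤ (𝓞 K) : Ideal (𝓞 K)) : FractionalIdeal (𝓞 K)⁰ K)⁻¹ := by
      rw [h1, inv_inv]
    rw [h2, map_inv₀, FractionalIdeal.coeIdeal_absNorm, NumberField.absNorm_differentIdeal K]
    congr 1
    rw [Nat.cast_natAbs]
    push_cast
    rfl
  unfold dl
  rw [Units.val_mul, Units.val_mk0, Units.val_inv_eq_inv_val, map_mul, map_inv₀, hd]
  have hN := absN_pos b
  have hD : 0 < |(discr K : ℝ)| := by
    rw [abs_pos]
    exact_mod_cast discr_ne_zero K
  push_cast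
  have hs := Real.mul_self_sqrt hD.le
  have hs0 := Real.sqrt_pos.mpr hD
  field_simp
  nlinarith

theorem dl_dl (b : (FractionalIdeal (𝓞 K)⁰ K)ˣ) : dl (dl b) = b := by
  unfold dl
  rw [mul_inv, inv_inv, ← mul_assoc, mul_inv_cancel, one_mul]

end Pool.Agent.QD.Z
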