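import Pool.Agent.QD.Z.HBox

/-!
# QDZ-HBd (0.4 h): decay of the averaged theta function

PROOF.  `gg_lower K 1`: `κ`; `qf_lower b`: `q`.  For `ρ ≥ 0`, `a` in the box and `x ∈ Nz b`:
`GG x (a, ρ) ≤ exp (-π κ e^ρ qf 1 x) ≤ exp (-(π κ q / 2) e^ρ) * exp (-π qf (fun _ => κ / 2) x)` (half of the exponent with
`qf 1 x ≥ q`, half with `e^ρ ≥ 1`).  Integrate over the box (volume `1`) and sum: `C = ∑' x, exp (-π qf (κ/2) x)`
(`summable_Th b (fun _ => κ / 2)` restricted to `Nz b`), `c = π κ q / 2`.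
-/

namespace Pool.Agent.QD.Z

open NumberField NumberField.InfinitePlace MeasureTheory

open scoped nonZeroDivisors

variable {K : Type} [Field K] [NumberField K]

private def hbdAll (b : (FractionalIdeal (𝓞 K)⁰ K)ˣ) (x : Nz b) :
    {x : K // x ∈ (b : FractionalIdeal (𝓞 K)⁰ K)} := ⟨x.1, x.2.1⟩

private theorem hbdAll_inj (b : (FractionalIdeal (𝓞 K)⁰ K)ˣ) :
    Function.Injective (hbdAll b) := by
  intro x y hxy
  have h : (hbdAll b x).1 = (hbdAll b y).1 := by rw [hxy]
  exact Subtype.ext h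

private theorem hbd_sum_w (b : (FractionalIdeal (𝓞 K)⁰ K)ˣ) (g : InfinitePlace K → ℝ)
    (hg : ∀ v, 0 < g v) :
    Summable (fun x : Nz b => Real.exp (-Real.pi * qf g x.1)) := by
  have h1 := summable_Th b g hg
  have h2 := h1.comp_injective (hbdAll_inj b)
  exact h2

theorem HH_bound (b : (FractionalIdeal (𝓞 K)⁰ K)ˣ) : ∃ c C : ℝ, 0 < c ∧ ∀ ρ : ℝ, 0 ≤ ρ →
    HH b ρ ≤ C * Real.exp (-c * Real.exp ρ) := by
  obtain ⟨κ, hκ, hgg⟩ := gg_lower K 1
  obtain ⟨q, hq, hqf⟩ := qf_lower b
  set w : Nz b → ℝ := fun x => Real.exp (-Real.pi * qf (fun _ => κ / 2) x.1) with hw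
  have hsumw : Summable w := by
    exact hbd_sum_w b _ (fun _ => by positivity)
  refine ⟨Real.pi * κ * q / 2, ∑' x, w x, by positivity, fun ρ hρ => ?_⟩
  have hE : 1 ≤ Real.exp ρ := Real.one_le_exp hρ
  have hvol : volume (box (Units.rank K)) = 1 := by
    unfold box
    rw [MeasureTheory.volume_pi_pi]
    simp
  have hterm : ∀ x : Nz b, ∫ a in box (Units.rank K), GG x.1 (a, ρ) ≤
      w x * Real.exp (-(Real.pi * κ * q / 2) * Real.exp ρ) := by
    intro x
    have hpt : ∀ a ∈ box (Units.rank K), ‖GG x.1 (a, ρ)‖ ≤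
        w x * Real.exp (-(Real.pi * κ * q / 2) * Real.exp ρ) := by
      intro a ha
      have hbd : ∀ j, |a j| ≤ 1 := by
        intro j
        have h1 := ha j (Set.mem_univ j)
        rw [abs_le]
        constructor
        · linarith [h1.1]
        · exact h1.2.le
      have h2 := GG_le (κ := κ) (p := (a, ρ)) (fun v => hgg a hbd ρ v) x.1
      have h3 : ‖GG x.1 (a, ρ)‖ = GG x.1 (a, ρ) := by
        rw [Real.norm_eq_abs]
        exact abs_of_nonneg (Real.exp_pos _).le
      rw [h3]
      refine h2.trans ?_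
      rw [hw]
      simp only []
      rw [← Real.exp_add, qf_const (κ / 2)]
      refine Real.exp_le_exp.2 ?_
      have hQ := hqf x
      set Q := qf (fun _ => 1) x.1
      have hpi := Real.pi_pos
      have h4 : 0 ≤ Real.pi * κ * Real.exp ρ * (Q - q) := by
        have : 0 ≤ Q - q := by linarith
        positivity
      have h5 : 0 ≤ Real.pi * κ * Q * (Real.exp ρ - 1) := by
        have : 0 ≤ Real.exp ρ - 1 := by linarith
        have : 0 ≤ Q := by linarith
        positivity
      have h6 : -Real.pi * (κ * Real.exp ρ * Q) =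
          (-Real.pi * (κ / 2 * Q) + -(Real.pi * κ * q / 2) * Real.exp ρ) -
          (Real.pi * κ * Real.exp ρ * (Q - q)) / 2 - (Real.pi * κ * Q * (Real.exp ρ - 1)) / 2 := by
        ring
      linarith
    have h7 := norm_setIntegral_le_of_norm_le_const (μ := volume)
      (s := box (Units.rank K)) (by rw [hvol]; exact ENNReal.one_lt_top) hpt
    have h8 : (volume : Measure (Fin (Units.rank K) → ℝ)).real (box (Units.rank K)) = 1 := by
      rw [Measure.real, hvol, ENNReal.toReal_one]
    rw [h8, mul_one] at h7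
    exact (le_abs_self _).trans h7
  unfold HH
  rw [← tsum_mul_right]
  exact (summable_HH b ρ).tsum_le_tsum hterm (hsumw.mul_right _)

end Pool.Agent.QD.Z
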