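import Pool.Agent.QD.Z.HFe
import Pool.Agent.QD.Z.HBd
import Pool.Agent.QD.Z.FracDual

/-!
# QDZ-FbA (0.5 h): the functions `Fb`: functional equation, decay, local integrability

PROOFS.  `n = finrank ≥ 1`.  `Fb_feq`: `HH_fe b` at `ρ = -log t - (2/n) log D`, `D = Dv b > 0` (`Dv_pos`): `D⁻¹ exp (-(n/2) ρ) =
D⁻¹ t^(n/2) D = t^(n/2)` and `-ρ = log t - (2/n) log (Dv (dl b))` (`Dv_dl`, `Real.log_inv`).  `Fb_top`: by `HH_bound`, for large `t`,
`|Fb b t - 1| ≤ C exp (-c' t)`, which is `O(t^r)` for every `r` (`isLittleO_exp_neg_mul_rpow_atTop`).  `Fb_locInt`: `t ↦ HH b (log t - δ)` is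
antitone on `Ioi 0` (`HH_antitone`), so locally integrable there (`AntitoneOn.integrableOn_of_measure_ne_top`, or
`AntitoneOn.intervalIntegrable`; `locallyIntegrableOn` via compact subsets `locallyIntegrableOn_iff`), and constants.
-/

namespace Pool.Agent.QD.Z

open NumberField NumberField.InfinitePlace MeasureTheory Asymptotics Filter

open scoped nonZeroDivisors

variable {K : Type} [Field K] [NumberField K]

theorem Fb_feq (b : (FractionalIdeal (𝓞 K)⁰ K)ˣ) (t : ℝ) (ht : 0 < t) :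
    Fb b (1 / t) = ((t ^ ((Module.finrank ℚ K : ℝ) / 2) : ℝ) : ℂ) * Fb (dl b) t := by
  have hn : (0 : ℝ) < (Module.finrank ℚ K : ℝ) := by exact_mod_cast Module.finrank_pos
  have hD := Dv_pos b
  unfold Fb
  rw [← Complex.ofReal_mul]
  congr 1
  have h1 := HH_fe b (Real.log (1 / t) - 2 / (Module.finrank ℚ K : ℝ) * Real.log (Dv b))
  rw [h1, Dv_dl, Real.log_inv, one_div, Real.log_inv]
  have h2 : -(-Real.log t - 2 / (Module.finrank ℚ K : ℝ) * Real.log (Dv b)) =
      Real.log t - 2 / (Module.finrank ℚ K : ℝ) * -Real.log (Dv b) := by ring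
  have h3 : -((Module.finrank ℚ K : ℝ) / 2 *
      (-Real.log t - 2 / (Module.finrank ℚ K : ℝ) * Real.log (Dv b))) =
      Real.log t * ((Module.finrank ℚ K : ℝ) / 2) + Real.log (Dv b) := by
    field_simp
    ring
  rw [h2, h3, Real.exp_add, Real.exp_log hD, Real.rpow_def_of_pos ht]
  field_simp

theorem Fb_top (b : (FractionalIdeal (𝓞 K)⁰ K)ˣ) (r : ℝ) :
    (fun t : ℝ => Fb b t - 1) =O[atTop] fun t : ℝ => t ^ r := by
  obtain ⟨c, C, hc, hC⟩ := HH_bound b
  set δ : ℝ := 2 / (Module.finrank ℚ K : ℝ) * Real.log (Dv b) with hδ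
  have h1 : (fun t : ℝ => Fb b t - 1) =O[atTop] fun t : ℝ => Real.exp (-(c * Real.exp (-δ)) * t) := by
    refine IsBigO.of_bound |C| ?_
    filter_upwards [eventually_ge_atTop (Real.exp δ)] with t ht
    have ht0 : 0 < t := (Real.exp_pos δ).trans_le ht
    have hl : 0 ≤ Real.log t - δ := by
      have := (Real.le_log_iff_exp_le ht0).2 ht
      linarith
    have h2 := hC _ hl
    have h3 := HH_nonneg b (Real.log t - δ)
    have h4 : Fb b t - 1 = ((HH b (Real.log t - δ) : ℝ) : ℂ) := by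
      unfold Fb
      push_cast
      ring
    have h5 : Real.exp (Real.log t - δ) = Real.exp (-δ) * t := by
      rw [sub_eq_add_neg, Real.exp_add, Real.exp_log ht0]
      ring
    rw [h4, Complex.norm_real, Real.norm_eq_abs, abs_of_nonneg h3, Real.norm_eq_abs, Real.abs_exp]
    rw [h5, show -c * (Real.exp (-δ) * t) = -(c * Real.exp (-δ)) * t by ring] at h2
    exact h2.trans (mul_le_mul_of_nonneg_right (le_abs_self C) (Real.exp_pos _).le)
  exact h1.trans (isLittleO_exp_neg_mul_rpow_atTop (by positivity) r).isBigO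

theorem Fb_locInt (b : (FractionalIdeal (𝓞 K)⁰ K)ˣ) :
    LocallyIntegrableOn (Fb b) (Set.Ioi 0) := by
  rw [locallyIntegrableOn_iff isOpen_Ioi.isLocallyClosed]
  intro k hk hkc
  have h1 : AntitoneOn (fun t : ℝ => 1 +
      HH b (Real.log t - 2 / (Module.finrank ℚ K : ℝ) * Real.log (Dv b))) k := by
    intro x hx y hy hxy
    have := HH_antitone b (sub_le_sub_right (Real.log_le_log (hk hx) hxy)
      (2 / (Module.finrank ℚ K : ℝ) * Real.log (Dv b)))
    show 1 + HH b _ ≤ 1 + HH b _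
    linarith
  have h2 : IntegrableOn (fun t : ℝ => 1 +
      HH b (Real.log t - 2 / (Module.finrank ℚ K : ℝ) * Real.log (Dv b))) k volume :=
    h1.integrableOn_isCompact hkc
  exact h2.ofReal

end Pool.Agent.QD.Z
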