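import Pool.Agent.QD.Z.HMel
import Pool.Agent.QD.Z.FracDual

/-!
# QDZ-FbM: Mellin transform of `Fb - 1`
-/

namespace Pool.Agent.QD.Z

open NumberField NumberField.InfinitePlace MeasureTheory

open scoped nonZeroDivisors

variable {K : Type} [Field K] [NumberField K]

private theorem fbm_cpow (s : ℂ) (ρ : ℝ) :
    |Real.exp ρ| • (((Real.exp ρ : ℝ) : ℂ) ^ (s - 1)) = Complex.exp (s * (ρ : ℂ)) := by
  rw [abs_of_pos (Real.exp_pos ρ), Complex.real_smul,
    Complex.cpow_def_of_ne_zero (by exact_mod_cast (Real.exp_pos ρ).ne'),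
    ← Complex.ofReal_log (Real.exp_pos ρ).le, Real.log_exp, Complex.ofReal_exp, ← Complex.exp_add]
  congr 1
  ring

private theorem fbm_image : Real.exp '' Set.univ = Set.Ioi (0 : ℝ) := by
  rw [Set.image_univ, Real.range_exp]

private theorem fbm_change (H : ℝ → ℝ) (δ : ℝ) (s : ℂ)
    (hH : Integrable fun ρ : ℝ => (H ρ : ℂ) * Complex.exp (s * (ρ : ℂ))) :
    HasMellin (fun t : ℝ => ((H (Real.log t - δ) : ℝ) : ℂ)) s
      (Complex.exp (s * (δ : ℂ)) * ∫ ρ : ℝ, (H ρ : ℂ) * Complex.exp (s * (ρ : ℂ))) := by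
  have hderiv : ∀ x ∈ (Set.univ : Set ℝ), HasDerivWithinAt Real.exp (Real.exp x) Set.univ x :=
    fun x _ => (Real.hasDerivAt_exp x).hasDerivWithinAt
  have hinj : Set.InjOn Real.exp (Set.univ : Set ℝ) := Real.exp_injective.injOn
  have hfun : (fun ρ : ℝ => |Real.exp ρ| • (((Real.exp ρ : ℝ) : ℂ) ^ (s - 1) •
      ((H (Real.log (Real.exp ρ) - δ) : ℝ) : ℂ))) =
      fun ρ : ℝ => Complex.exp (s * (δ : ℂ)) *
        ((H (ρ - δ) : ℂ) * Complex.exp (s * ((ρ - δ : ℝ) : ℂ))) := by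
    funext ρ
    rw [← smul_assoc, fbm_cpow, Real.log_exp, smul_eq_mul]
    have : Complex.exp (s * (ρ : ℂ)) =
        Complex.exp (s * (δ : ℂ)) * Complex.exp (s * ((ρ - δ : ℝ) : ℂ)) := by
      rw [← Complex.exp_add]
      congr 1
      push_cast
      ring
    rw [this]
    ring
  have hint : Integrable fun ρ : ℝ => Complex.exp (s * (δ : ℂ)) *
        ((H (ρ - δ) : ℂ) * Complex.exp (s * ((ρ - δ : ℝ) : ℂ))) :=
    (hH.comp_sub_right δ).const_mul _
  constructor
  · unfold MellinConvergent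
    rw [← fbm_image, integrableOn_image_iff_integrableOn_abs_deriv_smul MeasurableSet.univ hderiv
      hinj, integrableOn_univ, hfun]
    exact hint
  · unfold mellin
    rw [← fbm_image, integral_image_eq_integral_abs_deriv_smul MeasurableSet.univ hderiv hinj,
      Measure.restrict_univ, hfun, integral_const_mul]
    congr 1
    exact integral_sub_right_eq_self
      (fun ρ : ℝ => (H ρ : ℂ) * Complex.exp (s * (ρ : ℂ))) δ

theorem Fb_mellin {c : ℝ} (hc : IsConst K c) (b : (FractionalIdeal (𝓞 K)⁰ K)ˣ) (w : ℂ)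
    (hw : 1 < w.re) :
    HasMellin (fun t : ℝ => Fb b t - 1) ((Module.finrank ℚ K : ℂ) * w / 2)
      ((Units.torsionOrder K : ℂ) * (c : ℂ) *
        (((|NumberField.discr K| : ℤ) : ℝ) : ℂ) ^ (w / 2) * gamK K w *
        ∑' a : Xb b, ((Ideal.absNorm (a.1 : Ideal (𝓞 K)) : ℕ) : ℂ) ^ (-w)) := by
  obtain ⟨h1, h2⟩ := HH_mellin hc b w hw
  have h3 := fbm_change (HH b) (2 / (Module.finrank ℚ K : ℝ) * Real.log (Dv b)) _ h1
  have hfun : (fun t : ℝ => Fb b t - 1) = fun t : ℝ =>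
      ((HH b (Real.log t - 2 / (Module.finrank ℚ K : ℝ) * Real.log (Dv b)) : ℝ) : ℂ) := by
    funext t
    unfold Fb
    push_cast
    ring
  rw [hfun]
  refine ⟨h3.1, ?_⟩
  rw [h3.2, h2, tsum_mu hc b w hw]
  have hn : (Module.finrank ℚ K : ℂ) ≠ 0 := by
    exact_mod_cast (Module.finrank_pos (R := ℚ) (M := K)).ne'
  have hD : 0 < Dv b := Dv_pos b
  have e1 : Complex.exp ((Module.finrank ℚ K : ℂ) * w / 2 *
      ((2 / (Module.finrank ℚ K : ℝ) * Real.log (Dv b) : ℝ) : ℂ)) = ((Dv b : ℝ) : ℂ) ^ w := by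
    rw [Complex.cpow_def_of_ne_zero (by exact_mod_cast hD.ne'), ← Complex.ofReal_log hD.le]
    congr 1
    push_cast
    field_simp
  rw [e1]
  -- the norm and the discriminant
  have hd : 0 < |(NumberField.discr K : ℝ)| := by
    rw [abs_pos]
    exact_mod_cast NumberField.discr_ne_zero K
  have hN : 0 < ((FractionalIdeal.absNorm (b : FractionalIdeal (𝓞 K)⁰ K) : ℚ) : ℝ) := by
    have h := hD
    unfold Dv at h
    exact (pos_iff_pos_of_mul_pos h).1 (Real.sqrt_pos.2 hd)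
  have e2 : ((Dv b : ℝ) : ℂ) ^ w *
      (((FractionalIdeal.absNorm (b : FractionalIdeal (𝓞 K)⁰ K) : ℚ) : ℝ) : ℂ) ^ (-w) =
      (((|NumberField.discr K| : ℤ) : ℝ) : ℂ) ^ (w / 2) := by
    unfold Dv
    rw [Complex.ofReal_mul, Complex.mul_cpow_ofReal_nonneg (Real.sqrt_nonneg _) hN.le, mul_assoc,
      ← Complex.cpow_add _ _ (by exact_mod_cast hN.ne'), add_neg_cancel, Complex.cpow_zero, mul_one]
    have hs : 0 < Real.sqrt |(NumberField.discr K : ℝ)| := Real.sqrt_pos.2 hd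
    have hcast : (((|NumberField.discr K| : ℤ) : ℝ) : ℂ) = ((|(NumberField.discr K : ℝ)| : ℝ) : ℂ) := by
      push_cast
      rfl
    rw [hcast, Complex.cpow_def_of_ne_zero (by exact_mod_cast hs.ne'),
      Complex.cpow_def_of_ne_zero (by exact_mod_cast hd.ne'), ← Complex.ofReal_log hs.le,
      ← Complex.ofReal_log hd.le, Real.log_sqrt hd.le]
    congr 1
    push_cast
    ring
  rw [← e2]
  ring

end Pool.Agent.QD.Z
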