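import Pool.Agent.QD.Z.Full
import Pool.Agent.QD.Z.FbA
import Pool.Agent.QD.Z.FbM

/-!
# QDZ-Completed: the completed zeta function from a `WeakFEPair`
-/

namespace Pool.Agent.QD.Z

open NumberField NumberField.InfinitePlace IsDedekindDomain MeasureTheory Pool.Agent.HWR Filter
  Asymptotics

open scoped nonZeroDivisors

variable {K : Type} [Field K] [NumberField K]

/-- sum of the functions `Fb` over a family of fractional ideals -/
noncomputable def SF (R : ClassGroup (𝓞 K) → (FractionalIdeal (𝓞 K)⁰ K)ˣ) (t : ℝ) : ℂ :=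
  ∑ C, Fb (R C) t

theorem SF_mellin {c : ℝ} (hc : IsConst K c) (R : ClassGroup (𝓞 K) → (FractionalIdeal (𝓞 K)⁰ K)ˣ)
    (hR : Function.Bijective fun C => ClassGroup.mk K (R C)) (w : ℂ) (hw : 1 < w.re) :
    HasMellin (fun t : ℝ => SF R t - (Fintype.card (ClassGroup (𝓞 K)) : ℂ))
      ((Module.finrank ℚ K : ℂ) * w / 2)
      ((Units.torsionOrder K : ℂ) * (c : ℂ) *
        (((|NumberField.discr K| : ℤ) : ℝ) : ℂ) ^ (w / 2) * gamK K w * ZP K w) := by
  have h : ∀ C, HasMellin (fun t : ℝ => Fb (R C) t - 1) ((Module.finrank ℚ K : ℂ) * w / 2)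
      ((Units.torsionOrder K : ℂ) * (c : ℂ) *
        (((|NumberField.discr K| : ℤ) : ℝ) : ℂ) ^ (w / 2) * gamK K w *
        ∑' a : Xb (R C), ((Ideal.absNorm (a.1 : Ideal (𝓞 K)) : ℕ) : ℂ) ^ (-w)) :=
    fun C => Fb_mellin hc (R C) w hw
  have hsum : HasMellin (fun t : ℝ => ∑ C, (Fb (R C) t - 1)) ((Module.finrank ℚ K : ℂ) * w / 2)
      (∑ C, ((Units.torsionOrder K : ℂ) * (c : ℂ) *
        (((|NumberField.discr K| : ℤ) : ℝ) : ℂ) ^ (w / 2) * gamK K w *
        ∑' a : Xb (R C), ((Ideal.absNorm (a.1 : Ideal (𝓞 K)) : ℕ) : ℂ) ^ (-w))) := by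
    constructor
    · unfold MellinConvergent
      simp only [Finset.smul_sum]
      exact integrable_finsetSum _ fun C _ => (h C).1
    · unfold mellin
      simp only [Finset.smul_sum]
      rw [integral_finsetSum _ fun C _ => (h C).1]
      exact Finset.sum_congr rfl fun C _ => (h C).2
  have e1 : (fun t : ℝ => ∑ C, (Fb (R C) t - 1)) =
      fun t : ℝ => SF R t - (Fintype.card (ClassGroup (𝓞 K)) : ℂ) := by
    funext t
    unfold SF
    rw [Finset.sum_sub_distrib]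
    simp
  have e2 : ∑ C, ((Units.torsionOrder K : ℂ) * (c : ℂ) *
        (((|NumberField.discr K| : ℤ) : ℝ) : ℂ) ^ (w / 2) * gamK K w *
        ∑' a : Xb (R C), ((Ideal.absNorm (a.1 : Ideal (𝓞 K)) : ℕ) : ℂ) ^ (-w)) =
      (Units.torsionOrder K : ℂ) * (c : ℂ) *
        (((|NumberField.discr K| : ℤ) : ℝ) : ℂ) ^ (w / 2) * gamK K w * ZP K w := by
    rw [← Finset.mul_sum]
    congr 1
    rw [class_sum R hR (fun a => ((Ideal.absNorm (a : Ideal (𝓞 K)) : ℕ) : ℂ) ^ (-w))
      (summable_ideal K w hw).of_norm, tsum_ideal K w hw]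
  rw [e1, e2] at hsum
  exact hsum

theorem SF_locInt (R : ClassGroup (𝓞 K) → (FractionalIdeal (𝓞 K)⁰ K)ˣ) :
    LocallyIntegrableOn (SF R) (Set.Ioi 0) := by
  have : SF R = ∑ C, Fb (R C) := by
    funext t
    simp [SF]
  rw [this]
  refine Finset.sum_induction _ (fun f : ℝ → ℂ => LocallyIntegrableOn f (Set.Ioi 0) volume)
    (fun f g => ?_) ?_ fun C _ => Fb_locInt (R C)
  · intro hf hg
    exact hf.add hg
  · exact locallyIntegrableOn_zero

theorem SF_top (R : ClassGroup (𝓞 K) → (FractionalIdeal (𝓞 K)⁰ K)ˣ) (r : ℝ) :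
    (fun t : ℝ => SF R t - (Fintype.card (ClassGroup (𝓞 K)) : ℂ)) =O[atTop]
      fun t : ℝ => t ^ r := by
  have e1 : (fun t : ℝ => SF R t - (Fintype.card (ClassGroup (𝓞 K)) : ℂ)) =
      fun t : ℝ => ∑ C, (Fb (R C) t - 1) := by
    funext t
    unfold SF
    rw [Finset.sum_sub_distrib]
    simp
  rw [e1]
  have := IsBigO.sum (s := Finset.univ) fun C (_ : C ∈ Finset.univ) => Fb_top (R C) r
  refine this.congr_left fun t => ?_
  simp

variable (K)

theorem exists_completed : ∃ (c : ℝ) (P : WeakFEPair ℂ) (h : ℝ), 0 < c ∧ 0 < h ∧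
    P.k = (Module.finrank ℚ K : ℝ) / 2 ∧ P.ε = 1 ∧ P.f₀ = (h : ℂ) ∧ P.g₀ = (h : ℂ) ∧
    (∀ w : ℂ, 1 < w.re → P.Λ ((Module.finrank ℚ K : ℂ) * w / 2) =
      (c : ℂ) * (((|NumberField.discr K| : ℤ) : ℝ) : ℂ) ^ (w / 2) * gamK K w * ZP K w) ∧
    ∀ w : ℂ, 1 < w.re → P.symm.Λ ((Module.finrank ℚ K : ℂ) * w / 2) =
      (c : ℂ) * (((|NumberField.discr K| : ℤ) : ℝ) : ℂ) ^ (w / 2) * gamK K w * ZP K w := by
  obtain ⟨c, hc⟩ := exists_const K
  obtain ⟨R, hR, hR'⟩ := exists_rep (K := K)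
  have hn : 0 < (Module.finrank ℚ K : ℝ) := by
    exact_mod_cast Module.finrank_pos
  have hre : ∀ w : ℂ, ((Module.finrank ℚ K : ℂ) * w / 2).re = (Module.finrank ℚ K : ℝ) * w.re / 2 := by
    intro w
    rw [show (Module.finrank ℚ K : ℂ) * w / 2 = (((Module.finrank ℚ K : ℝ) / 2 : ℝ) : ℂ) * w by
      push_cast; ring]
    rw [Complex.re_ofReal_mul]
    ring
  let P : WeakFEPair ℂ :=
    { f := SF R
      g := SF (fun C => dl (R C))
      k := (Module.finrank ℚ K : ℝ) / 2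
      ε := 1
      f₀ := (Fintype.card (ClassGroup (𝓞 K)) : ℂ)
      g₀ := (Fintype.card (ClassGroup (𝓞 K)) : ℂ)
      hf_int := SF_locInt R
      hg_int := SF_locInt _
      hk := by positivity
      hε := one_ne_zero
      h_feq := by
        intro x hx
        unfold SF
        rw [smul_eq_mul, Finset.mul_sum]
        refine Finset.sum_congr rfl fun C _ => ?_
        rw [Fb_feq (R C) x hx, one_mul]
      hf_top := SF_top R
      hg_top := SF_top _ }
  refine ⟨(Units.torsionOrder K : ℝ) * c, P, (Fintype.card (ClassGroup (𝓞 K)) : ℝ), ?_, ?_, rfl,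
    rfl, ?_, ?_, ?_, ?_⟩
  · have : 0 < (Units.torsionOrder K : ℝ) := by
      exact_mod_cast Units.torsionOrder_pos K
    exact mul_pos this hc.1
  · exact_mod_cast Fintype.card_pos
  · change (Fintype.card (ClassGroup (𝓞 K)) : ℂ) = _
    push_cast
    rfl
  · change (Fintype.card (ClassGroup (𝓞 K)) : ℂ) = _
    push_cast
    rfl
  · intro w hw
    have h1 : P.k < ((Module.finrank ℚ K : ℂ) * w / 2).re := by
      rw [hre]
      change (Module.finrank ℚ K : ℝ) / 2 < _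
      nlinarith
    have h2 := (P.hasMellin h1).2
    have h3 := (SF_mellin hc R hR w hw).2
    rw [← h2]
    change mellin (fun t : ℝ => SF R t - (Fintype.card (ClassGroup (𝓞 K)) : ℂ)) _ = _
    rw [h3]
    push_cast
    ring
  · intro w hw
    have h1 : P.symm.k < ((Module.finrank ℚ K : ℂ) * w / 2).re := by
      rw [hre]
      change (Module.finrank ℚ K : ℝ) / 2 < _
      nlinarith
    have h2 := (P.symm.hasMellin h1).2
    have h3 := (SF_mellin hc (fun C => dl (R C)) hR' w hw).2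
    rw [← h2]
    change mellin (fun t : ℝ => SF (fun C => dl (R C)) t -
      (Fintype.card (ClassGroup (𝓞 K)) : ℂ)) _ = _
    rw [h3]
    push_cast
    ring

end Pool.Agent.QD.Z
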