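import Pool.Agent.QD.ZDefs

/-!
# QD-N1, definitions

Functional equation of the Dedekind zeta function of a number field (Hecke's proof with theta
functions, averaged over the torus of units).
-/

namespace Pool.Agent.QD.Z

open NumberField NumberField.InfinitePlace IsDedekindDomain MeasureTheory Pool.Agent.HWR

open scoped nonZeroDivisors

/-! ### Gaussians -/

/-- the Gaussian `exp (-π ∑ z_j x_j ^ 2)` -/
noncomputable def gau {ι : Type} [Fintype ι] (z : ι → ℂ) (x : ι → ℝ) : ℂ :=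
  Complex.exp (-(Real.pi : ℂ) * ∑ j, z j * (x j : ℂ) ^ 2)

/-- `exp (2 π i t)` -/
noncomputable def ee (t : ℝ) : ℂ := Complex.exp (2 * (Real.pi : ℂ) * Complex.I * (t : ℂ))

/-! ### Theta functions -/

section NF

variable {K : Type} [Field K] [NumberField K]

/-- the quadratic form `∑ d_v g_v |x|_v ^ 2` -/
noncomputable def qf (g : InfinitePlace K → ℝ) (x : K) : ℝ :=
  ∑ v : InfinitePlace K, (v.mult : ℝ) * g v * (v x) ^ 2

/-- theta function of a fractional ideal -/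
noncomputable def Th (b : (FractionalIdeal (𝓞 K)⁰ K)ˣ) (g : InfinitePlace K → ℝ) : ℝ :=
  ∑' x : {x : K // x ∈ (b : FractionalIdeal (𝓞 K)⁰ K)}, Real.exp (-Real.pi * qf g x.1)

/-- covolume of a fractional ideal (with the measure of the discriminant) -/
noncomputable def Dv (b : (FractionalIdeal (𝓞 K)⁰ K)ˣ) : ℝ :=
  Real.sqrt |(NumberField.discr K : ℝ)| *
    (FractionalIdeal.absNorm (b : FractionalIdeal (𝓞 K)⁰ K) : ℝ)

/-- the dual fractional ideal for the trace form -/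
noncomputable def dl (b : (FractionalIdeal (𝓞 K)⁰ K)ˣ) : (FractionalIdeal (𝓞 K)⁰ K)ˣ :=
  Units.mk0 (FractionalIdeal.dual ℤ ℚ (1 : FractionalIdeal (𝓞 K)⁰ K))
    (FractionalIdeal.dual_ne_zero ℤ ℚ one_ne_zero) * b⁻¹

/-! ### Units -/

/-- the coordinates `y_v = ρ + ∑ a_j 2 log |ε_j|_v` -/
noncomputable def yy (p : (Fin (Units.rank K) → ℝ) × ℝ) (v : InfinitePlace K) : ℝ :=
  p.2 + ∑ j, p.1 j * (2 * Real.log (v ((Units.fundSystem K j : 𝓞 K) : K)))

/-- `exp y_v` -/
noncomputable def gg (p : (Fin (Units.rank K) → ℝ) × ℝ) (v : InfinitePlace K) : ℝ :=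
  Real.exp (yy p v)

/-- the Gaussian at `x` as a function of the parameters -/
noncomputable def GG (x : K) (p : (Fin (Units.rank K) → ℝ) × ℝ) : ℝ :=
  Real.exp (-Real.pi * qf (gg p) x)

/-- unit box -/
def box (r : ℕ) : Set (Fin r → ℝ) := Set.pi Set.univ fun _ => Set.Ico (0 : ℝ) 1

/-- the part of the parameter space over the unit box -/
def boxR (r : ℕ) : Set ((Fin r → ℝ) × ℝ) := box r ×ˢ Set.univ

/-- products of fundamental units -/
noncomputable def um (m : Fin (Units.rank K) → ℤ) : (𝓞 K)ˣ := ∏ i, Units.fundSystem K i ^ m i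

/-- shift by an integral vector -/
def shf {r : ℕ} (m : Fin r → ℤ) (p : (Fin r → ℝ) × ℝ) : (Fin r → ℝ) × ℝ :=
  (fun i => p.1 i + (m i : ℝ), p.2)

/-- the Gamma factor -/
noncomputable def gamK (K : Type) [Field K] [NumberField K] (w : ℂ) : ℂ :=
  Complex.Gammaℝ w ^ nrRealPlaces K * Complex.Gammaℂ w ^ nrComplexPlaces K

/-- the constant in the unfolded integral -/
def IsConst (K : Type) [Field K] [NumberField K] (c : ℝ) : Prop :=
  0 < c ∧ ∀ x : K, x ≠ 0 → ∀ w : ℂ, 0 < w.re →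
    Integrable (fun p : (Fin (Units.rank K) → ℝ) × ℝ =>
      (GG x p : ℂ) * Complex.exp ((Module.finrank ℚ K : ℂ) * w / 2 * (p.2 : ℂ))) ∧
    ∫ p : (Fin (Units.rank K) → ℝ) × ℝ,
      (GG x p : ℂ) * Complex.exp ((Module.finrank ℚ K : ℂ) * w / 2 * (p.2 : ℂ)) =
      (c : ℂ) * (((|Algebra.norm ℚ x| : ℚ) : ℝ) : ℂ) ^ (-w) * gamK K w

/-- integral over the unit box -/
noncomputable def mu (s : ℂ) (x : K) : ℂ :=
  ∫ p in boxR (Units.rank K), (GG x p : ℂ) * Complex.exp (s * (p.2 : ℂ))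

/-- the absolute version -/
noncomputable def nu (σ : ℝ) (x : K) : ℝ :=
  ∫ p in boxR (Units.rank K), GG x p * Real.exp (σ * p.2)

/-- nonzero elements of a fractional ideal -/
abbrev Nz (b : (FractionalIdeal (𝓞 K)⁰ K)ˣ) : Type :=
  {x : K // x ∈ (b : FractionalIdeal (𝓞 K)⁰ K) ∧ x ≠ 0}

/-- the nonzero ideals whose class is inverse to the class of `b` -/
abbrev Xb (b : (FractionalIdeal (𝓞 K)⁰ K)ˣ) : Type :=
  {a : (Ideal (𝓞 K))⁰ // ClassGroup.mk0 a * ClassGroup.mk K b = 1}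

/-- averaged theta function without the term `x = 0` -/
noncomputable def HH (b : (FractionalIdeal (𝓞 K)⁰ K)ˣ) (ρ : ℝ) : ℝ :=
  ∑' x : Nz b, ∫ a in box (Units.rank K), GG x.1 (a, ρ)

/-- normalised averaged theta function -/
noncomputable def Fb (b : (FractionalIdeal (𝓞 K)⁰ K)ˣ) (t : ℝ) : ℂ :=
  ((1 + HH b (Real.log t - 2 / (Module.finrank ℚ K : ℝ) * Real.log (Dv b)) : ℝ) : ℂ)

end NF

end Pool.Agent.QD.Z
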