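import Pool.Agent.QD.ZDefs
import Pool.Agent.HWR.SumNrm

/-!
# QDZ-Euler: the Dirichlet series of the Dedekind zeta function is the Euler product
-/

namespace Pool.Agent.QD.Z

open NumberField IsDedekindDomain Filter Topology Pool.Agent.HWR

open scoped nonZeroDivisors

/-! ### Euler products over free commutative monoids -/

section Abstract

variable {ι : Type*}

/-- the completely multiplicative function with values `f i` on the generators -/
noncomputable def gm (f : ι → ℂ) (m : ι →₀ ℕ) : ℂ := m.prod fun i k => f i ^ k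

theorem gm_zero (f : ι → ℂ) : gm f 0 = 1 := by simp [gm]

theorem gm_add (f : ι → ℂ) (m m' : ι →₀ ℕ) : gm f (m + m') = gm f m * gm f m' := by
  classical
  unfold gm
  exact Finsupp.prod_add_index' (fun _ => pow_zero _) (fun _ _ _ => pow_add _ _ _)

theorem gm_single (f : ι → ℂ) (i : ι) (k : ℕ) : gm f (Finsupp.single i k) = f i ^ k := by
  unfold gm
  exact Finsupp.prod_single_index (pow_zero _)

theorem norm_gm (f : ι → ℂ) (m : ι →₀ ℕ) : ‖gm f m‖ = m.prod fun i k => ‖f i‖ ^ k := by
  unfold gm Finsupp.prod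
  rw [norm_prod]
  simp [norm_pow]

/-- the finitely supported functions with support in `s` -/
abbrev Sp (s : Finset ι) : Type _ := {m : ι →₀ ℕ // m.support ⊆ s}

open Classical in
/-- the splitting of one prime -/
noncomputable def spEquiv (s : Finset ι) (a : ι) (ha : a ∉ s) : Sp s × ℕ ≃ Sp (insert a s) where
  toFun x := ⟨x.1.1 + Finsupp.single a x.2, by
    refine Finsupp.support_add.trans ?_
    refine Finset.union_subset (x.1.2.trans (Finset.subset_insert _ _)) ?_
    refine Finsupp.support_single_subset.trans ?_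
    simp⟩
  invFun m := (⟨m.1.erase a, by
    rw [Finsupp.support_erase]
    intro i hi
    rw [Finset.mem_erase] at hi
    exact (Finset.mem_insert.1 (m.2 hi.2)).resolve_left hi.1⟩, m.1 a)
  left_inv x := by
    obtain ⟨⟨m, hm⟩, k⟩ := x
    have h0 : m a = 0 := by
      by_contra h
      exact ha (hm (Finsupp.mem_support_iff.2 h))
    simp only [Prod.mk.injEq, Subtype.mk.injEq]
    constructor
    · ext i
      by_cases hi : i = a
      · subst hi
        simp [h0]
      · simp [Finsupp.erase_ne hi]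
    · simp [h0]
  right_inv m := by
    apply Subtype.ext
    exact Finsupp.erase_add_single _ _

theorem hasSum_Sp {f : ι → ℂ} (hf : ∀ i, ‖f i‖ < 1) (s : Finset ι) :
    (Summable fun m : Sp s => ‖gm f m.1‖) ∧
      HasSum (fun m : Sp s => gm f m.1) (∏ i ∈ s, (1 - f i)⁻¹) := by
  classical
  induction s using Finset.induction_on with
  | empty =>
    have hu : ∀ m : Sp (∅ : Finset ι), m = ⟨0, by simp⟩ := by
      rintro ⟨m, hm⟩
      apply Subtype.ext
      simpa using hm
    let _ : Unique (Sp (∅ : Finset ι)) := ⟨⟨⟨0, by simp⟩⟩, hu⟩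
    constructor
    · exact Summable.of_finite
    · have h := hasSum_unique (fun m : Sp (∅ : Finset ι) => gm f m.1)
      have h2 : (default : Sp (∅ : Finset ι)).1 = 0 := by rw [hu default]
      rw [h2, gm_zero] at h
      simpa using h
  | insert a s ha ih =>
    obtain ⟨h1, h2⟩ := ih
    have g1 : Summable fun k : ℕ => ‖f a ^ k‖ := by
      simp only [norm_pow]
      exact summable_geometric_of_lt_one (norm_nonneg _) (hf a)
    have g2 : HasSum (fun k : ℕ => f a ^ k) (1 - f a)⁻¹ := hasSum_geometric_of_norm_lt_one (hf a)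
    have e : ∀ x : Sp s × ℕ, gm f (spEquiv s a ha x).1 = gm f x.1.1 * f a ^ x.2 := by
      intro x
      show gm f (x.1.1 + Finsupp.single a x.2) = _
      rw [gm_add, gm_single]
    have k1 : Summable fun x : Sp s × ℕ => ‖gm f x.1.1 * f a ^ x.2‖ := by
      have := Summable.mul_norm (f := fun m : Sp s => gm f m.1) (g := fun k : ℕ => f a ^ k) h1 g1
      exact this
    constructor
    · rw [← (spEquiv s a ha).summable_iff]
      refine k1.congr fun x => ?_
      simp only [Function.comp]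
      rw [e]
    · rw [← (spEquiv s a ha).hasSum_iff, Finset.prod_insert ha, mul_comm]
      have := h2.mul g2 k1.of_norm
      refine this.congr_fun ?_
      intro x
      simp only [Function.comp]
      rw [e]

theorem summable_gm {f : ι → ℂ} (hf : ∀ i, ‖f i‖ < 1) (hs : Summable fun i => ‖f i‖) :
    Summable fun m : ι →₀ ℕ => ‖gm f m‖ := by
  classical
  -- uniform bound for the finite products
  have hy : Summable fun i => ‖f i‖ / (1 - ‖f i‖) := by
    have h1 : ∀ᶠ i in cofinite, ‖f i‖ < 1 / 2 := by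
      have := hs.tendsto_cofinite_zero
      exact this.eventually_lt_const (by norm_num)
    refine Summable.of_norm_bounded_eventually (g := fun i => 2 * ‖f i‖) (hs.mul_left 2) ?_
    filter_upwards [h1] with i hi
    have h0 := norm_nonneg (f i)
    rw [Real.norm_of_nonneg (div_nonneg h0 (by linarith)), div_le_iff₀ (by linarith)]
    nlinarith
  have hy0 : ∀ i, 0 ≤ ‖f i‖ / (1 - ‖f i‖) := fun i =>
    div_nonneg (norm_nonneg _) (by linarith [hf i])
  set B := Real.exp (∑' i, ‖f i‖ / (1 - ‖f i‖)) with hB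
  have hprod : ∀ s : Finset ι, ∏ i ∈ s, (1 - ‖f i‖)⁻¹ ≤ B := by
    intro s
    calc ∏ i ∈ s, (1 - ‖f i‖)⁻¹ ≤ ∏ i ∈ s, Real.exp (‖f i‖ / (1 - ‖f i‖)) := by
          refine Finset.prod_le_prod (fun i _ => inv_nonneg.2 (by linarith [hf i])) fun i _ => ?_
          have h1 : 0 < 1 - ‖f i‖ := by linarith [hf i]
          have h2 := Real.add_one_le_exp (‖f i‖ / (1 - ‖f i‖))
          refine le_trans (le_of_eq ?_) h2
          field_simp
          ring
      _ = Real.exp (∑ i ∈ s, ‖f i‖ / (1 - ‖f i‖)) := by rw [Real.exp_sum]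
      _ ≤ B := Real.exp_le_exp.2 (hy.sum_le_tsum s fun i _ => hy0 i)
  refine summable_of_sum_le (c := B) (fun m => norm_nonneg _) fun t => ?_
  -- a finite set of monomials
  set s : Finset ι := t.biUnion Finsupp.support with hsdef
  have hts : ∀ m ∈ t, m.support ⊆ s := fun m hm => Finset.subset_biUnion_of_mem _ hm
  set f' : ι → ℂ := fun i => ((‖f i‖ : ℝ) : ℂ) with hf'
  have hf'1 : ∀ i, ‖f' i‖ < 1 := by
    intro i
    rw [hf', Complex.norm_real, norm_norm]
    exact hf i
  obtain ⟨k1, k2⟩ := hasSum_Sp hf'1 s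
  have hgm : ∀ m : ι →₀ ℕ, gm f' m = ((‖gm f m‖ : ℝ) : ℂ) := by
    intro m
    rw [norm_gm]
    unfold gm Finsupp.prod
    push_cast
    rfl
  have k3 : HasSum (fun m : Sp s => ‖gm f m.1‖) (∏ i ∈ s, (1 - ‖f i‖)⁻¹) := by
    have : HasSum (fun m : Sp s => ((‖gm f m.1‖ : ℝ) : ℂ)) ((∏ i ∈ s, (1 - ‖f i‖)⁻¹ : ℝ) : ℂ) := by
      have e : ((∏ i ∈ s, (1 - ‖f i‖)⁻¹ : ℝ) : ℂ) = ∏ i ∈ s, (1 - f' i)⁻¹ := by
        push_cast
        rfl
      rw [e]
      exact k2.congr_fun fun m => (hgm m.1).symm
    exact_mod_cast this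
  calc ∑ m ∈ t, ‖gm f m‖ = ∑ m ∈ t.attach, ‖gm f m.1‖ := (Finset.sum_attach t _).symm
    _ = ∑ m ∈ t.attach.map ⟨fun m => (⟨m.1, hts m.1 m.2⟩ : Sp s), fun a b h => by
          apply Subtype.ext
          have h' : (⟨a.1, hts a.1 a.2⟩ : Sp s) = ⟨b.1, hts b.1 b.2⟩ := h
          exact congrArg (fun x : Sp s => x.1) h'⟩, ‖gm f m.1‖ := by
          rw [Finset.sum_map]
          rfl
    _ ≤ ∏ i ∈ s, (1 - ‖f i‖)⁻¹ := sum_le_hasSum _ (fun _ _ => norm_nonneg _) k3
    _ ≤ B := hprod s

theorem hasProd_gm {f : ι → ℂ} (hf : ∀ i, ‖f i‖ < 1) (hs : Summable fun i => ‖f i‖) :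
    HasProd (fun i => (1 - f i)⁻¹) (∑' m : ι →₀ ℕ, gm f m) := by
  classical
  have hsum := summable_gm hf hs
  have e : ∀ s : Finset ι, ∏ i ∈ s, (1 - f i)⁻¹ =
      ∑' m : ι →₀ ℕ, Set.indicator {m : ι →₀ ℕ | m.support ⊆ s} (gm f) m := by
    intro s
    rw [← (hasSum_Sp hf s).2.tsum_eq]
    exact tsum_subtype {m : ι →₀ ℕ | m.support ⊆ s} (gm f)
  have key : Tendsto (fun s : Finset ι =>
      ∑' m : ι →₀ ℕ, Set.indicator {m : ι →₀ ℕ | m.support ⊆ s} (gm f) m) atTop
      (𝓝 (∑' m : ι →₀ ℕ, gm f m)) := by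
    refine tendsto_tsum_of_dominated_convergence hsum (fun m => ?_) (Eventually.of_forall fun s m => ?_)
    · refine tendsto_const_nhds.congr' ?_
      filter_upwards [eventually_ge_atTop m.support] with s hs
      rw [Set.indicator_of_mem]
      exact hs
    · exact norm_indicator_le_norm_self _ _
  unfold HasProd
  simp only [SummationFilter.unconditional_filter]
  exact key.congr fun s => (e s).symm

end Abstract

/-! ### Ideals -/

section Ideals

variable {R : Type*} [CommRing R] [IsDedekindDomain R]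

/-- the ideal with given exponents -/
noncomputable def idl (m : HeightOneSpectrum R →₀ ℕ) : Ideal R := m.prod fun v k => v.asIdeal ^ k

theorem idl_ne_bot (m : HeightOneSpectrum R →₀ ℕ) : idl m ≠ ⊥ := by
  unfold idl Finsupp.prod
  rw [← Ideal.zero_eq_bot, Finset.prod_ne_zero_iff]
  intro v _
  exact pow_ne_zero _ v.ne_bot

omit [IsDedekindDomain R] in
theorem idl_add (m m' : HeightOneSpectrum R →₀ ℕ) : idl (m + m') = idl m * idl m' := by
  classical
  unfold idl
  exact Finsupp.prod_add_index' (fun _ => pow_zero _) (fun _ _ _ => pow_add _ _ _)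

theorem multiplicity_idl (m : HeightOneSpectrum R →₀ ℕ) (v : HeightOneSpectrum R) :
    multiplicity v.asIdeal (idl m) = m v := by
  classical
  induction m using Finsupp.induction_linear with
  | zero =>
    have : idl (0 : HeightOneSpectrum R →₀ ℕ) = 1 := by simp [idl]
    rw [this, multiplicity_of_one_right v.prime.not_isUnit]
    rfl
  | add m m' h h' =>
    have hfin : FiniteMultiplicity v.asIdeal (idl m * idl m') := by
      rw [← idl_add]
      exact FiniteMultiplicity.of_prime_left v.prime (idl_ne_bot _)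
    rw [idl_add, multiplicity_mul v.prime hfin, h, h', Finsupp.add_apply]
  | single v' k =>
    have : idl (Finsupp.single v' k) = v'.asIdeal ^ k := by
      unfold idl
      exact Finsupp.prod_single_index (pow_zero _)
    rw [this]
    by_cases hv : v' = v
    · subst hv
      rw [multiplicity_pow_self_of_prime v'.prime, Finsupp.single_eq_same]
    · rw [Finsupp.single_eq_of_ne (Ne.symm hv), multiplicity_eq_zero]
      intro hdvd
      have h1 := v.prime.dvd_of_dvd_pow hdvd
      rw [Ideal.dvd_iff_le] at h1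
      apply hv
      apply HeightOneSpectrum.ext
      exact v'.isMaximal.eq_of_le v.isPrime.ne_top h1

theorem idl_bij : Function.Bijective
    (fun m : HeightOneSpectrum R →₀ ℕ => (⟨idl m, mem_nonZeroDivisors_of_ne_zero (idl_ne_bot m)⟩ :
      (Ideal R)⁰)) := by
  classical
  constructor
  · intro m m' h
    have h' : idl m = idl m' := congrArg Subtype.val h
    ext v
    rw [← multiplicity_idl m v, ← multiplicity_idl m' v, h']
  · rintro ⟨I, hI⟩
    have hI0 : I ≠ ⊥ := nonZeroDivisors.ne_zero hI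
    have hfin : (Function.support fun v : HeightOneSpectrum R => multiplicity v.asIdeal I).Finite := by
      refine (Ideal.finite_factors hI0).subset ?_
      intro v hv
      have hv' : multiplicity v.asIdeal I ≠ 0 := hv
      have hm : FiniteMultiplicity v.asIdeal I := FiniteMultiplicity.of_prime_left v.prime hI0
      have h1 := pow_dvd_of_le_multiplicity (Nat.one_le_iff_ne_zero.2 hv')
      rwa [pow_one] at h1
    refine ⟨Finsupp.ofSupportFinite _ hfin, ?_⟩
    apply Subtype.ext
    show idl _ = I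
    unfold idl
    rw [Finsupp.prod]
    conv_rhs => rw [← Ideal.finprod_heightOneSpectrum_pow_multiplicity hI0]
    symm
    apply finprod_eq_prod_of_mulSupport_subset
    intro v hv
    rw [Finset.mem_coe, Finsupp.mem_support_iff]
    intro h0
    apply hv
    have h0' : multiplicity v.asIdeal I = 0 := h0
    show v.asIdeal ^ multiplicity v.asIdeal I = 1
    rw [h0', pow_zero]

end Ideals

/-! ### The Dedekind zeta function -/

section Zeta

variable (K : Type) [Field K] [NumberField K]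

/-- `n ↦ n ^ (-w)` -/
noncomputable def cp (w : ℂ) : ℕ →* ℂ where
  toFun n := (n : ℂ) ^ (-w)
  map_one' := by simp
  map_mul' m n := by
    push_cast
    exact Complex.natCast_mul_natCast_cpow m n (-w)

theorem cp_idl (w : ℂ) (m : HeightOneSpectrum (𝓞 K) →₀ ℕ) :
    ((Ideal.absNorm (idl m) : ℕ) : ℂ) ^ (-w) = gm (fun v => (nrm v : ℂ) ^ (-w)) m := by
  show cp w (Ideal.absNorm (idl m)) = _
  unfold idl gm
  rw [map_finsuppProd, map_finsuppProd]
  refine Finsupp.prod_congr fun v _ => ?_
  rw [map_pow, map_pow]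
  rfl

theorem norm_nrm_cpow {w : ℂ} (v : HeightOneSpectrum (𝓞 K)) :
    ‖(nrm v : ℂ) ^ (-w)‖ = (nrm v : ℝ) ^ (-w.re) := by
  rw [Complex.norm_natCast_cpow_of_pos (Nat.pos_of_ne_zero (nrm_ne_zero v)), Complex.neg_re]

theorem norm_nrm_cpow_lt {w : ℂ} (hw : 1 < w.re) (v : HeightOneSpectrum (𝓞 K)) :
    ‖(nrm v : ℂ) ^ (-w)‖ < 1 := by
  rw [norm_nrm_cpow]
  refine Real.rpow_lt_one_of_one_lt_of_neg ?_ (by linarith)
  have h0 := nrm_ne_zero v
  have h1 := nrm_ne_one v
  exact_mod_cast (by omega : 1 < nrm v)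

theorem summable_norm_nrm_cpow {w : ℂ} (hw : 1 < w.re) :
    Summable fun v : HeightOneSpectrum (𝓞 K) => ‖(nrm v : ℂ) ^ (-w)‖ :=
  (summable_nrm K hw).congr fun v => (norm_nrm_cpow K v).symm

/-- the bijection between exponents and nonzero ideals -/
noncomputable def idEquiv : (HeightOneSpectrum (𝓞 K) →₀ ℕ) ≃ (Ideal (𝓞 K))⁰ :=
  Equiv.ofBijective _ idl_bij

theorem summable_ideals {w : ℂ} (hw : 1 < w.re) :
    Summable fun a : (Ideal (𝓞 K))⁰ => ‖((Ideal.absNorm (a : Ideal (𝓞 K)) : ℕ) : ℂ) ^ (-w)‖ := by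
  rw [← (idEquiv K).summable_iff]
  refine (summable_gm (norm_nrm_cpow_lt K hw) (summable_norm_nrm_cpow K hw)).congr fun m => ?_
  rw [← cp_idl]
  rfl

theorem tsum_ideals {w : ℂ} (hw : 1 < w.re) :
    ∑' a : (Ideal (𝓞 K))⁰, ((Ideal.absNorm (a : Ideal (𝓞 K)) : ℕ) : ℂ) ^ (-w) = ZP K w := by
  rw [← (idEquiv K).tsum_eq]
  unfold ZP
  rw [(hasProd_gm (norm_nrm_cpow_lt K hw) (summable_norm_nrm_cpow K hw)).tprod_eq]
  refine tsum_congr fun m => ?_
  rw [← cp_idl]
  rfl

theorem summable_ideal (w : ℂ) (hw : 1 < w.re) :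
    Summable fun a : (Ideal (𝓞 K))⁰ => ‖((Ideal.absNorm (a : Ideal (𝓞 K)) : ℕ) : ℂ) ^ (-w)‖ :=
  summable_ideals K hw

theorem tsum_ideal (w : ℂ) (hw : 1 < w.re) :
    ∑' a : (Ideal (𝓞 K))⁰, ((Ideal.absNorm (a : Ideal (𝓞 K)) : ℕ) : ℂ) ^ (-w) = ZP K w :=
  tsum_ideals K hw

end Zeta

end Pool.Agent.QD.Z
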