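import Pool.Agent.QD.Z.Completed
import Pool.Agent.QD.Z.FinOrd

/-!
# QDZ-Final: the functional equation of the Dedekind zeta function from the completed function
-/

namespace Pool.Agent.QD.Z

open NumberField NumberField.InfinitePlace IsDedekindDomain MeasureTheory Pool.Agent.HWR

/-- `(w gamK w)⁻¹`, with `r = r1 + r2 - 1` -/
noncomputable def gi (r r2 : ℕ) (w : ℂ) : ℂ :=
  (2 * Real.pi : ℂ)⁻¹ * (Complex.Gammaℝ (w + 2))⁻¹ * (Complex.Gammaℝ w)⁻¹ ^ r *
    (Complex.Gammaℝ (w + 1))⁻¹ ^ r2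

theorem gi_diff (r r2 : ℕ) : Differentiable ℂ (gi r r2) := by
  have h0 := Complex.differentiable_Gammaℝ_inv
  have h1 : Differentiable ℂ (fun w : ℂ => (Complex.Gammaℝ (w + 1))⁻¹) :=
    h0.comp (differentiable_id.add_const 1)
  have h2 : Differentiable ℂ (fun w : ℂ => (Complex.Gammaℝ (w + 2))⁻¹) :=
    h0.comp (differentiable_id.add_const 2)
  exact (((differentiable_const _).mul h2).mul (h0.pow r)).mul (h1.pow r2)

theorem gi_finOrd (r r2 : ℕ) : FinOrd (gi r r2) := by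
  have h0 := finOrd_GammaR_inv
  have h1 : FinOrd (fun w : ℂ => (Complex.Gammaℝ (w + 1))⁻¹) :=
    finOrd_congr (finOrd_comp_affine h0 1 1) fun w => by simp
  have h2 : FinOrd (fun w : ℂ => (Complex.Gammaℝ (w + 2))⁻¹) :=
    finOrd_congr (finOrd_comp_affine h0 1 2) fun w => by simp
  exact finOrd_mul (finOrd_mul (finOrd_mul (finOrd_const _) h2) (finOrd_pow h0 r)) (finOrd_pow h1 r2)

theorem gi_eq (K : Type) [Field K] [NumberField K] {r : ℕ}
    (hr : nrRealPlaces K + nrComplexPlaces K = r + 1) {w : ℂ} (hw : w ≠ 0) :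
    gi r (nrComplexPlaces K) w = w⁻¹ * (gamK K w)⁻¹ := by
  have hpi : (Real.pi : ℂ) ≠ 0 := by exact_mod_cast Real.pi_ne_zero
  have e : (2 * Real.pi : ℂ)⁻¹ * (Complex.Gammaℝ w * w / 2 / Real.pi)⁻¹ =
      w⁻¹ * (Complex.Gammaℝ w)⁻¹ := by
    rw [div_div, inv_div, ← mul_div_assoc, inv_mul_cancel₀ (mul_ne_zero two_ne_zero hpi), one_div,
      mul_inv, mul_comm]
  have e2 : gamK K w = Complex.Gammaℝ w ^ (r + 1) * Complex.Gammaℝ (w + 1) ^ nrComplexPlaces K := by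
    unfold gamK
    rw [← Complex.Gammaℝ_mul_Gammaℝ_add_one, mul_pow, ← mul_assoc, ← pow_add, hr]
  unfold gi
  rw [Complex.Gammaℝ_add_two hw, e, e2, mul_inv, pow_succ, mul_inv, inv_pow, inv_pow]
  ring

theorem gi_one_ne (r r2 : ℕ) : gi r r2 1 ≠ 0 := by
  have hpi : (Real.pi : ℂ) ≠ 0 := by exact_mod_cast Real.pi_ne_zero
  unfold gi
  refine mul_ne_zero (mul_ne_zero (mul_ne_zero (inv_ne_zero (mul_ne_zero two_ne_zero hpi))
    (inv_ne_zero ?_)) (pow_ne_zero _ (inv_ne_zero ?_))) (pow_ne_zero _ (inv_ne_zero ?_)) <;>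
  · apply Complex.Gammaℝ_ne_zero_of_re_pos
    simp <;> norm_num

theorem gamK_ne_zero (K : Type) [Field K] [NumberField K] {w : ℂ} (hw : 0 < w.re) :
    gamK K w ≠ 0 := by
  unfold gamK
  refine mul_ne_zero (pow_ne_zero _ (Complex.Gammaℝ_ne_zero_of_re_pos hw)) (pow_ne_zero _ ?_)
  rw [← Complex.Gammaℝ_mul_Gammaℝ_add_one]
  refine mul_ne_zero (Complex.Gammaℝ_ne_zero_of_re_pos hw) (Complex.Gammaℝ_ne_zero_of_re_pos ?_)
  simp
  linarith

theorem gam_quot (K : Type) [Field K] [NumberField K] (w : ℂ) :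
    gamK K (1 - w) * (gamK K w)⁻¹ = gR w ^ nrRealPlaces K * gC w ^ nrComplexPlaces K := by
  unfold gamK gR gC
  rw [mul_inv, mul_pow, mul_pow, inv_pow, inv_pow]
  ring

theorem zeta_fe' (K : Type) [Field K] [NumberField K] :
    ∃ Z : ℂ → ℂ, Differentiable ℂ Z ∧ FinOrd Z ∧ Z 1 ≠ 0 ∧
      (∀ w : ℂ, 1 < w.re → Z w = (w - 1) * ZP K w) ∧
      ∀ w : ℂ, w.re < 0 → Z w = (w - 1) * (((|NumberField.discr K| : ℤ) : ℝ) : ℂ) ^ (1 / 2 - w) *
        gR w ^ InfinitePlace.nrRealPlaces K * gC w ^ InfinitePlace.nrComplexPlaces K *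
        ZP K (1 - w) := by
  obtain ⟨c, P, h, hc, hh, hk, hε, hf, hg, hL1, hL2⟩ := exists_completed K
  set D : ℝ := ((|NumberField.discr K| : ℤ) : ℝ) with hD
  have hD0 : 0 < D := by
    rw [hD]
    exact_mod_cast abs_pos.2 (NumberField.discr_ne_zero K)
  have hDC : (D : ℂ) ≠ 0 := by exact_mod_cast hD0.ne'
  set n : ℕ := Module.finrank ℚ K with hn
  have hn0 : (n : ℂ) ≠ 0 := by
    have : 0 < n := Module.finrank_pos
    exact_mod_cast this.ne'
  have hcC : (c : ℂ) ≠ 0 := by exact_mod_cast hc.ne'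
  have hhC : (h : ℂ) ≠ 0 := by exact_mod_cast hh.ne'
  obtain ⟨r, hr⟩ : ∃ r, nrRealPlaces K + nrComplexPlaces K = r + 1 := by
    have h1 : 0 < nrRealPlaces K + nrComplexPlaces K := by
      rw [← card_eq_nrRealPlaces_add_nrComplexPlaces]
      exact Fintype.card_pos
    exact ⟨_, (Nat.succ_pred_eq_of_pos h1).symm⟩
  set r2 := nrComplexPlaces K with hr2
  -- the entire function `w (w - 1) Λ`
  set E : ℂ → ℂ := fun w => w * (w - 1) * P.Λ₀ ((n : ℂ) / 2 * w) + 2 * h / n with hE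
  have hEeq : ∀ w : ℂ, w ≠ 0 → w ≠ 1 → E w = w * (w - 1) * P.Λ ((n : ℂ) * w / 2) := by
    intro w h0 h1
    have h1' : w - 1 ≠ 0 := sub_ne_zero.2 h1
    have h1'' : (1 : ℂ) - w ≠ 0 := sub_ne_zero.2 (Ne.symm h1)
    rw [hE]
    simp only
    rw [show (n : ℂ) / 2 * w = (n : ℂ) * w / 2 by ring, P.Λ₀_eq, hf, hg, hε, hk]
    simp only [smul_eq_mul]
    have e1 : (((n : ℝ) / 2 : ℝ) : ℂ) - (n : ℂ) * w / 2 = (n : ℂ) * (1 - w) / 2 := by
      push_cast
      ring
    rw [e1]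
    field_simp
    ring
  refine ⟨fun w => E w * (c : ℂ)⁻¹ * (D : ℂ) ^ (((-(1 / 2) : ℝ) : ℂ) * w) * gi r r2 w, ?_, ?_, ?_, ?_, ?_⟩
  · -- entire
    refine Differentiable.mul (Differentiable.mul (Differentiable.mul ?_ (differentiable_const _)) ?_)
      (gi_diff r r2)
    · refine Differentiable.add (Differentiable.mul ?_ ?_) (differentiable_const _)
      · fun_prop
      · exact P.differentiable_Λ₀.comp (by fun_prop)
    · intro w
      refine DifferentiableAt.const_cpow ?_ (Or.inl hDC)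
      fun_prop
  · -- finite order
    refine finOrd_mul (finOrd_mul (finOrd_mul ?_ (finOrd_const _)) (finOrd_cpow hD0 _))
      (gi_finOrd r r2)
    refine finOrd_add (finOrd_mul (finOrd_mul finOrd_id ?_) ?_) (finOrd_const _)
    · exact finOrd_congr (finOrd_add finOrd_id (finOrd_const (-1))) fun w => by ring
    · have h1 : FinOrd P.Λ₀ := finOrd_of_bdd fun a b => Lam0_bdd P a b
      exact finOrd_congr (finOrd_comp_affine h1 ((n : ℝ) / 2) 0) fun w => by push_cast; simp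
  · -- value at `1`
    refine mul_ne_zero (mul_ne_zero (mul_ne_zero ?_ (inv_ne_zero hcC)) ?_) (gi_one_ne r r2)
    · rw [hE]
      simp only [sub_self, mul_zero, zero_mul, zero_add]
      exact div_ne_zero (mul_ne_zero two_ne_zero hhC) hn0
    · rw [Complex.cpow_ne_zero_iff]
      exact Or.inl hDC
  · -- `Re w > 1`
    intro w hw
    have h0 : w ≠ 0 := by rintro rfl; simp at hw; linarith
    have h1 : w ≠ 1 := by rintro rfl; simp at hw
    simp only
    rw [hEeq w h0 h1, hL1 w hw, gi_eq K hr h0]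
    have hG := gamK_ne_zero K (by linarith : 0 < w.re)
    have e2 : (D : ℂ) ^ (((-(1 / 2) : ℝ) : ℂ) * w) = ((D : ℂ) ^ (w / 2))⁻¹ := by
      rw [← Complex.cpow_neg]
      congr 1
      push_cast
      ring
    have h3 : (D : ℂ) ^ (w / 2) ≠ 0 := by
      rw [Complex.cpow_ne_zero_iff]
      exact Or.inl hDC
    rw [e2]
    field_simp
  · -- `Re w < 0`
    intro w hw
    have h0 : w ≠ 0 := by rintro rfl; simp at hw
    have h1 : w ≠ 1 := by rintro rfl; simp at hw; linarith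
    simp only
    have hfe : P.Λ ((n : ℂ) * w / 2) = P.symm.Λ ((n : ℂ) * (1 - w) / 2) := by
      have := P.functional_equation ((n : ℂ) * (1 - w) / 2)
      rw [hk, hε, one_smul] at this
      rw [← this]
      congr 1
      push_cast
      ring
    have hre : 1 < (1 - w).re := by simp; linarith
    rw [hEeq w h0 h1, hfe, hL2 (1 - w) hre, gi_eq K hr h0]
    have e2 : (D : ℂ) ^ ((1 - w) / 2) * (D : ℂ) ^ (((-(1 / 2) : ℝ) : ℂ) * w) = (D : ℂ) ^ (1 / 2 - w) := by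
      rw [← Complex.cpow_add _ _ hDC]
      congr 1
      push_cast
      ring
    have e3 := gam_quot K w
    calc w * (w - 1) * ((c : ℂ) * (D : ℂ) ^ ((1 - w) / 2) * gamK K (1 - w) * ZP K (1 - w)) * (c : ℂ)⁻¹ *
          (D : ℂ) ^ (((-(1 / 2) : ℝ) : ℂ) * w) * (w⁻¹ * (gamK K w)⁻¹)
        = (w * w⁻¹) * ((c : ℂ) * (c : ℂ)⁻¹) * (w - 1) *
          ((D : ℂ) ^ ((1 - w) / 2) * (D : ℂ) ^ (((-(1 / 2) : ℝ) : ℂ) * w)) *
          (gamK K (1 - w) * (gamK K w)⁻¹) * ZP K (1 - w) := by ring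
      _ = _ := by
          rw [mul_inv_cancel₀ h0, mul_inv_cancel₀ hcC, e2, e3]
          ring

end Pool.Agent.QD.Z
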