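import Pool.Agent.QD.Z.Defs

/-!
# QDZ-Forms (0.8 h): real linear forms of a number field

For any `ℚ`-basis `ω` of `K` there are real matrices `A`, `B` (rows = the linear forms `Re σ_v` (`v` real),
`√2 Re σ_v`, `√2 Im σ_v` (`v` complex) in the coordinates of `ω` and of the trace dual basis, up to signs) and the map
`pl` (place of a row).

PROOF.  Use the index set `mixedEmbedding.index K = {v real} ⊕ {v complex} × Fin 2` and an equivalence
`ι ≃ index K` (`Fintype.equivOfCardEq`: `Module.finrank_eq_card_basis`, `indexEquiv K : index K ≃ (K →+* ℂ)`,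
`Embeddings.card`).  Put `lf (inl v) x = (v.embedding x).re`, `lf (inr (v, 0)) x = √2 * (v.embedding x).re`,
`lf (inr (v, 1)) x = √2 * (v.embedding x).im`; `sg = 1` except `sg (inr (v, 1)) = -1`.
(1) `∑_j g (pl j) (lf j x)^2 = qf g x`: `v x = ‖v.embedding x‖` (`InfinitePlace.norm_embedding_eq`), for real `v` the
embedding is real (`InfinitePlace.IsReal`, `embedding_of_isReal_apply`), `mult = 1` or `2`; split the sum over
`InfinitePlace K` into real and complex places (as in `InfinitePlace.prod_eq_prod_mul_prod` or with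
`Fintype.sum_subtype_add_sum_subtype`).  (2) `Tr (x y) = ∑_j sg j * lf j x * lf j y`: `Tr = ∑_σ σ (x y)`
(`trace_eq_sum_embeddings` for `E = ℂ`), reindex by `indexEquiv K` (`indexEquiv_apply_isReal`, ...), pairs of conjugates give
`2 Re (σ x σ y) = 2 (Re Re - Im Im)`.  (3) `A j i = lf j (ω i)`, `B j i = sg j * lf j (ω.traceDual i)`; `Aᵀ B = 1` is (2) with
`Module.Basis.trace_mul_traceDual`/`trace_traceDual_mul`; `(B m)_j = sg j * lf j (∑ m_i ω'_i)` and `sg ^ 2 = 1`.  (4) `Aᵀ E A =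
traceMatrix` (`E = diagonal sg`), so `det A ^ 2 = ± discr ω` (`Algebra.discr_def`), `|det A| = √|discr ω|`
(`Real.sqrt_sq_eq_abs`).  (5) the product formula as in (1).
-/

namespace Pool.Agent.QD.Z

open NumberField NumberField.InfinitePlace

variable {K : Type} [Field K] [NumberField K]

private noncomputable def lf (φ : K →+* ℂ) (x : K) : ℝ := (φ x).re + (φ x).im

omit [NumberField K] in
private theorem lf_cj (φ : K →+* ℂ) (x : K) :
    lf (ComplexEmbedding.conjugate φ) x = (φ x).re - (φ x).im := by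
  unfold lf
  rw [ComplexEmbedding.conjugate_coe_eq, Complex.conj_re, Complex.conj_im, sub_eq_add_neg]

private theorem sum_mk (f : InfinitePlace K → ℝ) :
    ∑ φ : K →+* ℂ, f (InfinitePlace.mk φ) = ∑ v : InfinitePlace K, (v.mult : ℝ) * f v := by
  classical
  rw [← Finset.univ.sum_fiberwise (fun φ => InfinitePlace.mk φ)]
  refine Finset.sum_congr rfl fun v _ => ?_
  rw [← card_filter_mk_eq v, ← nsmul_eq_mul, ← Finset.sum_const]
  refine Finset.sum_congr rfl fun φ hφ => ?_
  rw [(Finset.mem_filter.1 hφ).2]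

private theorem prod_mk (f : InfinitePlace K → ℝ) :
    ∏ φ : K →+* ℂ, f (InfinitePlace.mk φ) = ∏ v : InfinitePlace K, f v ^ v.mult := by
  classical
  rw [← Finset.univ.prod_fiberwise (fun φ => InfinitePlace.mk φ)]
  refine Finset.prod_congr rfl fun v _ => ?_
  rw [← card_filter_mk_eq v, ← Finset.prod_const]
  refine Finset.prod_congr rfl fun φ hφ => ?_
  rw [(Finset.mem_filter.1 hφ).2]

private noncomputable def cj : (K →+* ℂ) ≃ (K →+* ℂ) :=
  (ComplexEmbedding.involutive_conjugate K).toPerm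

private theorem sum_cj (h : (K →+* ℂ) → ℝ) :
    ∑ φ : K →+* ℂ, h (ComplexEmbedding.conjugate φ) = ∑ φ : K →+* ℂ, h φ :=
  Equiv.sum_comp cj h

private theorem sum_sym (h : (K →+* ℂ) → ℝ) :
    ∑ φ : K →+* ℂ, h φ = ∑ φ : K →+* ℂ, (h φ + h (ComplexEmbedding.conjugate φ)) / 2 := by
  rw [← Finset.sum_div, Finset.sum_add_distrib, sum_cj]
  ring

private theorem sum_lf_sq (g : InfinitePlace K → ℝ) (x : K) :
    ∑ φ : K →+* ℂ, g (InfinitePlace.mk φ) * lf φ x ^ 2 = qf g x := by
  rw [sum_sym]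
  have h1 : ∀ φ : K →+* ℂ, (g (InfinitePlace.mk φ) * lf φ x ^ 2 +
      g (InfinitePlace.mk (ComplexEmbedding.conjugate φ)) *
        lf (ComplexEmbedding.conjugate φ) x ^ 2) / 2
      = g (InfinitePlace.mk φ) * (InfinitePlace.mk φ x) ^ 2 := by
    intro φ
    rw [mk_conjugate_eq, lf_cj, InfinitePlace.apply, Complex.sq_norm, Complex.normSq_apply]
    unfold lf
    ring
  simp_rw [h1]
  rw [sum_mk (fun v => g v * (v x) ^ 2)]
  unfold qf
  refine Finset.sum_congr rfl fun v _ => ?_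
  ring

private theorem sum_lf_lf (x y : K) :
    ∑ φ : K →+* ℂ, lf φ x * lf (ComplexEmbedding.conjugate φ) y
      = ((Algebra.trace ℚ K (x * y) : ℚ) : ℝ) := by
  rw [sum_sym]
  have h1 : ∀ φ : K →+* ℂ, (lf φ x * lf (ComplexEmbedding.conjugate φ) y +
      lf (ComplexEmbedding.conjugate φ) x *
        lf (ComplexEmbedding.conjugate (ComplexEmbedding.conjugate φ)) y) / 2
      = (φ (x * y)).re := by
    intro φ
    rw [lf_cj, lf_cj, lf_cj, ComplexEmbedding.conjugate_coe_eq, Complex.conj_re, Complex.conj_im,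
      map_mul, Complex.mul_re]
    unfold lf
    ring
  simp_rw [h1]
  have h2 := trace_eq_sum_embeddings (K := ℚ) (L := K) ℂ (x := x * y)
  have h3 : ∑ σ : K →ₐ[ℚ] ℂ, σ (x * y) = ∑ φ : K →+* ℂ, φ (x * y) := by
    rw [← Equiv.sum_comp (RingHom.equivRatAlgHom K ℂ)]
    rfl
  rw [h3] at h2
  rw [← Complex.re_sum, ← h2]
  simp

private theorem lf_sum {ι : Type} [Fintype ι] (φ : K →+* ℂ) (w : ι → K) (m : ι → ℤ) :
    ∑ i, lf φ (w i) * (m i : ℝ) = lf φ (∑ i, (m i : ℚ) • w i) := by
  unfold lf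
  rw [map_sum, Complex.re_sum, Complex.im_sum, ← Finset.sum_add_distrib]
  refine Finset.sum_congr rfl fun i _ => ?_
  have h1 : φ ((m i : ℚ) • w i) = ((m i : ℝ) : ℂ) * φ (w i) := by
    rw [Algebra.smul_def, map_mul]
    simp
  rw [h1, Complex.re_ofReal_mul, Complex.im_ofReal_mul]
  ring

theorem exists_forms {ι : Type} [Fintype ι] [DecidableEq ι] (ω : Module.Basis ι ℚ K) :
    ∃ (A B : Matrix ι ι ℝ) (pl : ι → InfinitePlace K),
      A.transpose * B = 1 ∧
      |A.det| = Real.sqrt |((Algebra.discr ℚ ω : ℚ) : ℝ)| ∧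
      (∀ (g : InfinitePlace K → ℝ) (m : ι → ℤ),
        ∑ j, g (pl j) * (∑ i, A j i * (m i : ℝ)) ^ 2 = qf g (∑ i, (m i : ℚ) • ω i)) ∧
      (∀ (g : InfinitePlace K → ℝ) (m : ι → ℤ),
        ∑ j, g (pl j) * (∑ i, B j i * (m i : ℝ)) ^ 2 = qf g (∑ i, (m i : ℚ) • ω.traceDual i)) ∧
      ∀ f : InfinitePlace K → ℝ, ∏ j, f (pl j) = ∏ v, f v ^ v.mult := by
  classical
  have hcard : Fintype.card ι = Fintype.card (K →+* ℂ) := by
    rw [Embeddings.card K ℂ, Module.finrank_eq_card_basis ω]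
  obtain ⟨e⟩ : Nonempty (ι ≃ (K →+* ℂ)) := Fintype.card_eq.1 hcard
  have hprod : ∀ x y : K, ∑ j, lf (e j) x * lf (ComplexEmbedding.conjugate (e j)) y
      = ((Algebra.trace ℚ K (x * y) : ℚ) : ℝ) := by
    intro x y
    rw [← sum_lf_lf]
    exact Equiv.sum_comp e (fun φ => lf φ x * lf (ComplexEmbedding.conjugate φ) y)
  set A : Matrix ι ι ℝ := Matrix.of fun j i => lf (e j) (ω i) with hA
  refine ⟨A, Matrix.of fun j i => lf (ComplexEmbedding.conjugate (e j)) (ω.traceDual i),
    fun j => InfinitePlace.mk (e j), ?_, ?_, ?_, ?_, ?_⟩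
  · ext i k
    rw [Matrix.mul_apply]
    simp only [Matrix.transpose_apply, hA, Matrix.of_apply]
    rw [hprod, Module.Basis.trace_mul_traceDual, Matrix.one_apply]
    split_ifs <;> simp
  · obtain ⟨σ, hσ⟩ : ∃ σ : Equiv.Perm ι, ∀ j, e (σ j) = ComplexEmbedding.conjugate (e j) :=
      ⟨(e.trans cj).trans e.symm, fun j => by
        simp only [Equiv.trans_apply, Equiv.apply_symm_apply]
        rfl⟩
    have h1 : A.transpose * A.submatrix σ id = (Algebra.traceMatrix ℚ ω).map (Rat.castHom ℝ) := by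
      ext i k
      rw [Matrix.mul_apply]
      simp only [Matrix.transpose_apply, hA, Matrix.submatrix_apply, Matrix.of_apply, id_eq,
        Matrix.map_apply, Algebra.traceMatrix_apply, Algebra.traceForm_apply]
      simp_rw [hσ]
      rw [hprod]
      rfl
    have h2 := congrArg Matrix.det h1
    rw [Matrix.det_mul, Matrix.det_transpose, Matrix.det_permute] at h2
    have h3 : ((Algebra.traceMatrix ℚ ω).map (Rat.castHom ℝ)).det
        = ((Algebra.discr ℚ ω : ℚ) : ℝ) := by
      rw [Algebra.discr_def]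
      exact (RingHom.map_det (Rat.castHom ℝ) (Algebra.traceMatrix ℚ ω)).symm
    rw [h3] at h2
    rw [← h2]
    have h4 : |((Equiv.Perm.sign σ : ℤ) : ℝ)| = 1 := by
      rcases Int.units_eq_one_or (Equiv.Perm.sign σ) with h | h <;> rw [h] <;> simp
    rw [abs_mul, abs_mul, h4, one_mul, ← sq]
    exact (Real.sqrt_sq (abs_nonneg _)).symm
  · intro g m
    simp only [hA, Matrix.of_apply]
    simp_rw [lf_sum]
    rw [← sum_lf_sq]
    exact Equiv.sum_comp e (fun φ => g (InfinitePlace.mk φ) * lf φ (∑ i, (m i : ℚ) • ω i) ^ 2)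
  · intro g m
    simp only [Matrix.of_apply]
    simp_rw [lf_sum]
    rw [← sum_lf_sq, ← sum_cj]
    simp_rw [mk_conjugate_eq]
    exact Equiv.sum_comp e (fun φ => g (InfinitePlace.mk φ) *
      lf (ComplexEmbedding.conjugate φ) (∑ i, (m i : ℚ) • ω.traceDual i) ^ 2)
  · intro f
    rw [← prod_mk]
    exact Equiv.prod_comp e (fun φ => f (InfinitePlace.mk φ))

end Pool.Agent.QD.Z
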