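import Pool.Agent.QD.Z.GamInt
import Pool.Agent.QD.Z.ChVar

/-!
# QDZ-Full (0.6 h): the unfolded integral

PROOF.  `n ρ = ∑_v d_v y_v` (as in ChVar), so `GG x p * exp (n w / 2 ρ) = ∏_v [exp (-π d_v (v x)^2 exp y_v) *
exp (w d_v / 2 * y_v)]` at `y = yy p`.  Apply `exists_chvar` to `h y = ∏_v (..)(y_v)`: integrable
(`Integrable.fintype_prod`) with integral the product (`integral_fintype_prod_eq_prod`) of the one dimensional integrals
`gam_int (A := π d_v (v x)^2) (s := w d_v / 2)`: `(π d_v (v x)^2) ^ (-w d_v/2) Γ(w d_v / 2)`.  Real `v`: `= (v x)^(-w)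
Gammaℝ w` (`Complex.Gammaℝ_def`: `π ^ (-w/2) Γ(w/2)`); complex `v`: `= ((v x)^2)^(-w) Gammaℂ w / 2` (`Complex.Gammaℂ_def`:
`2 (2π)^(-w) Γ(w)`).  Product formula: `∏_v (v x)^(mult v) = |norm x|` (`InfinitePlace.prod_eq_abs_norm`).  The constant is
`c * 2 ^ (-r2)`.  Powers of positive reals: `Complex.mul_cpow_ofReal_nonneg`, `Complex.ofReal_cpow`.
-/

namespace Pool.Agent.QD.Z

open NumberField NumberField.InfinitePlace MeasureTheory

variable (K : Type) [Field K] [NumberField K]

private theorem sum_yy (p : (Fin (Units.rank K) → ℝ) × ℝ) :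
    ∑ v : InfinitePlace K, (v.mult : ℝ) * yy p v = (Module.finrank ℚ K : ℝ) * p.2 := by
  unfold yy
  simp only [mul_add, Finset.sum_add_distrib]
  have h1 : ∑ v : InfinitePlace K, (v.mult : ℝ) * p.2 = (Module.finrank ℚ K : ℝ) * p.2 := by
    rw [← Finset.sum_mul, ← sum_mult_eq (K := K)]
    push_cast
    rfl
  have h2 : ∑ v : InfinitePlace K, (v.mult : ℝ) *
      ∑ j, p.1 j * (2 * Real.log (v ((Units.fundSystem K j : 𝓞 K) : K))) = 0 := by
    simp only [Finset.mul_sum]
    rw [Finset.sum_comm]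
    apply Finset.sum_eq_zero
    intro j _
    have h3 := Units.sum_mult_mul_log (K := K) (Units.fundSystem K j)
    calc ∑ v : InfinitePlace K, (v.mult : ℝ) *
          (p.1 j * (2 * Real.log (v ((Units.fundSystem K j : 𝓞 K) : K))))
        = ∑ v : InfinitePlace K, 2 * p.1 j * ((v.mult : ℝ) *
          Real.log (v ((Units.fundSystem K j : 𝓞 K) : K))) := by
          apply Finset.sum_congr rfl
          intro v _
          ring
      _ = 0 := by
          rw [← Finset.mul_sum, h3, mul_zero]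
  rw [h1, h2, add_zero]

/-- one factor -/
private noncomputable def fac (x : K) (w : ℂ) (v : InfinitePlace K) (y : ℝ) : ℂ :=
  ((Real.exp (-(Real.pi * v.mult * (v x) ^ 2) * Real.exp y) : ℝ) : ℂ) *
    Complex.exp ((w * v.mult / 2) * (y : ℂ))

private theorem GG_eq (x : K) (w : ℂ) (p : (Fin (Units.rank K) → ℝ) × ℝ) :
    (GG x p : ℂ) * Complex.exp ((Module.finrank ℚ K : ℂ) * w / 2 * (p.2 : ℂ)) =
      ∏ v : InfinitePlace K, fac K x w v (yy p v) := by
  unfold fac GG qf gg
  rw [Finset.prod_mul_distrib, ← Complex.ofReal_prod, ← Real.exp_sum, ← Complex.exp_sum]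
  congr 2
  · congr 1
    rw [Finset.mul_sum]
    apply Finset.sum_congr rfl
    intro v _
    ring
  · have h := sum_yy K p
    have h' : (∑ v : InfinitePlace K, (v.mult : ℂ) * ((yy p v : ℝ) : ℂ)) =
        (Module.finrank ℚ K : ℂ) * (p.2 : ℂ) := by
      exact_mod_cast h
    calc (Module.finrank ℚ K : ℂ) * w / 2 * (p.2 : ℂ)
        = w / 2 * ((Module.finrank ℚ K : ℂ) * (p.2 : ℂ)) := by ring
      _ = w / 2 * ∑ v : InfinitePlace K, (v.mult : ℂ) * ((yy p v : ℝ) : ℂ) := by rw [h']
      _ = _ := by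
          rw [Finset.mul_sum]
          apply Finset.sum_congr rfl
          intro v _
          ring

omit [NumberField K] in
open Classical in
private theorem fac_int (x : K) (hx : x ≠ 0) (w : ℂ) (hw : 0 < w.re) (v : InfinitePlace K) :
    Integrable (fac K x w v) ∧ ∫ y, fac K x w v y =
      (((v x) ^ v.mult : ℝ) : ℂ) ^ (-w) *
        (if v.IsReal then Complex.Gammaℝ w else Complex.Gammaℂ w * (2 : ℂ)⁻¹) := by
  have hvx : 0 < v x := v.pos_iff.2 hx
  have hm : 0 < (v.mult : ℝ) := by exact_mod_cast v.mult_pos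
  have hA : 0 < Real.pi * v.mult * (v x) ^ 2 := by positivity
  have hs : 0 < (w * (v.mult : ℂ) / 2).re := by
    have : (w * (v.mult : ℂ) / 2).re = w.re * v.mult / 2 := by
      rw [show w * (v.mult : ℂ) / 2 = ((v.mult / 2 : ℝ) : ℂ) * w by push_cast; ring,
        Complex.re_ofReal_mul]
      ring
    rw [this]
    positivity
  obtain ⟨h1, h2⟩ := gam_int _ hA _ hs
  refine ⟨h1, ?_⟩
  unfold fac
  rw [h2]
  by_cases hr : v.IsReal
  · rw [if_pos hr]
    have hm1 : v.mult = 1 := by unfold mult; rw [if_pos hr]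
    rw [hm1, Complex.Gammaℝ_def]
    have e1 : ((Real.pi * ((1 : ℕ) : ℝ) * (v x) ^ 2 : ℝ) : ℂ) = ((Real.pi : ℝ) : ℂ) *
        (((v x) ^ 2 : ℝ) : ℂ) := by push_cast; ring
    have e2 : w * ((1 : ℕ) : ℂ) / 2 = w / 2 := by push_cast; ring
    rw [e1, e2, Complex.mul_cpow_ofReal_nonneg Real.pi_pos.le (by positivity)]
    have e3 : (((v x) ^ 2 : ℝ) : ℂ) ^ (-(w / 2)) = (((v x) ^ 1 : ℝ) : ℂ) ^ (-w) := by
      rw [pow_one]
      have hlog : Real.log ((v x) ^ 2) = 2 * Real.log (v x) := by
        rw [Real.log_pow]; push_cast; ring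
      rw [Complex.cpow_def_of_ne_zero (by exact_mod_cast (by positivity : ((v x) ^ 2 : ℝ) ≠ 0)),
        Complex.cpow_def_of_ne_zero (by exact_mod_cast hvx.ne'), ← Complex.ofReal_log (by positivity),
        ← Complex.ofReal_log hvx.le, hlog]
      congr 1
      push_cast
      ring
    rw [e3, neg_div]
    ring
  · rw [if_neg hr]
    have hm2 : v.mult = 2 := by unfold mult; rw [if_neg hr]
    rw [hm2, Complex.Gammaℂ_def]
    have e1 : ((Real.pi * ((2 : ℕ) : ℝ) * (v x) ^ 2 : ℝ) : ℂ) = ((2 * Real.pi : ℝ) : ℂ) *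
        (((v x) ^ 2 : ℝ) : ℂ) := by push_cast; ring
    have e2 : w * ((2 : ℕ) : ℂ) / 2 = w := by push_cast; ring
    rw [e1, e2, Complex.mul_cpow_ofReal_nonneg (by positivity) (by positivity)]
    push_cast
    ring

theorem exists_const : ∃ c : ℝ, IsConst K c := by
  obtain ⟨c, hc, hch⟩ := exists_chvar K
  refine ⟨c * (2 : ℝ)⁻¹ ^ nrComplexPlaces K, by positivity, ?_⟩
  intro x hx w hw
  have hint : Integrable (fun y : InfinitePlace K → ℝ => ∏ v, fac K x w v (y v)) :=
    Integrable.fintype_prod fun v => (fac_int K x hx w hw v).1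
  obtain ⟨h1, h2⟩ := hch _ hint
  have heq : (fun p : (Fin (Units.rank K) → ℝ) × ℝ =>
      (GG x p : ℂ) * Complex.exp ((Module.finrank ℚ K : ℂ) * w / 2 * (p.2 : ℂ))) =
      fun p => ∏ v : InfinitePlace K, fac K x w v (yy p v) := funext fun p => GG_eq K x w p
  rw [heq]
  refine ⟨h1, ?_⟩
  rw [h2, integral_fintype_prod_volume_eq_prod]
  have h3 : ∏ v : InfinitePlace K, ∫ y, fac K x w v y =
      (((|Algebra.norm ℚ x| : ℚ) : ℝ) : ℂ) ^ (-w) *
        (Complex.Gammaℝ w ^ nrRealPlaces K * (Complex.Gammaℂ w * (2 : ℂ)⁻¹) ^ nrComplexPlaces K) := by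
    rw [Finset.prod_congr rfl fun v _ => (fac_int K x hx w hw v).2, Finset.prod_mul_distrib]
    congr 1
    · have h4 : (((|Algebra.norm ℚ x| : ℚ) : ℝ)) = ∏ v : InfinitePlace K, v x ^ v.mult := by
        rw [prod_eq_abs_norm]
      rw [h4]
      symm
      have h5 : ∀ s : Finset (InfinitePlace K), ((∏ v ∈ s, v x ^ v.mult : ℝ) : ℂ) ^ (-w) =
          ∏ v ∈ s, (((v x) ^ v.mult : ℝ) : ℂ) ^ (-w) := by
        intro s
        classical
        induction s using Finset.induction_on with
        | empty => simp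
        | insert a s ha ih =>
          rw [Finset.prod_insert ha, Finset.prod_insert ha, Complex.ofReal_mul,
            Complex.mul_cpow_ofReal_nonneg (by positivity)
              (Finset.prod_nonneg fun v _ => by positivity), ih]
      exact h5 Finset.univ
    · classical
      rw [Finset.prod_ite, Finset.prod_const, Finset.prod_const]
      congr 2
      · rw [nrRealPlaces, Fintype.card_subtype]
      · rw [nrComplexPlaces, Fintype.card_subtype]
        congr 1
        apply Finset.filter_congr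
        intro v _
        exact not_isReal_iff_isComplex
  rw [h3]
  unfold gamK
  push_cast
  rw [mul_pow]
  ring

end Pool.Agent.QD.Z
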