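import Pool.Agent.QD.Z.Defs

/-!
# QDZ-GamInt (0.4 h): the one dimensional Gamma integral in logarithmic coordinates

PROOF.  Substitution `t = exp y` in `Real.Gamma`/`Complex.Gamma` integral: `Complex.GammaIntegral`:
`∫_{t > 0} exp (-A t) t ^ (s - 1) dt = A ^ (-s) Γ(s)` (`Complex.integral_cpow_mul_exp_neg_mul_Ioi`), and
`MeasureTheory.integral_comp_mul_deriv_Ioi`-like results, or `integral_image_eq_integral_abs_deriv_smul` for the image of
`univ` under `exp` (`Set.range exp = Ioi 0`, `Real.exp` injective) and `integrableOn_image_iff_integrableOn_abs_deriv_smul`.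
Integrability of `t ^ (s - 1) exp (-A t)` on `Ioi 0`: `Real.GammaIntegral_convergent`/`Complex.GammaIntegral_convergent`
after scaling, or `integrableOn_rpow_mul_exp_neg_mul_rpow` (`p = 1`).
-/

namespace Pool.Agent.QD.Z

open MeasureTheory

private theorem key (A : ℝ) (s : ℂ) (y : ℝ) :
    ((Real.exp (-A * Real.exp y) : ℝ) : ℂ) * Complex.exp (s * (y : ℂ)) =
      Real.exp y • (((Real.exp y : ℝ) : ℂ) ^ (s - 1) * Complex.exp (-((A : ℂ) * ((Real.exp y : ℝ) : ℂ)))) := by
  have h0 : ((Real.exp y : ℝ) : ℂ) ≠ 0 := by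
    exact_mod_cast (Real.exp_pos y).ne'
  have h1 : ((Real.exp y : ℝ) : ℂ) ^ (s - 1) * ((Real.exp y : ℝ) : ℂ) = Complex.exp (s * (y : ℂ)) := by
    have h2 : ((Real.exp y : ℝ) : ℂ) ^ (s - 1) * ((Real.exp y : ℝ) : ℂ) =
        ((Real.exp y : ℝ) : ℂ) ^ (s - 1 + 1) := by
      rw [Complex.cpow_add _ _ h0, Complex.cpow_one]
    rw [h2, sub_add_cancel, Complex.cpow_def_of_ne_zero h0, ← Complex.ofReal_log (Real.exp_pos y).le,
      Real.log_exp, mul_comm]
  rw [Complex.real_smul, ← h1]
  push_cast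
  ring_nf

theorem gam_int (A : ℝ) (hA : 0 < A) (s : ℂ) (hs : 0 < s.re) :
    Integrable (fun y : ℝ => ((Real.exp (-A * Real.exp y) : ℝ) : ℂ) * Complex.exp (s * (y : ℂ))) ∧
    ∫ y : ℝ, ((Real.exp (-A * Real.exp y) : ℝ) : ℂ) * Complex.exp (s * (y : ℂ)) =
      (A : ℂ) ^ (-s) * Complex.Gamma s := by
  set g : ℝ → ℂ := fun t => (t : ℂ) ^ (s - 1) * Complex.exp (-((A : ℂ) * (t : ℂ))) with hg
  have himg : Real.exp '' Set.univ = Set.Ioi 0 := by
    rw [Set.image_univ, Real.range_exp]
  have hd : ∀ y ∈ (Set.univ : Set ℝ), HasDerivWithinAt Real.exp (Real.exp y) Set.univ y :=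
    fun y _ => (Real.hasDerivAt_exp y).hasDerivWithinAt
  have hinj : Set.InjOn Real.exp Set.univ := Real.exp_injective.injOn
  have hfun : (fun y : ℝ => ((Real.exp (-A * Real.exp y) : ℝ) : ℂ) * Complex.exp (s * (y : ℂ))) =
      fun y => |Real.exp y| • g (Real.exp y) := by
    funext y
    rw [abs_of_pos (Real.exp_pos y)]
    exact key A s y
  have hI : IntegrableOn g (Set.Ioi 0) := by
    have h1 : IntegrableOn (fun t : ℝ => t ^ (s.re - 1) * Real.exp (-A * t ^ (1 : ℝ))) (Set.Ioi 0) :=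
      integrableOn_rpow_mul_exp_neg_mul_rpow (by linarith) one_pos hA
    refine Integrable.mono' h1 ?_ ?_
    · refine ContinuousOn.aestronglyMeasurable ?_ measurableSet_Ioi
      intro t ht
      have ht' : (0 : ℝ) < t := ht
      refine ContinuousAt.continuousWithinAt ?_
      refine ContinuousAt.mul ?_ ?_
      · exact (Complex.continuousAt_ofReal_cpow_const t (s - 1) (Or.inr ht'.ne'))
      · fun_prop
    · refine (ae_restrict_iff' measurableSet_Ioi).2 (Filter.Eventually.of_forall fun t ht => ?_)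
      have ht' : (0 : ℝ) < t := ht
      rw [hg]
      simp only
      rw [norm_mul, Complex.norm_cpow_eq_rpow_re_of_pos ht', Complex.norm_exp, Real.rpow_one]
      simp
  constructor
  · rw [hfun, ← integrableOn_univ, ← integrableOn_image_iff_integrableOn_abs_deriv_smul
      MeasurableSet.univ hd hinj g, himg]
    exact hI
  · rw [hfun, ← setIntegral_univ, ← integral_image_eq_integral_abs_deriv_smul
      MeasurableSet.univ hd hinj g, himg]
    rw [hg, Complex.integral_cpow_mul_exp_neg_mul_Ioi hs hA]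
    congr 1
    rw [one_div, Complex.inv_cpow, Complex.cpow_neg]
    rw [Complex.arg_ofReal_of_nonneg hA.le]
    exact Real.pi_pos.ne

end Pool.Agent.QD.Z
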