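import Pool.Agent.QD.Z.HLow

/-!
# QDZ-HBox (0.7 h): the averaged theta function

PROOFS.  `gg_lower K 1` (or `R`), `GG_le`, `qf_const`: for `a` in the box, `GG x (a, ρ) ≤ exp (-π qf (fun _ => κ exp ρ) x)`, summable over
`x ∈ b` by `summable_Th b (fun _ => κ exp ρ)`; the box has volume `1` (`Real.volume_pi_Ico`), so `summable_HH` (`Summable.of_nonneg_of_le`,
restrict to `Nz b` by an injective map).  `HH_antitone`: each `GG x (a, ·)` is antitone (`gg` increasing, `qf` increasing), integrate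
(`setIntegral_mono`, continuous on a bounded box: integrable), `Summable.tsum_le_tsum`.  `continuous_Th`: `continuous_iff_continuousAt`, on the ball
`|a_j| < R` apply `continuousOn_tsum` with the bound from `gg_lower K R`.  `one_add_HH`: exchange sum over `{x // x ∈ b}` and integral over the box
(`integral_tsum` or `hasSum_integral_of_summable_integral_norm`; bounds as above), split off the term `x = 0` (`GG 0 p = 1`, volume `1`;
`Summable.tsum_eq_add_tsum_ite`, or the equivalence `Option (Nz b) ≃ {x // x ∈ b}`).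
-/

namespace Pool.Agent.QD.Z

open NumberField NumberField.InfinitePlace MeasureTheory

open scoped nonZeroDivisors

variable {K : Type} [Field K] [NumberField K]

theorem continuous_GG (x : K) : Continuous fun p : (Fin (Units.rank K) → ℝ) × ℝ => GG x p := by
  unfold GG qf gg yy
  fun_prop

private theorem vol_box (r : ℕ) : volume (box r) = 1 := by
  unfold box
  rw [Real.volume_pi_Ico]
  simp

private theorem meas_box (r : ℕ) : MeasurableSet (box r) :=
  MeasurableSet.univ_pi fun _ => measurableSet_Ico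

private theorem fin_box (r : ℕ) : IsFiniteMeasure (volume.restrict (box r)) :=
  ⟨by rw [Measure.restrict_apply_univ, vol_box]; exact ENNReal.one_lt_top⟩

private theorem int_const (r : ℕ) (c : ℝ) : ∫ _a in box r, c = c := by
  rw [setIntegral_const, Measure.real, vol_box]
  simp

private theorem box_le {r : ℕ} {a : Fin r → ℝ} (ha : a ∈ box r) (j : Fin r) : |a j| ≤ 1 := by
  have h := ha j (Set.mem_univ _)
  rw [abs_of_nonneg h.1]
  exact h.2.le

private theorem bd (b : (FractionalIdeal (𝓞 K)⁰ K)ˣ) (R ρ : ℝ) : ∃ u : K → ℝ,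
    Summable (fun x : {x : K // x ∈ (b : FractionalIdeal (𝓞 K)⁰ K)} => u x.1) ∧
    ∀ a : Fin (Units.rank K) → ℝ, (∀ j, |a j| ≤ R) → ∀ x : K, GG x (a, ρ) ≤ u x := by
  obtain ⟨κ, hκ, hκ2⟩ := gg_lower K R
  refine ⟨fun x => Real.exp (-Real.pi * qf (fun _ => κ * Real.exp ρ) x), ?_, fun a ha x => ?_⟩
  · exact summable_Th b (fun _ => κ * Real.exp ρ) (fun _ => by positivity)
  · have h := GG_le (κ := κ) (p := (a, ρ)) (fun v => hκ2 a ha ρ v) x
    show GG x (a, ρ) ≤ Real.exp (-Real.pi * qf (fun _ => κ * Real.exp ρ) x)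
    rw [qf_const (κ * Real.exp ρ) x]
    exact h

private theorem GG_nonneg (x : K) (p : (Fin (Units.rank K) → ℝ) × ℝ) : 0 ≤ GG x p := by
  unfold GG
  positivity

private theorem cont_GG' (x : K) (ρ : ℝ) :
    Continuous fun a : Fin (Units.rank K) → ℝ => GG x (a, ρ) :=
  (continuous_GG x).comp (by fun_prop)

private theorem int_GG (x : K) (ρ : ℝ) :
    IntegrableOn (fun a : Fin (Units.rank K) → ℝ => GG x (a, ρ)) (box (Units.rank K)) := by
  have := fin_box (Units.rank K)
  obtain ⟨u, -, hu⟩ := bd (1 : (FractionalIdeal (𝓞 K)⁰ K)ˣ) 1 ρ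
  refine Integrable.of_bound (cont_GG' x ρ).aestronglyMeasurable (u x) ?_
  refine (ae_restrict_iff' (meas_box _)).2 (Filter.Eventually.of_forall fun a ha => ?_)
  rw [Real.norm_of_nonneg (GG_nonneg _ _)]
  exact hu a (box_le ha) x

private theorem int_GG_le {ρ : ℝ} {u : K → ℝ}
    (hu : ∀ a : Fin (Units.rank K) → ℝ, (∀ j, |a j| ≤ 1) → ∀ x : K, GG x (a, ρ) ≤ u x) (x : K) :
    ∫ a in box (Units.rank K), GG x (a, ρ) ≤ u x := by
  have := fin_box (Units.rank K)
  rw [← int_const (Units.rank K) (u x)]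
  exact setIntegral_mono_on (int_GG x ρ) (integrable_const _) (meas_box _)
    fun a ha => hu a (box_le ha) x

private theorem summable_all (b : (FractionalIdeal (𝓞 K)⁰ K)ˣ) (ρ : ℝ) :
    Summable fun x : {x : K // x ∈ (b : FractionalIdeal (𝓞 K)⁰ K)} =>
      ∫ a in box (Units.rank K), GG x.1 (a, ρ) := by
  obtain ⟨u, hu1, hu⟩ := bd b 1 ρ
  exact Summable.of_nonneg_of_le (fun x => integral_nonneg fun a => GG_nonneg _ _)
    (fun x => int_GG_le hu x.1) hu1

private def jj (b : (FractionalIdeal (𝓞 K)⁰ K)ˣ) (x : Nz b) :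
    {x : K // x ∈ (b : FractionalIdeal (𝓞 K)⁰ K)} := ⟨x.1, x.2.1⟩

private theorem jj_inj (b : (FractionalIdeal (𝓞 K)⁰ K)ˣ) : Function.Injective (jj b) := by
  intro x y h
  have h2 : (jj b x).1 = (jj b y).1 := congrArg Subtype.val h
  exact Subtype.ext h2

private theorem countK : Countable K :=
  (Module.finBasis ℚ K).equivFun.injective.countable

theorem continuous_Th (b : (FractionalIdeal (𝓞 K)⁰ K)ˣ) (ρ : ℝ) :
    Continuous fun a : Fin (Units.rank K) → ℝ => Th b (gg (a, ρ)) := by
  rw [continuous_iff_continuousAt]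
  intro a₀
  obtain ⟨u, hu1, hu⟩ := bd b (‖a₀‖ + 1) ρ
  have hmem : a₀ ∈ Metric.ball (0 : Fin (Units.rank K) → ℝ) (‖a₀‖ + 1) := by
    rw [mem_ball_zero_iff]
    linarith
  have hcon : ContinuousOn (fun a : Fin (Units.rank K) → ℝ => Th b (gg (a, ρ)))
      (Metric.ball (0 : Fin (Units.rank K) → ℝ) (‖a₀‖ + 1)) := by
    unfold Th
    refine continuousOn_tsum (u := fun x : {x : K // x ∈ (b : FractionalIdeal (𝓞 K)⁰ K)} => u x.1)
      (fun x => ?_) hu1 (fun x a ha => ?_)
    · exact (cont_GG' x.1 ρ).continuousOn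
    · rw [mem_ball_zero_iff] at ha
      rw [Real.norm_of_nonneg (by positivity)]
      refine hu a (fun j => ?_) x.1
      have := norm_le_pi_norm a j
      rw [Real.norm_eq_abs] at this
      linarith
  exact hcon.continuousAt (Metric.isOpen_ball.mem_nhds hmem)

theorem summable_HH (b : (FractionalIdeal (𝓞 K)⁰ K)ˣ) (ρ : ℝ) :
    Summable fun x : Nz b => ∫ a in box (Units.rank K), GG x.1 (a, ρ) := by
  have h : Summable ((fun x : {x : K // x ∈ (b : FractionalIdeal (𝓞 K)⁰ K)} =>
      ∫ a in box (Units.rank K), GG x.1 (a, ρ)) ∘ jj b) :=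
    (summable_all b ρ).comp_injective (jj_inj b)
  exact h

theorem one_add_HH (b : (FractionalIdeal (𝓞 K)⁰ K)ˣ) (ρ : ℝ) :
    1 + HH b ρ = ∫ a in box (Units.rank K), Th b (gg (a, ρ)) := by
  classical
  have := countK (K := K)
  have h1 : ∫ a in box (Units.rank K), Th b (gg (a, ρ))
      = ∑' x : {x : K // x ∈ (b : FractionalIdeal (𝓞 K)⁰ K)},
        ∫ a in box (Units.rank K), GG x.1 (a, ρ) := by
    have h2 := hasSum_integral_of_summable_integral_norm
      (μ := volume.restrict (box (Units.rank K)))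
      (F := fun (x : {x : K // x ∈ (b : FractionalIdeal (𝓞 K)⁰ K)})
        (a : Fin (Units.rank K) → ℝ) => GG x.1 (a, ρ))
      (fun x => int_GG x.1 ρ) (by
        refine (summable_all b ρ).congr fun x => ?_
        refine integral_congr_ae (Filter.Eventually.of_forall fun a => ?_)
        exact (Real.norm_of_nonneg (GG_nonneg _ _)).symm)
    exact h2.tsum_eq.symm
  set x0 : {x : K // x ∈ (b : FractionalIdeal (𝓞 K)⁰ K)} := ⟨0, FractionalIdeal.zero_mem _⟩
    with hx0
  rw [h1, (summable_all b ρ).tsum_eq_add_tsum_ite x0]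
  congr 1
  · have h3 : ∀ a : Fin (Units.rank K) → ℝ, GG x0.1 (a, ρ) = 1 := by
      intro a
      unfold GG qf
      rw [hx0]
      simp
    simp_rw [h3]
    exact (int_const _ 1).symm
  · unfold HH
    have h4 := (jj_inj b).tsum_eq (f := fun x : {x : K // x ∈ (b : FractionalIdeal (𝓞 K)⁰ K)} =>
      if x = x0 then (0 : ℝ) else ∫ a in box (Units.rank K), GG x.1 (a, ρ)) (by
        intro x hx
        have hne : x ≠ x0 := by
          intro h
          apply hx
          simp only
          rw [if_pos h]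
        refine ⟨⟨x.1, x.2, fun h => hne (Subtype.ext h)⟩, ?_⟩
        apply Subtype.ext
        rfl)
    rw [← h4]
    refine tsum_congr fun x => ?_
    rw [if_neg]
    · rfl
    · intro h
      exact x.2.2 (congrArg Subtype.val h)

theorem HH_nonneg (b : (FractionalIdeal (𝓞 K)⁰ K)ˣ) (ρ : ℝ) : 0 ≤ HH b ρ := by
  unfold HH
  refine tsum_nonneg fun x => integral_nonneg fun a => ?_
  unfold GG
  positivity

theorem HH_antitone (b : (FractionalIdeal (𝓞 K)⁰ K)ˣ) : Antitone (HH b) := by
  intro ρ ρ' hρ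
  unfold HH
  refine (summable_HH b ρ').tsum_le_tsum (fun x => ?_) (summable_HH b ρ)
  refine setIntegral_mono (int_GG x.1 ρ') (int_GG x.1 ρ) fun a => ?_
  show GG x.1 (a, ρ') ≤ GG x.1 (a, ρ)
  unfold GG
  refine Real.exp_le_exp.2 ?_
  have h1 : qf (gg (a, ρ)) x.1 ≤ qf (gg (a, ρ')) x.1 := by
    unfold qf
    refine Finset.sum_le_sum fun v _ => ?_
    refine mul_le_mul_of_nonneg_right ?_ (sq_nonneg _)
    refine mul_le_mul_of_nonneg_left ?_ (Nat.cast_nonneg _)
    unfold gg yy
    refine Real.exp_le_exp.2 ?_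
    simp only
    linarith
  have := Real.pi_pos
  nlinarith

end Pool.Agent.QD.Z
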