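import Pool.Agent.QD.Z.Defs

/-!
# QDZ-Period: action of the units on the parameters
-/

namespace Pool.Agent.QD.Z

open NumberField NumberField.InfinitePlace

open scoped nonZeroDivisors

variable {K : Type} [Field K] [NumberField K]

private theorem per_pos (u : (𝓞 K)ˣ) (v : InfinitePlace K) : 0 < v ((u : 𝓞 K) : K) :=
  Units.pos_at_place u v

private theorem per_yy_shf (m : Fin (Units.rank K) → ℤ) (p : (Fin (Units.rank K) → ℝ) × ℝ)
    (v : InfinitePlace K) :
    yy (shf m p) v = yy p v + ∑ j, (m j : ℝ) * (2 * Real.log (v ((Units.fundSystem K j : 𝓞 K) : K))) := by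
  unfold yy shf
  simp only [add_mul, Finset.sum_add_distrib]
  ring

private theorem per_um (m : Fin (Units.rank K) → ℤ) (v : InfinitePlace K) :
    (v ((um m : 𝓞 K) : K)) ^ 2 =
      Real.exp (∑ j, (m j : ℝ) * (2 * Real.log (v ((Units.fundSystem K j : 𝓞 K) : K)))) := by
  have h1 : v ((um m : 𝓞 K) : K) = ∏ j, (v ((Units.fundSystem K j : 𝓞 K) : K)) ^ (m j) := by
    have h0 : ((um m : 𝓞 K) : K) =
        ∏ j, ((((Units.fundSystem K j) ^ (m j) : (𝓞 K)ˣ) : 𝓞 K) : K) := by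
      unfold um
      rw [Units.coe_prod, RingOfIntegers.coe_eq_algebraMap, map_prod]
    rw [h0, map_prod]
    refine Finset.prod_congr rfl fun j _ => ?_
    have : ((((Units.fundSystem K j) ^ (m j) : (𝓞 K)ˣ) : 𝓞 K) : K) =
        ((Units.fundSystem K j : 𝓞 K) : K) ^ (m j) := Units.coe_zpow _ _
    rw [this, map_zpow₀]
  rw [h1, Real.exp_sum, ← Finset.prod_pow]
  refine Finset.prod_congr rfl fun j _ => ?_
  have hpos := per_pos (Units.fundSystem K j) v
  rw [← Real.rpow_intCast, ← Real.rpow_natCast, ← Real.rpow_mul hpos.le,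
    Real.rpow_def_of_pos hpos]
  congr 1
  push_cast
  ring

private theorem per_qf (m : Fin (Units.rank K) → ℤ) (x : K) (p : (Fin (Units.rank K) → ℝ) × ℝ) :
    qf (gg p) (((um m : 𝓞 K) : K) * x) = qf (gg (shf m p)) x := by
  unfold qf
  refine Finset.sum_congr rfl fun v _ => ?_
  rw [map_mul, mul_pow, per_um]
  unfold gg
  rw [per_yy_shf, Real.exp_add]
  ring

theorem GG_um (m : Fin (Units.rank K) → ℤ) (x : K) (p : (Fin (Units.rank K) → ℝ) × ℝ) :
    GG (((um m : 𝓞 K) : K) * x) p = GG x (shf m p) := by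
  unfold GG
  rw [per_qf]

theorem GG_torsion (ζ : Units.torsion K) (x : K) (p : (Fin (Units.rank K) → ℝ) × ℝ) :
    GG ((((ζ : (𝓞 K)ˣ) : 𝓞 K) : K) * x) p = GG x p := by
  unfold GG qf
  congr 2
  refine Finset.sum_congr rfl fun v _ => ?_
  rw [map_mul, (Units.mem_torsion K).1 ζ.2 v, one_mul]

theorem Th_shf (b : (FractionalIdeal (𝓞 K)⁰ K)ˣ) (m : Fin (Units.rank K) → ℤ)
    (p : (Fin (Units.rank K) → ℝ) × ℝ) : Th b (gg (shf m p)) = Th b (gg p) := by
  unfold Th
  have hmem : ∀ (u : (𝓞 K)ˣ) (x : K), x ∈ (b : FractionalIdeal (𝓞 K)⁰ K) →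
      ((u : 𝓞 K) : K) * x ∈ (b : FractionalIdeal (𝓞 K)⁰ K) := by
    intro u x hx
    have := (b : FractionalIdeal (𝓞 K)⁰ K).coeToSubmodule.smul_mem (u : 𝓞 K) hx
    rwa [Algebra.smul_def] at this
  have hinv : ∀ (u : (𝓞 K)ˣ), ((u⁻¹ : (𝓞 K)ˣ) : 𝓞 K) * (u : 𝓞 K) = 1 := fun u => Units.inv_mul u
  have hinvK : ∀ (u : (𝓞 K)ˣ) (x : K),
      (((u⁻¹ : (𝓞 K)ˣ) : 𝓞 K) : K) * (((u : 𝓞 K) : K) * x) = x := by
    intro u x
    rw [← mul_assoc, ← map_mul, hinv, map_one, one_mul]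
  let e : {x : K // x ∈ (b : FractionalIdeal (𝓞 K)⁰ K)} ≃
      {x : K // x ∈ (b : FractionalIdeal (𝓞 K)⁰ K)} :=
    { toFun := fun x => ⟨((um m : 𝓞 K) : K) * x.1, hmem _ _ x.2⟩
      invFun := fun x => ⟨(((um m)⁻¹ : (𝓞 K)ˣ) : 𝓞 K) * x.1, hmem _ _ x.2⟩
      left_inv := fun x => Subtype.ext (hinvK (um m) x.1)
      right_inv := fun x => Subtype.ext (by
        have := hinvK ((um m)⁻¹) x.1
        rwa [inv_inv] at this) }
  rw [← e.tsum_eq (fun x => Real.exp (-Real.pi * qf (gg p) x.1))]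
  refine tsum_congr fun x => ?_
  change _ = Real.exp (-Real.pi * qf (gg p) (((um m : 𝓞 K) : K) * x.1))
  rw [per_qf]

theorem prod_gg (p : (Fin (Units.rank K) → ℝ) × ℝ) :
    ∏ v : InfinitePlace K, (gg p v) ^ (-((v.mult : ℝ) / 2)) =
      Real.exp (-((Module.finrank ℚ K : ℝ) / 2 * p.2)) := by
  have h1 : ∀ v : InfinitePlace K, (gg p v) ^ (-((v.mult : ℝ) / 2)) =
      Real.exp (yy p v * (-((v.mult : ℝ) / 2))) := by
    intro v
    unfold gg
    rw [← Real.exp_mul]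
  simp only [h1]
  rw [← Real.exp_sum]
  congr 1
  have h2 : ∑ v : InfinitePlace K, yy p v * (-((v.mult : ℝ) / 2)) =
      -(1 / 2 * ∑ v : InfinitePlace K, (v.mult : ℝ) * yy p v) := by
    rw [Finset.mul_sum, ← Finset.sum_neg_distrib]
    exact Finset.sum_congr rfl fun v _ => by ring
  rw [h2]
  have h3 : ∑ v : InfinitePlace K, (v.mult : ℝ) * yy p v = (Module.finrank ℚ K : ℝ) * p.2 := by
    unfold yy
    simp only [mul_add, Finset.sum_add_distrib]
    rw [← Finset.sum_mul, ← Nat.cast_sum, sum_mult_eq]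
    have h4 : ∑ v : InfinitePlace K, (v.mult : ℝ) *
        ∑ j, p.1 j * (2 * Real.log (v ((Units.fundSystem K j : 𝓞 K) : K))) = 0 := by
      simp only [Finset.mul_sum]
      rw [Finset.sum_comm]
      refine Finset.sum_eq_zero fun j _ => ?_
      have h5 := Units.sum_mult_mul_log (K := K) (Units.fundSystem K j)
      have h6 : ∑ v : InfinitePlace K, (v.mult : ℝ) *
          (p.1 j * (2 * Real.log (v ((Units.fundSystem K j : 𝓞 K) : K)))) =
          (2 * p.1 j) * ∑ v : InfinitePlace K, (v.mult : ℝ) *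
            Real.log (v ((Units.fundSystem K j : 𝓞 K) : K)) := by
        rw [Finset.mul_sum]
        exact Finset.sum_congr rfl fun v _ => by ring
      rw [h6, h5, mul_zero]
    rw [h4, add_zero]
  rw [h3]
  ring

theorem gg_inv (p : (Fin (Units.rank K) → ℝ) × ℝ) : (fun v => (gg p v)⁻¹) = gg (K := K) (-p) := by
  funext v
  unfold gg
  rw [← Real.exp_neg]
  congr 1
  unfold yy
  simp only [Prod.fst_neg, Prod.snd_neg, Pi.neg_apply, neg_mul, Finset.sum_neg_distrib]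
  ring

end Pool.Agent.QD.Z
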