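import Pool.Agent.QD.Z.Defs

/-!
# QDZ-Unfold (0.5 h): unfolding over the unit box

PROOFS.  `hasSum_unfold`: `boxR r` is a fundamental domain for the translations `shf m`: the sets `shf m '' boxR` are
pairwise disjoint and cover (`Int.floor`), `shf m` preserves the measure (`measurePreserving_add_right` on the product).
`hasSum_integral_iUnion` (the preimages `{p | ∀ i, ⌊p.1 i⌋ = m i}`, measurable, countable index `Fin r → ℤ`) and
`∫_{shf m '' boxR} h = ∫_{boxR} h ∘ shf m`.  (For `r = 0` everything is a single point.)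
`integral_box_neg`: for a `ℤ^r`-periodic integrable function the integral over `[0,1)^r` of `φ (-a)` equals that of
`φ a`: the map `a ↦ -a` sends the box to `(-1,0]^r`, again a fundamental domain; `IsAddFundamentalDomain.setIntegral_eq` or
one variable at a time; a direct way: `UnitAddTorus`, or write both integrals as integrals over the torus.
-/

namespace Pool.Agent.QD.Z

open MeasureTheory

private def zv {r : ℕ} (m : Fin r → ℤ) : Fin r → ℝ := fun i => (m i : ℝ)

private lemma box_meas (r : ℕ) : MeasurableSet (box r) :=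
  MeasurableSet.univ_pi fun _ => measurableSet_Ico

/-- each point has exactly one translate in the box -/
private lemma box_unique {r : ℕ} (x : Fin r → ℝ) : ∃! m : Fin r → ℤ, x + zv m ∈ box r := by
  have h : ∀ i, ∃! k : ℤ, x i + k • (1 : ℝ) ∈ Set.Ico (0 : ℝ) (0 + 1) := fun i =>
    existsUnique_add_zsmul_mem_Ico one_pos (x i) 0
  choose k hk hk' using h
  refine ⟨k, ?_, ?_⟩
  · intro i _
    have := hk i
    simpa [zv] using this
  · intro m hm
    funext i
    apply hk' i
    have := hm i (Set.mem_univ i)
    simpa [zv] using this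

theorem hasSum_unfold {r : ℕ} {E : Type} [NormedAddCommGroup E] [NormedSpace ℝ E] [CompleteSpace E]
    (h : (Fin r → ℝ) × ℝ → E) (hh : Integrable h) :
    HasSum (fun m : Fin r → ℤ => ∫ p in boxR r, h (shf m p)) (∫ p, h p) := by
  have hb : MeasurableSet (boxR r) := (box_meas r).prod MeasurableSet.univ
  have hshf : ∀ (m : Fin r → ℤ) (p : (Fin r → ℝ) × ℝ), shf m p = p + (zv m, 0) := by
    intro m p
    ext i
    · rfl
    · simp [shf]
  set s : (Fin r → ℤ) → Set ((Fin r → ℝ) × ℝ) := fun m => (fun p => p + (zv (-m), 0)) ⁻¹' boxR r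
    with hs
  have hmem : ∀ m p, p ∈ s m ↔ p.1 + zv (-m) ∈ box r := by
    intro m p
    constructor
    · intro h
      exact h.1
    · intro h
      exact ⟨h, Set.mem_univ _⟩
  have hmeas : ∀ m, MeasurableSet (s m) := fun m => (measurable_add_const _) hb
  have hdis : Pairwise (Function.onFun Disjoint s) := by
    intro m k hmk
    rw [Function.onFun, Set.disjoint_left]
    intro p hp hp'
    apply hmk
    rw [hmem] at hp hp'
    have := (box_unique p.1).unique hp hp'
    simpa using this
  have hun : (⋃ m, s m) = Set.univ := by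
    rw [Set.eq_univ_iff_forall]
    intro p
    obtain ⟨m, hm, -⟩ := box_unique p.1
    rw [Set.mem_iUnion]
    refine ⟨-m, ?_⟩
    rw [hmem, neg_neg]
    exact hm
  have h0 := hasSum_integral_iUnion (μ := volume) (f := h) hmeas hdis (by
    rw [hun]; exact hh.integrableOn)
  rw [hun, setIntegral_univ] at h0
  have he : (fun m : Fin r → ℤ => ∫ p in boxR r, h (shf m p)) = fun m => ∫ x in s m, h x := by
    funext m
    have hmp : MeasurePreserving (fun p : (Fin r → ℝ) × ℝ => p + (zv m, 0)) volume volume := by
      have h5 := (measurePreserving_add_right (volume : Measure (Fin r → ℝ)) (zv m)).prod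
        (MeasurePreserving.id (volume : Measure ℝ))
      have e : (fun p : (Fin r → ℝ) × ℝ => p + (zv m, 0)) =
          Prod.map (fun x => x + zv m) id := by
        funext p
        refine Prod.ext rfl ?_
        show p.2 + 0 = p.2
        rw [add_zero]
      rw [e]
      exact h5
    have h1 := hmp.setIntegral_preimage_emb
      (MeasurableEquiv.addRight ((zv m, 0) : (Fin r → ℝ) × ℝ)).measurableEmbedding h (s m)
    have h2 : (fun x => x + ((zv m, 0) : (Fin r → ℝ) × ℝ)) ⁻¹' s m = boxR r := by
      ext p
      rw [Set.mem_preimage, hmem]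
      have h3 : (p + ((zv m, 0) : (Fin r → ℝ) × ℝ)).1 + zv (-m) = p.1 := by
        funext i
        simp [zv]
      rw [h3]
      constructor
      · intro h
        exact ⟨h, Set.mem_univ _⟩
      · intro h
        exact h.1
    rw [h2] at h1
    rw [← h1]
    simp only [hshf]
  rw [he]
  exact h0

/-- integer vectors as a subgroup -/
private def LZ (r : ℕ) : AddSubgroup (Fin r → ℝ) where
  carrier := Set.range zv
  zero_mem' := ⟨0, by funext i; simp [zv]⟩
  add_mem' := by
    rintro _ _ ⟨m, rfl⟩ ⟨k, rfl⟩
    exact ⟨m + k, by funext i; simp [zv]⟩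
  neg_mem' := by
    rintro _ ⟨m, rfl⟩
    exact ⟨-m, by funext i; simp [zv]⟩

private instance (r : ℕ) : Countable (LZ r) := (Set.countable_range zv).to_subtype

private lemma fd {r : ℕ} {F : Set (Fin r → ℝ)} (hF : MeasurableSet F)
    (h : ∀ x, ∃! m : Fin r → ℤ, x + zv m ∈ F) :
    IsAddFundamentalDomain (LZ r) F (volume : Measure (Fin r → ℝ)) := by
  refine IsAddFundamentalDomain.mk' hF.nullMeasurableSet fun x => ?_
  obtain ⟨m, hm, hu⟩ := h x
  refine ⟨⟨zv m, m, rfl⟩, ?_, ?_⟩
  · change zv m + x ∈ F
    rw [add_comm]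
    exact hm
  · rintro ⟨_, k, rfl⟩ hk
    have hk' : zv k + x ∈ F := hk
    rw [add_comm] at hk'
    rw [hu k hk']

theorem integral_box_neg {r : ℕ} (φ : (Fin r → ℝ) → ℝ) (hφ : Continuous φ)
    (hp : ∀ (m : Fin r → ℤ) (a : Fin r → ℝ), φ (fun i => a i + (m i : ℝ)) = φ a) :
    ∫ a in box r, φ (-a) = ∫ a in box r, φ a := by
  have hF : MeasurableSet ((fun a : Fin r → ℝ => -a) ⁻¹' box r) := measurable_neg (box_meas r)
  have h1 := (Measure.measurePreserving_neg (volume : Measure (Fin r → ℝ))).setIntegral_preimage_emb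
      (MeasurableEquiv.neg (Fin r → ℝ)).measurableEmbedding φ ((fun a : Fin r → ℝ => -a) ⁻¹' box r)
  have h2 : (Neg.neg : (Fin r → ℝ) → (Fin r → ℝ)) ⁻¹' ((fun a : Fin r → ℝ => -a) ⁻¹' box r) =
      box r := by
    ext a
    simp
  rw [h2] at h1
  rw [h1]
  refine (fd hF ?_).setIntegral_eq (fd (box_meas r) box_unique) ?_
  · intro x
    obtain ⟨m, hm, hu⟩ := box_unique (-x)
    refine ⟨-m, ?_, fun k hk => ?_⟩
    · show -(x + zv (-m)) ∈ box r
      have h3 : -(x + zv (-m)) = -x + zv m := by
        funext i
        simp [zv]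
        ring
      rw [h3]
      exact hm
    · have hk' : -(x + zv k) ∈ box r := hk
      have h3 : -(x + zv k) = -x + zv (-k) := by
        funext i
        simp [zv]
        ring
      rw [h3] at hk'
      have h4 := hu (-k) hk'
      rw [← h4, neg_neg]
  · rintro ⟨_, k, rfl⟩ x
    change φ (zv k + x) = φ x
    rw [add_comm]
    exact hp k x

end Pool.Agent.QD.Z
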