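import Pool.Agent.QD.Z.HBox
import Pool.Agent.QD.Z.Period
import Pool.Agent.QD.Z.Unfold

/-!
# QDZ-HFe (0.3 h): functional equation of the averaged theta function

PROOF.  `one_add_HH b ρ`; under the integral `Th_dual b (gg (a, ρ))`, `prod_gg (a, ρ)`, `gg_inv (a, ρ)`
(`-(a, ρ) = (-a, -ρ)`); the function `φ a = Th (dl b) (gg (a, -ρ))` is continuous (`continuous_Th`) and periodic (`Th_shf`), so
`integral_box_neg` applies; `one_add_HH (dl b) (-ρ)`.
-/

namespace Pool.Agent.QD.Z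

open NumberField NumberField.InfinitePlace MeasureTheory

open scoped nonZeroDivisors

variable {K : Type} [Field K] [NumberField K]

theorem HH_fe (b : (FractionalIdeal (𝓞 K)⁰ K)ˣ) (ρ : ℝ) :
    1 + HH b ρ = (Dv b)⁻¹ * Real.exp (-((Module.finrank ℚ K : ℝ) / 2 * ρ)) *
      (1 + HH (dl b) (-ρ)) := by
  have h1 : ∀ a : Fin (Units.rank K) → ℝ, Th b (gg (a, ρ)) =
      (Dv b)⁻¹ * Real.exp (-((Module.finrank ℚ K : ℝ) / 2 * ρ)) *
        Th (dl b) (gg (-a, -ρ)) := by
    intro a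
    have h2 := Th_dual b (gg (a, ρ)) (fun v => Real.exp_pos _)
    rw [h2, prod_gg, gg_inv]
    rfl
  have h3 := integral_box_neg (fun a : Fin (Units.rank K) → ℝ => Th (dl b) (gg (a, -ρ)))
    (continuous_Th (dl b) (-ρ)) (fun m a => Th_shf (dl b) m (a, -ρ))
  rw [one_add_HH, one_add_HH, ← h3, ← integral_const_mul]
  exact integral_congr_ae (Filter.Eventually.of_forall h1)

end Pool.Agent.QD.Z
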