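import Pool.Agent.QD.Z.Theta

/-!
# QDZ-HLow (0.5 h): lower bounds for the quadratic forms

PROOFS.  `gg_lower`: `yy (a, ρ) v ≥ ρ - R ∑_j |2 log v(ε_j)|`; `κ` = minimum over the finitely many `v` of
`exp (-R ∑_j |2 log v(ε_j)|)` (`R ≥ 0` may be assumed: replace `R` by `|R|`).  `qf_lower`: `summable_Th b 1` gives that for all but finitely many
`x ∈ b`: `exp (-π qf 1 x) < 1/2` (`Summable.tendsto_cofinite_zero`), so `qf 1 x ≥ log 2 / π`; for the finitely many other nonzero `x`
use `qf 1 x > 0` (`v x > 0`, at least one place) and a minimum over a finite set.  `GG_le`: monotonicity.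
-/

namespace Pool.Agent.QD.Z

open NumberField NumberField.InfinitePlace MeasureTheory

open scoped nonZeroDivisors

variable {K : Type} [Field K] [NumberField K]

variable (K) in
theorem gg_lower (R : ℝ) : ∃ κ : ℝ, 0 < κ ∧ ∀ a : Fin (Units.rank K) → ℝ, (∀ j, |a j| ≤ R) →
    ∀ (ρ : ℝ) (v : InfinitePlace K), κ * Real.exp ρ ≤ gg (a, ρ) v := by
  classical
  let M : ℝ := ∑ v : InfinitePlace K, ∑ j : Fin (Units.rank K),
    |R| * |2 * Real.log (v ((Units.fundSystem K j : 𝓞 K) : K))|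
  refine ⟨Real.exp (-M), Real.exp_pos _, ?_⟩
  intro a ha ρ v
  have h1 : ∑ j : Fin (Units.rank K), |R| * |2 * Real.log (v ((Units.fundSystem K j : 𝓞 K) : K))|
      ≤ M :=
    Finset.single_le_sum (f := fun v : InfinitePlace K => ∑ j : Fin (Units.rank K),
      |R| * |2 * Real.log (v ((Units.fundSystem K j : 𝓞 K) : K))|)
      (fun v _ => Finset.sum_nonneg fun j _ => by positivity) (Finset.mem_univ v)
  have h2 : -(∑ j : Fin (Units.rank K),
      |R| * |2 * Real.log (v ((Units.fundSystem K j : 𝓞 K) : K))|) ≤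
      ∑ j, a j * (2 * Real.log (v ((Units.fundSystem K j : 𝓞 K) : K))) := by
    rw [← Finset.sum_neg_distrib]
    apply Finset.sum_le_sum
    intro j _
    have h3 : |a j * (2 * Real.log (v ((Units.fundSystem K j : 𝓞 K) : K)))| ≤
        |R| * |2 * Real.log (v ((Units.fundSystem K j : 𝓞 K) : K))| := by
      rw [abs_mul]
      exact mul_le_mul_of_nonneg_right ((ha j).trans (le_abs_self R)) (abs_nonneg _)
    have h4 := neg_abs_le (a j * (2 * Real.log (v ((Units.fundSystem K j : 𝓞 K) : K))))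
    linarith
  unfold gg yy
  rw [← Real.exp_add]
  apply Real.exp_le_exp.2
  show -M + ρ ≤ ρ + ∑ j, a j * (2 * Real.log (v ((Units.fundSystem K j : 𝓞 K) : K)))
  linarith

private theorem qf_pos {x : K} (hx : x ≠ 0) : 0 < qf (fun _ => 1) x := by
  unfold qf
  apply Finset.sum_pos
  · intro v _
    have h1 : 0 < v x := InfinitePlace.pos_iff.2 hx
    have h2 : (0 : ℝ) < (v.mult : ℝ) := by exact_mod_cast InfinitePlace.mult_pos
    positivity
  · exact Finset.univ_nonempty

private theorem exists_pos_le {α : Type} (f : α → ℝ) (S : Finset α) (h : ∀ x ∈ S, 0 < f x) :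
    ∃ q : ℝ, 0 < q ∧ ∀ x ∈ S, q ≤ f x := by
  classical
  induction S using Finset.induction_on with
  | empty => exact ⟨1, one_pos, by simp⟩
  | insert a S ha ih =>
    obtain ⟨q, hq, hqS⟩ := ih fun x hx => h x (Finset.mem_insert_of_mem hx)
    refine ⟨min q (f a), lt_min hq (h a (Finset.mem_insert_self a S)), ?_⟩
    intro x hx
    rcases Finset.mem_insert.1 hx with rfl | hx
    · exact min_le_right _ _
    · exact (min_le_left _ _).trans (hqS x hx)

theorem qf_lower (b : (FractionalIdeal (𝓞 K)⁰ K)ˣ) : ∃ q : ℝ, 0 < q ∧ ∀ x : Nz b,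
    q ≤ qf (fun _ => 1) x.1 := by
  classical
  have hs := summable_Th b (fun _ => (1 : ℝ)) (fun _ => one_pos)
  have h1 := hs.tendsto_cofinite_zero.eventually (gt_mem_nhds (show (0 : ℝ) < 1 / 2 by norm_num))
  have hfin : Set.Finite {x : {x : K // x ∈ (b : FractionalIdeal (𝓞 K)⁰ K)} |
      ¬ Real.exp (-Real.pi * qf (fun _ => 1) x.1) < 1 / 2} := h1
  let ι : Nz b → {x : K // x ∈ (b : FractionalIdeal (𝓞 K)⁰ K)} := fun x => ⟨x.1, x.2.1⟩
  have hι : Function.Injective ι := by
    intro x y hxy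
    have h : (ι x).1 = (ι y).1 := congrArg Subtype.val hxy
    exact Subtype.ext h
  have hfin2 : Set.Finite {x : Nz b | ¬ Real.exp (-Real.pi * qf (fun _ => 1) x.1) < 1 / 2} :=
    hfin.preimage (f := ι) hι.injOn
  obtain ⟨q, hq, hqS⟩ := exists_pos_le (fun x : Nz b => qf (fun _ => 1) x.1) hfin2.toFinset
    (fun x _ => qf_pos x.2.2)
  have hlog : 0 < Real.log 2 / Real.pi := div_pos (Real.log_pos (by norm_num)) Real.pi_pos
  refine ⟨min q (Real.log 2 / Real.pi), lt_min hq hlog, ?_⟩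
  intro x
  by_cases hx : Real.exp (-Real.pi * qf (fun _ => 1) x.1) < 1 / 2
  · refine (min_le_right _ _).trans ?_
    have h2 : -Real.pi * qf (fun _ => 1) x.1 < Real.log (1 / 2) :=
      (Real.lt_log_iff_exp_lt (by norm_num)).2 hx
    rw [one_div, Real.log_inv] at h2
    rw [div_le_iff₀ Real.pi_pos]
    linarith
  · exact (min_le_left _ _).trans (hqS x (hfin2.mem_toFinset.2 hx))

theorem GG_le {κ : ℝ} {p : (Fin (Units.rank K) → ℝ) × ℝ} (h : ∀ v : InfinitePlace K,
    κ * Real.exp p.2 ≤ gg p v) (x : K) :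
    GG x p ≤ Real.exp (-Real.pi * (κ * Real.exp p.2 * qf (fun _ => 1) x)) := by
  unfold GG
  apply Real.exp_le_exp.2
  have h1 : κ * Real.exp p.2 * qf (fun _ => 1) x ≤ qf (gg p) x := by
    unfold qf
    rw [Finset.mul_sum]
    apply Finset.sum_le_sum
    intro v _
    have h2 := h v
    have h3 : (0 : ℝ) ≤ (v.mult : ℝ) * (v x) ^ 2 := by positivity
    nlinarith [mul_le_mul_of_nonneg_right h2 h3]
  nlinarith [Real.pi_pos, mul_le_mul_of_nonneg_left h1 Real.pi_pos.le]

theorem qf_const (t : ℝ) (x : K) : qf (fun _ => t) x = t * qf (fun _ => 1) x := by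
  unfold qf
  rw [Finset.mul_sum]
  exact Finset.sum_congr rfl fun v _ => by ring

end Pool.Agent.QD.Z
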