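import Pool.Agent.QD.Z.Defs

/-!
# QDZ-IdEquiv (0.6 h): elements of a fractional ideal and ideals in a class

PROOF.  For `a ∈ Xb b` the fractional ideal `a b` is principal (`ClassGroup.mk_eq_one_iff`, `ClassGroup.mk_mk0`), generated by some
`γ a ∈ K`, `γ a ≠ 0`; choose it.  `γ a ∈ a b ⊆ b`.  `e (a, u) = u γ a`.  Injective: `(u γ a) = a b` as fractional ideals determines `a`
(`b` is invertible), then `u`.  Surjective: for `x ∈ b`, `x ≠ 0`, `(x) b⁻¹ ≤ 1` is an integral nonzero ideal `a` in the class of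
`b⁻¹` (`FractionalIdeal.le_one_iff_exists_coeIdeal`), and `x`, `γ a` generate the same fractional ideal, so they differ by a
unit of `𝓞 K` (`FractionalIdeal.spanSingleton` ...).  Norms: `FractionalIdeal.absNorm_span_singleton`,
`FractionalIdeal.coeIdeal_absNorm`, multiplicativity, and `|norm u| = 1`.
-/

namespace Pool.Agent.QD.Z

open NumberField NumberField.InfinitePlace

open scoped nonZeroDivisors

variable {K : Type} [Field K] [NumberField K]

private theorem gen_exists (b : (FractionalIdeal (𝓞 K)⁰ K)ˣ) (a : Xb b) :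
    ∃ g : K, FractionalIdeal.spanSingleton (𝓞 K)⁰ g =
      ((FractionalIdeal.mk0 K a.1 * b : (FractionalIdeal (𝓞 K)⁰ K)ˣ) :
        FractionalIdeal (𝓞 K)⁰ K) := by
  have h1 : ClassGroup.mk K (FractionalIdeal.mk0 K a.1 * b) = 1 := by
    rw [map_mul, ClassGroup.mk_mk0]
    exact a.2
  rw [ClassGroup.mk_eq_one_iff] at h1
  obtain ⟨x, hx⟩ := h1.principal
  refine ⟨x, ?_⟩
  apply FractionalIdeal.coeToSubmodule_injective
  change ((FractionalIdeal.spanSingleton (𝓞 K)⁰ x : FractionalIdeal (𝓞 K)⁰ K) :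
    Submodule (𝓞 K) K) = _
  rw [FractionalIdeal.coe_spanSingleton]
  exact hx.symm

private theorem span_eq_unit {x y : K} (hx : x ≠ 0)
    (h : FractionalIdeal.spanSingleton (𝓞 K)⁰ x = FractionalIdeal.spanSingleton (𝓞 K)⁰ y) :
    ∃ u : (𝓞 K)ˣ, ((u : 𝓞 K) : K) * x = y := by
  have h1 : x ∈ FractionalIdeal.spanSingleton (𝓞 K)⁰ y := by
    rw [← h]
    exact FractionalIdeal.mem_spanSingleton_self _ _
  have h2 : y ∈ FractionalIdeal.spanSingleton (𝓞 K)⁰ x := by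
    rw [h]
    exact FractionalIdeal.mem_spanSingleton_self _ _
  rw [FractionalIdeal.mem_spanSingleton] at h1 h2
  obtain ⟨z, hz⟩ := h1
  obtain ⟨w, hw⟩ := h2
  rw [Algebra.smul_def] at hz hw
  have hwz : z * w = 1 := by
    apply RingOfIntegers.ext
    change algebraMap (𝓞 K) K (z * w) = algebraMap (𝓞 K) K 1
    rw [map_mul, map_one]
    have h3 : algebraMap (𝓞 K) K z * algebraMap (𝓞 K) K w * x = 1 * x := by
      rw [one_mul, mul_assoc, hw, hz]
    exact mul_right_cancel₀ hx h3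
  exact ⟨⟨w, z, by rw [mul_comm]; exact hwz, hwz⟩, hw⟩

theorem exists_id_equiv (b : (FractionalIdeal (𝓞 K)⁰ K)ˣ) : ∃ e : (Xb b × (𝓞 K)ˣ) ≃ Nz b,
    (∀ (a : Xb b) (u : (𝓞 K)ˣ), (e (a, u)).1 = ((u : 𝓞 K) : K) * (e (a, 1)).1) ∧
    ∀ (a : Xb b), |Algebra.norm ℚ (e (a, 1)).1| =
      FractionalIdeal.absNorm (b : FractionalIdeal (𝓞 K)⁰ K) *
        ((Ideal.absNorm (a.1 : Ideal (𝓞 K)) : ℕ) : ℚ) := by
  classical
  choose g hg using gen_exists b
  have hg0 : ∀ a : Xb b, g a ≠ 0 := by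
    intro a h
    have h1 := hg a
    rw [h, FractionalIdeal.spanSingleton_zero] at h1
    exact (FractionalIdeal.mk0 K a.1 * b).ne_zero h1.symm
  have hgb : ∀ a : Xb b, g a ∈ (b : FractionalIdeal (𝓞 K)⁰ K) := by
    intro a
    have h1 : g a ∈ FractionalIdeal.spanSingleton (𝓞 K)⁰ (g a) :=
      FractionalIdeal.mem_spanSingleton_self _ _
    rw [hg a, Units.val_mul, FractionalIdeal.coe_mk0] at h1
    have h2 : ((a.1 : Ideal (𝓞 K)) : FractionalIdeal (𝓞 K)⁰ K) *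
        (b : FractionalIdeal (𝓞 K)⁰ K) ≤ 1 * (b : FractionalIdeal (𝓞 K)⁰ K) :=
      mul_le_mul_left FractionalIdeal.coeIdeal_le_one _
    rw [one_mul] at h2
    exact h2 h1
  have hu0 : ∀ u : (𝓞 K)ˣ, ((u : 𝓞 K) : K) ≠ 0 := by
    intro u h
    have h1 : ((u : 𝓞 K) : K) = ((0 : 𝓞 K) : K) := by
      rw [h]
      exact (map_zero (algebraMap (𝓞 K) K)).symm
    exact u.ne_zero (RingOfIntegers.ext h1)
  have hsu : ∀ (u : (𝓞 K)ˣ) (x : K), FractionalIdeal.spanSingleton (𝓞 K)⁰ (((u : 𝓞 K) : K) * x) =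
      FractionalIdeal.spanSingleton (𝓞 K)⁰ x := by
    intro u x
    apply le_antisymm
    · rw [FractionalIdeal.spanSingleton_le_iff_mem, FractionalIdeal.mem_spanSingleton]
      exact ⟨(u : 𝓞 K), by rw [Algebra.smul_def]⟩
    · rw [FractionalIdeal.spanSingleton_le_iff_mem, FractionalIdeal.mem_spanSingleton]
      refine ⟨((u⁻¹ : (𝓞 K)ˣ) : 𝓞 K), ?_⟩
      rw [Algebra.smul_def, ← mul_assoc, ← map_mul, Units.inv_mul, map_one, one_mul]
  let f : (Xb b × (𝓞 K)ˣ) → Nz b := fun q =>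
    ⟨((q.2 : 𝓞 K) : K) * g q.1, by
      refine ⟨?_, mul_ne_zero (hu0 q.2) (hg0 q.1)⟩
      have h1 := Submodule.smul_mem
        ((b : FractionalIdeal (𝓞 K)⁰ K) : Submodule (𝓞 K) K) (q.2 : 𝓞 K)
        (FractionalIdeal.mem_coe.mpr (hgb q.1))
      rw [Algebra.smul_def] at h1
      exact FractionalIdeal.mem_coe.mp h1⟩
  have hf : ∀ q, (f q).1 = ((q.2 : 𝓞 K) : K) * g q.1 := fun q => rfl
  have hspan : ∀ q, FractionalIdeal.spanSingleton (𝓞 K)⁰ (f q).1 =
      ((FractionalIdeal.mk0 K q.1.1 * b : (FractionalIdeal (𝓞 K)⁰ K)ˣ) :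
        FractionalIdeal (𝓞 K)⁰ K) := by
    intro q
    rw [hf, hsu, hg]
  have hinj : Function.Injective f := by
    rintro ⟨a, u⟩ ⟨a', u'⟩ h
    have h1 := hspan (a, u)
    rw [h, hspan (a', u')] at h1
    have h2 : FractionalIdeal.mk0 K a'.1 * b = FractionalIdeal.mk0 K a.1 * b := Units.ext h1
    have h3 : FractionalIdeal.mk0 K a'.1 = FractionalIdeal.mk0 K a.1 := mul_right_cancel h2
    have h4 : ((a'.1 : Ideal (𝓞 K)) : FractionalIdeal (𝓞 K)⁰ K) = ((a.1 : Ideal (𝓞 K)) :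
        FractionalIdeal (𝓞 K)⁰ K) := by
      rw [← FractionalIdeal.coe_mk0, ← FractionalIdeal.coe_mk0, h3]
    have h5 : (a'.1 : Ideal (𝓞 K)) = (a.1 : Ideal (𝓞 K)) := FractionalIdeal.coeIdeal_injective h4
    have h6 : a' = a := Subtype.ext (Subtype.ext h5)
    subst h6
    have h7 : ((u : 𝓞 K) : K) * g a' = ((u' : 𝓞 K) : K) * g a' := by
      have := congrArg Subtype.val h
      rw [hf, hf] at this
      exact this
    have h8 : ((u : 𝓞 K) : K) = ((u' : 𝓞 K) : K) := mul_right_cancel₀ (hg0 a') h7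
    have h9 : u = u' := Units.ext (RingOfIntegers.ext h8)
    rw [h9]
  have hsurj : Function.Surjective f := by
    rintro ⟨x, hxb, hx0⟩
    have h1 : FractionalIdeal.spanSingleton (𝓞 K)⁰ x *
        ((b⁻¹ : (FractionalIdeal (𝓞 K)⁰ K)ˣ) : FractionalIdeal (𝓞 K)⁰ K) ≤ 1 := by
      have h2 : FractionalIdeal.spanSingleton (𝓞 K)⁰ x ≤ (b : FractionalIdeal (𝓞 K)⁰ K) :=
        FractionalIdeal.spanSingleton_le_iff_mem.mpr hxb
      have h3 := mul_le_mul_left h2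
        (((b⁻¹ : (FractionalIdeal (𝓞 K)⁰ K)ˣ) : FractionalIdeal (𝓞 K)⁰ K))
      rw [Units.mul_inv] at h3
      exact h3
    obtain ⟨I, hI⟩ := FractionalIdeal.le_one_iff_exists_coeIdeal.mp h1
    have hI0 : I ≠ ⊥ := by
      rintro rfl
      rw [FractionalIdeal.coeIdeal_bot] at hI
      have h4 : FractionalIdeal.spanSingleton (𝓞 K)⁰ x = 0 := by
        have h5 : FractionalIdeal.spanSingleton (𝓞 K)⁰ x *
            ((b⁻¹ : (FractionalIdeal (𝓞 K)⁰ K)ˣ) : FractionalIdeal (𝓞 K)⁰ K) *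
            (b : FractionalIdeal (𝓞 K)⁰ K) = 0 := by
          rw [← hI, zero_mul]
        rwa [mul_assoc, Units.inv_mul, mul_one] at h5
      rw [FractionalIdeal.spanSingleton_eq_zero_iff] at h4
      exact hx0 h4
    have hImem : I ∈ (Ideal (𝓞 K))⁰ := mem_nonZeroDivisors_iff_ne_zero.mpr hI0
    have hprod : ((FractionalIdeal.mk0 K ⟨I, hImem⟩ * b : (FractionalIdeal (𝓞 K)⁰ K)ˣ) :
        FractionalIdeal (𝓞 K)⁰ K) = FractionalIdeal.spanSingleton (𝓞 K)⁰ x := by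
      rw [Units.val_mul, FractionalIdeal.coe_mk0]
      change ((I : FractionalIdeal (𝓞 K)⁰ K)) * _ = _
      rw [hI, mul_assoc, Units.inv_mul, mul_one]
    have hcl : ClassGroup.mk0 (⟨I, hImem⟩ : (Ideal (𝓞 K))⁰) * ClassGroup.mk K b = 1 := by
      rw [← ClassGroup.mk_mk0 K, ← map_mul, ClassGroup.mk_eq_one_iff]
      refine ⟨⟨x, ?_⟩⟩
      rw [hprod, FractionalIdeal.coe_spanSingleton]
    have h6 : FractionalIdeal.spanSingleton (𝓞 K)⁰ (g ⟨⟨I, hImem⟩, hcl⟩) =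
        FractionalIdeal.spanSingleton (𝓞 K)⁰ x := by
      rw [hg, hprod]
    obtain ⟨u, hu⟩ := span_eq_unit (hg0 _) h6
    exact ⟨(⟨⟨I, hImem⟩, hcl⟩, u), Subtype.ext hu⟩
  refine ⟨Equiv.ofBijective f ⟨hinj, hsurj⟩, ?_, ?_⟩
  · intro a u
    rw [Equiv.ofBijective_apply, Equiv.ofBijective_apply, hf, hf]
    simp only [Units.val_one, map_one, one_mul]
  · intro a
    rw [Equiv.ofBijective_apply, ← FractionalIdeal.absNorm_span_singleton (𝓞 K), hspan,
      Units.val_mul, map_mul, FractionalIdeal.coe_mk0, FractionalIdeal.coeIdeal_absNorm, mul_comm]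

end Pool.Agent.QD.Z
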