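import Pool.Agent.QD.Z.Defs

/-!
# QDZ-UnEquiv (0.2 h): units = torsion × ℤ ^ r

PROOF.  `Units.exist_unique_eq_mul_prod` (`Equiv.ofBijective`).  `exists_perm`-free.  Class sums: `Xb (rep C)` is the set of the nonzero
ideals of class `(mk (rep C))⁻¹`; the classes `(mk (rep C))⁻¹` run through `ClassGroup` once (`hrep` bijective), so the
nonzero ideals are the disjoint union: `Σ C, Xb (rep C) ≃ (Ideal (𝓞 K))⁰`, `Summable.tsum_sigma`/`tsum_fintype`.
-/

namespace Pool.Agent.QD.Z

open NumberField NumberField.InfinitePlace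

open scoped nonZeroDivisors

variable {K : Type} [Field K] [NumberField K]

variable (K) in
theorem exists_un_equiv : ∃ e : (Units.torsion K × (Fin (Units.rank K) → ℤ)) ≃ (𝓞 K)ˣ,
    ∀ (ζ : Units.torsion K) (m : Fin (Units.rank K) → ℤ), e (ζ, m) = (ζ : (𝓞 K)ˣ) * um m := by
  have hb : Function.Bijective (fun ζm : Units.torsion K × (Fin (Units.rank K) → ℤ) =>
      (ζm.1 : (𝓞 K)ˣ) * um ζm.2) := by
    constructor
    · intro a b h
      exact (Units.exist_unique_eq_mul_prod K ((a.1 : (𝓞 K)ˣ) * um a.2)).unique rfl h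
    · intro x
      obtain ⟨a, ha, _⟩ := Units.exist_unique_eq_mul_prod K x
      exact ⟨a, ha.symm⟩
  exact ⟨Equiv.ofBijective _ hb, fun ζ m => rfl⟩

theorem class_sum [Fintype (ClassGroup (𝓞 K))]
    (rep : ClassGroup (𝓞 K) → (FractionalIdeal (𝓞 K)⁰ K)ˣ)
    (hrep : Function.Bijective fun C => ClassGroup.mk K (rep C)) (f : (Ideal (𝓞 K))⁰ → ℂ)
    (hf : Summable f) :
    ∑ C, ∑' a : Xb (rep C), f a.1 = ∑' a, f a := by
  have hb : Function.Bijective (fun x : Σ C : ClassGroup (𝓞 K), Xb (rep C) => x.2.1) := by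
    constructor
    · rintro ⟨C, a, ha⟩ ⟨C', a', ha'⟩ h
      change a = a' at h
      subst h
      have h1 : ClassGroup.mk K (rep C) = ClassGroup.mk K (rep C') :=
        mul_left_cancel (ha.trans ha'.symm)
      have h2 : C = C' := hrep.1 h1
      subst h2
      rfl
    · intro a
      obtain ⟨C, hC⟩ := hrep.2 (ClassGroup.mk0 a)⁻¹
      refine ⟨⟨C, a, ?_⟩, rfl⟩
      change ClassGroup.mk K (rep C) = (ClassGroup.mk0 a)⁻¹ at hC
      rw [hC, mul_inv_cancel]
  let e := Equiv.ofBijective _ hb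
  have hs : Summable (fun x : Σ C : ClassGroup (𝓞 K), Xb (rep C) => f x.2.1) :=
    e.summable_iff.2 hf
  rw [← e.tsum_eq f]
  change _ = ∑' x : Σ C : ClassGroup (𝓞 K), Xb (rep C), f x.2.1
  rw [Summable.tsum_sigma hs, tsum_fintype]

/-- complete systems of representatives, and their duals -/
theorem exists_rep : ∃ rep : ClassGroup (𝓞 K) → (FractionalIdeal (𝓞 K)⁰ K)ˣ,
    (Function.Bijective fun C => ClassGroup.mk K (rep C)) ∧
    Function.Bijective fun C => ClassGroup.mk K (dl (rep C)) := by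
  have hsurj : ∀ C : ClassGroup (𝓞 K), ∃ b : (FractionalIdeal (𝓞 K)⁰ K)ˣ,
      ClassGroup.mk K b = C := by
    intro C
    obtain ⟨I, rfl⟩ := ClassGroup.mk0_surjective C
    exact ⟨FractionalIdeal.mk0 K I, ClassGroup.mk_mk0 K I⟩
  choose rep hrep using hsurj
  refine ⟨rep, ?_, ?_⟩
  · have h1 : (fun C => ClassGroup.mk K (rep C)) = id := by
      funext C
      exact hrep C
    rw [h1]
    exact Function.bijective_id
  · have h1 : (fun C => ClassGroup.mk K (dl (rep C))) = fun C =>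
        ClassGroup.mk K (Units.mk0 (FractionalIdeal.dual ℤ ℚ (1 : FractionalIdeal (𝓞 K)⁰ K))
          (FractionalIdeal.dual_ne_zero ℤ ℚ one_ne_zero)) * C⁻¹ := by
      funext C
      unfold dl
      rw [map_mul, map_inv, hrep]
    rw [h1]
    exact (Group.mulLeft_bijective _).comp (MulEquiv.inv _).bijective

end Pool.Agent.QD.Z
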