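import Pool.Agent.QD.Z.MuSum
import Pool.Agent.QD.Z.IdEquiv
import Pool.Agent.QD.Z.UnEquiv
import Pool.Agent.QD.Z.Euler

/-!
# QDZ-SumMu (0.6 h): sum over the nonzero elements of a fractional ideal

PROOF.  Compose `exists_id_equiv b` and `exists_un_equiv K`: an equivalence `Xb b × (torsion × (Fin r → ℤ)) ≃ Nz b`,
`(a, ζ, m) ↦ ζ * (um m * γ a)`, `γ a = (e (a, 1)).1`, `|norm (γ a)| = N b * N a`.  `nu` at it is `nu (um m * γ a)`
(`nu_torsion`).  Summability of a nonnegative function on a product: `summable_prod_of_nonneg` (twice); the sum over `m` is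
`c * |norm (γ a)| ^ (-σ) * Re gamK σ` (`hasSum_nu_um`), the torsion group is finite (`Units.torsionOrder K = card`), and
`∑_a (N b * N a) ^ (-σ)` converges by `summable_ideal` restricted to the subtype `Xb b` (`Summable.subtype`/`comp_injective`).
`tsum_mu`: summability of `mu` from `norm_mu_le` and `summable_nu`; then `Equiv.tsum_eq`, `Summable.tsum_prod`,
`hasSum_mu_um`, `tsum_mul_left`, `Complex.mul_cpow_ofReal_nonneg` for `(N b * N a) ^ (-w)`.
-/

namespace Pool.Agent.QD.Z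

open NumberField NumberField.InfinitePlace MeasureTheory

open scoped nonZeroDivisors

variable {K : Type} [Field K] [NumberField K]

/-- the composite equivalence -/
private theorem exists_equiv (b : (FractionalIdeal (𝓞 K)⁰ K)ˣ) :
    ∃ (E : (Xb b × (Units.torsion K × (Fin (Units.rank K) → ℤ))) ≃ Nz b) (γ : Xb b → K),
      (∀ a ζ m, (E (a, (ζ, m))).1 =
        (((ζ : (𝓞 K)ˣ) : 𝓞 K) : K) * (((um m : 𝓞 K) : K) * γ a)) ∧
      (∀ a, γ a ≠ 0) ∧
      ∀ (a : Xb b), |Algebra.norm ℚ (γ a)| =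
        FractionalIdeal.absNorm (b : FractionalIdeal (𝓞 K)⁰ K) *
          ((Ideal.absNorm (a.1 : Ideal (𝓞 K)) : ℕ) : ℚ) := by
  obtain ⟨e, he, hn⟩ := exists_id_equiv b
  obtain ⟨eu, heu⟩ := exists_un_equiv K
  refine ⟨(Equiv.prodCongr (Equiv.refl _) eu).trans e, fun a => (e (a, 1)).1, ?_, ?_, hn⟩
  · intro a ζ m
    simp only [Equiv.trans_apply, Equiv.prodCongr_apply, Prod.map_apply, Equiv.refl_apply]
    rw [he, heu]
    push_cast
    ring
  · intro a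
    exact (e (a, 1)).2.2

private theorem absNorm_pos (b : (FractionalIdeal (𝓞 K)⁰ K)ˣ) (a : Xb b) :
    0 < Ideal.absNorm (a.1 : Ideal (𝓞 K)) := by
  rw [Nat.pos_iff_ne_zero]
  intro h
  rw [Ideal.absNorm_eq_zero_iff] at h
  exact nonZeroDivisors.coe_ne_zero a.1 h

private theorem nb_nonneg (b : (FractionalIdeal (𝓞 K)⁰ K)ˣ) :
    0 ≤ ((FractionalIdeal.absNorm (b : FractionalIdeal (𝓞 K)⁰ K) : ℚ) : ℝ) := by
  have h := FractionalIdeal.absNorm_nonneg (b : FractionalIdeal (𝓞 K)⁰ K)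
  exact_mod_cast h

theorem summable_nu {c : ℝ} (hc : IsConst K c) (b : (FractionalIdeal (𝓞 K)⁰ K)ˣ) (σ : ℝ)
    (hσ : 1 < σ) :
    Summable fun x : Nz b => nu ((Module.finrank ℚ K : ℝ) * σ / 2) x.1 := by
  obtain ⟨E, γ, hE, hγ, hn⟩ := exists_equiv b
  rw [← E.summable_iff]
  have h0 : (0 : Xb b × (Units.torsion K × (Fin (Units.rank K) → ℤ)) → ℝ) ≤
      ((fun x : Nz b => nu ((Module.finrank ℚ K : ℝ) * σ / 2) x.1) ∘ E) := by
    intro p
    exact nu_nonneg _ _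
  rw [summable_prod_of_nonneg h0]
  have hval : ∀ (a : Xb b) (q : Units.torsion K × (Fin (Units.rank K) → ℤ)),
      ((fun x : Nz b => nu ((Module.finrank ℚ K : ℝ) * σ / 2) x.1) ∘ E) (a, q) =
        nu ((Module.finrank ℚ K : ℝ) * σ / 2) (((um q.2 : 𝓞 K) : K) * γ a) := by
    rintro a ⟨ζ, m⟩
    simp only [Function.comp_apply]
    rw [hE, nu_torsion]
  have hs1 : ∀ a : Xb b, Summable fun q : Units.torsion K × (Fin (Units.rank K) → ℤ) =>
      nu ((Module.finrank ℚ K : ℝ) * σ / 2) (((um q.2 : 𝓞 K) : K) * γ a) := by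
    intro a
    rw [summable_prod_of_nonneg (fun p => nu_nonneg _ _)]
    exact ⟨fun ζ => (hasSum_nu_um hc (γ a) (hγ a) σ (by linarith)).summable,
      Summable.of_finite⟩
  have hs2 : ∀ a : Xb b, ∑' q : Units.torsion K × (Fin (Units.rank K) → ℤ),
      nu ((Module.finrank ℚ K : ℝ) * σ / 2) (((um q.2 : 𝓞 K) : K) * γ a) =
      ((Units.torsionOrder K : ℝ) * c * (gamK K (σ : ℂ)).re *
        ((FractionalIdeal.absNorm (b : FractionalIdeal (𝓞 K)⁰ K) : ℚ) : ℝ) ^ (-σ)) *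
        ‖((Ideal.absNorm (a.1 : Ideal (𝓞 K)) : ℕ) : ℂ) ^ (-(σ : ℂ))‖ := by
    intro a
    rw [(hs1 a).tsum_prod]
    dsimp only
    rw [(hasSum_nu_um hc (γ a) (hγ a) σ (by linarith)).tsum_eq]
    rw [tsum_const, nsmul_eq_mul, hn a]
    have h2 : ‖((Ideal.absNorm (a.1 : Ideal (𝓞 K)) : ℕ) : ℂ) ^ (-(σ : ℂ))‖ =
        ((Ideal.absNorm (a.1 : Ideal (𝓞 K)) : ℕ) : ℝ) ^ (-σ) := by
      rw [Complex.norm_natCast_cpow_of_pos (absNorm_pos b a)]
      simp
    rw [h2]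
    push_cast
    rw [Real.mul_rpow (nb_nonneg b) (Nat.cast_nonneg _)]
    unfold Units.torsionOrder
    ring
  refine ⟨fun a => ?_, ?_⟩
  · simp only [hval]
    exact hs1 a
  · simp only [hval, hs2]
    refine Summable.mul_left _ ?_
    exact (summable_ideal K (σ : ℂ) (by simpa using hσ)).comp_injective Subtype.val_injective

theorem tsum_mu {c : ℝ} (hc : IsConst K c) (b : (FractionalIdeal (𝓞 K)⁰ K)ˣ) (w : ℂ)
    (hw : 1 < w.re) :
    ∑' x : Nz b, mu ((Module.finrank ℚ K : ℂ) * w / 2) x.1 =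
      (Units.torsionOrder K : ℂ) * (c : ℂ) * gamK K w *
        (((FractionalIdeal.absNorm (b : FractionalIdeal (𝓞 K)⁰ K) : ℚ) : ℝ) : ℂ) ^ (-w) *
        ∑' a : Xb b, ((Ideal.absNorm (a.1 : Ideal (𝓞 K)) : ℕ) : ℂ) ^ (-w) := by
  have hsum : Summable fun x : Nz b => mu ((Module.finrank ℚ K : ℂ) * w / 2) x.1 :=
    Summable.of_norm_bounded (summable_nu hc b w.re hw)
      fun x => norm_mu_le hc x.1 x.2.2 w (by linarith)
  obtain ⟨E, γ, hE, hγ, hn⟩ := exists_equiv b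
  rw [← E.tsum_eq (fun x : Nz b => mu ((Module.finrank ℚ K : ℂ) * w / 2) x.1)]
  have hsum' := (E.summable_iff (f := fun x : Nz b =>
    mu ((Module.finrank ℚ K : ℂ) * w / 2) x.1)).mpr hsum
  have hval : ∀ (a : Xb b) (q : Units.torsion K × (Fin (Units.rank K) → ℤ)),
      mu ((Module.finrank ℚ K : ℂ) * w / 2) (E (a, q)).1 =
        mu ((Module.finrank ℚ K : ℂ) * w / 2) (((um q.2 : 𝓞 K) : K) * γ a) := by
    rintro a ⟨ζ, m⟩
    rw [hE, mu_torsion]
  refine (Summable.tsum_prod hsum').trans ?_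
  rw [← tsum_mul_left]
  refine tsum_congr fun a => ?_
  have hs1 := hsum'.prod_factor a
  simp only [Function.comp_apply, hval] at hs1
  simp only [Function.comp_apply, hval]
  rw [hs1.tsum_prod]
  dsimp only
  rw [(hasSum_mu_um hc (γ a) (hγ a) w (by linarith)).tsum_eq]
  rw [tsum_const, nsmul_eq_mul, hn a]
  have h2 : (((((FractionalIdeal.absNorm (b : FractionalIdeal (𝓞 K)⁰ K) : ℚ) *
      ((Ideal.absNorm (a.1 : Ideal (𝓞 K)) : ℕ) : ℚ) : ℚ) : ℝ)) : ℂ) ^ (-w) =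
      (((FractionalIdeal.absNorm (b : FractionalIdeal (𝓞 K)⁰ K) : ℚ) : ℝ) : ℂ) ^ (-w) *
        ((Ideal.absNorm (a.1 : Ideal (𝓞 K)) : ℕ) : ℂ) ^ (-w) := by
    have h3 := Complex.mul_cpow_ofReal_nonneg (nb_nonneg b)
      (Nat.cast_nonneg (α := ℝ) (Ideal.absNorm (a.1 : Ideal (𝓞 K)))) (-w)
    push_cast at h3 ⊢
    exact h3
  rw [h2]
  unfold Units.torsionOrder
  ring

end Pool.Agent.QD.Z
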