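import Pool.Agent.QD.Z.HBox
import Pool.Agent.QD.Z.SumMu

/-!
# QDZ-HMel (0.6 h): Mellin transform of the averaged theta function

PROOF.  `s = n w / 2`.  For each `x ∈ Nz b` the function `p ↦ GG x p * exp (s p.2)` is integrable on `boxR` (restriction of
`IsConst`), so by Fubini (`Measure.volume_eq_prod`, `Measure.prod_restrict`, `integral_prod_symm`, `Integrable.integral_prod_right`)
`h_x ρ = (∫_{a ∈ box} GG x (a, ρ)) exp (s ρ)` is integrable on `ℝ` with integral `mu s x`, and
`∫ ‖h_x‖ = nu (Re s) x` (`GG ≥ 0`), summable by `summable_nu`.  `hasSum_integral_of_summable_integral_norm` (and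
`integrable` of the sum: `MeasureTheory.integrable_tsum`-type result, or `Integrable` from `hasSum` via
`MeasureTheory.hasSum_integral_of_summable_integral_norm` + `integrable_of_summable_norm...`; one can also bound
`∫⁻ ‖∑' h_x‖ₑ ≤ ∑' ∫⁻ ‖h_x‖ₑ`, measurability from `HH_antitone`).  `∑' x, h_x ρ = HH b ρ * exp (s ρ)`
(`Complex.ofReal_tsum`, `tsum_mul_right`).
-/

namespace Pool.Agent.QD.Z

open NumberField NumberField.InfinitePlace MeasureTheory

open scoped nonZeroDivisors

variable {K : Type} [Field K] [NumberField K]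

private theorem countable_K (K : Type) [Field K] [NumberField K] : Countable K :=
  (Module.finBasis ℚ K).equivFun.toEquiv.countable_iff.mpr inferInstance

theorem HH_mellin {c : ℝ} (hc : IsConst K c) (b : (FractionalIdeal (𝓞 K)⁰ K)ˣ) (w : ℂ)
    (hw : 1 < w.re) :
    Integrable (fun ρ : ℝ => (HH b ρ : ℂ) *
      Complex.exp ((Module.finrank ℚ K : ℂ) * w / 2 * (ρ : ℂ))) ∧
    ∫ ρ : ℝ, (HH b ρ : ℂ) * Complex.exp ((Module.finrank ℚ K : ℂ) * w / 2 * (ρ : ℂ)) =
      ∑' x : Nz b, mu ((Module.finrank ℚ K : ℂ) * w / 2) x.1 := by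
  have hw0 : 0 < w.re := by linarith
  set s : ℂ := (Module.finrank ℚ K : ℂ) * w / 2 with hs
  have hsre : s.re = (Module.finrank ℚ K : ℝ) * w.re / 2 := by
    rw [hs, show (Module.finrank ℚ K : ℂ) * w / 2 =
      ((((Module.finrank ℚ K : ℝ) / 2 : ℝ)) : ℂ) * w by push_cast; ring, Complex.re_ofReal_mul]
    ring
  have : Countable K := countable_K K
  set I : Nz b → ℝ → ℝ := fun x ρ => ∫ a in box (Units.rank K), GG x.1 (a, ρ) with hI
  set h : Nz b → ℝ → ℂ := fun x ρ => (I x ρ : ℂ) * Complex.exp (s * (ρ : ℂ)) with hh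
  have hGG0 : ∀ (x : K) p, 0 ≤ GG x p := fun x p => (Real.exp_pos _).le
  have hI0 : ∀ x ρ, 0 ≤ I x ρ := fun x ρ => integral_nonneg fun a => hGG0 _ _
  have hexp : ∀ ρ : ℝ, ‖Complex.exp (s * (ρ : ℂ))‖ = Real.exp (s.re * ρ) := by
    intro ρ
    rw [Complex.norm_exp, Complex.re_mul_ofReal]
  have hnorm : ∀ x ρ, ‖h x ρ‖ = I x ρ * Real.exp (s.re * ρ) := by
    intro x ρ
    rw [hh]
    simp only
    rw [norm_mul, Complex.norm_real, hexp, Real.norm_of_nonneg (hI0 x ρ)]
  have hres : (volume : Measure ((Fin (Units.rank K) → ℝ) × ℝ)).restrict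
      (boxR (Units.rank K)) = (volume.restrict (box (Units.rank K))).prod volume := by
    rw [Measure.volume_eq_prod, boxR, ← Measure.prod_restrict, Measure.restrict_univ]
  have hint : ∀ x : Nz b, Integrable (fun p : (Fin (Units.rank K) → ℝ) × ℝ =>
      (GG x.1 p : ℂ) * Complex.exp (s * (p.2 : ℂ)))
      ((volume.restrict (box (Units.rank K))).prod volume) := by
    intro x
    rw [← hres]
    exact ((hc.2 x.1 x.2.2 w hw0).1).integrableOn
  have hfub : ∀ x : Nz b, (fun ρ : ℝ => ∫ a in box (Units.rank K),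
      (GG x.1 (a, ρ) : ℂ) * Complex.exp (s * (ρ : ℂ))) = h x := by
    intro x
    funext ρ
    rw [integral_mul_const, integral_complex_ofReal]
  have h1 : ∀ x, Integrable (h x) := by
    intro x
    rw [← hfub x]
    exact (hint x).integral_prod_right
  have h2 : ∀ x : Nz b, ∫ ρ, h x ρ = mu s x.1 := by
    intro x
    rw [← hfub x, mu, hres, integral_prod_symm _ (hint x)]
  have h3 : ∀ x : Nz b, ∫ ρ, ‖h x ρ‖ = nu s.re x.1 := by
    intro x
    have hintr : Integrable (fun p : (Fin (Units.rank K) → ℝ) × ℝ =>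
        GG x.1 p * Real.exp (s.re * p.2))
        ((volume.restrict (box (Units.rank K))).prod volume) := by
      refine (hint x).norm.congr (Filter.Eventually.of_forall fun p => ?_)
      simp only
      rw [norm_mul, Complex.norm_real, hexp, Real.norm_of_nonneg (hGG0 _ _)]
    rw [nu, hres, integral_prod_symm _ hintr]
    refine integral_congr_ae (Filter.Eventually.of_forall fun ρ => ?_)
    simp only [hnorm, integral_mul_const]
    rfl
  have hsumm : Summable fun x : Nz b => ∫ ρ, ‖h x ρ‖ := by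
    have := summable_nu hc b w.re hw
    rw [← hsre] at this
    exact this.congr fun x => (h3 x).symm
  have hsumI : ∀ ρ, Summable fun x : Nz b => I x ρ := fun ρ => summable_HH b ρ
  have hts : ∀ ρ : ℝ, ∑' x, h x ρ = (HH b ρ : ℂ) * Complex.exp (s * (ρ : ℂ)) := by
    intro ρ
    rw [hh]
    simp only
    rw [tsum_mul_right, ← Complex.ofReal_tsum]
    rfl
  have hfun : (fun ρ : ℝ => (HH b ρ : ℂ) * Complex.exp (s * (ρ : ℂ))) = fun ρ => ∑' x, h x ρ := by
    funext ρ
    exact (hts ρ).symm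
  rw [hfun]
  refine ⟨⟨?_, ?_⟩, ?_⟩
  · rw [← hfun]
    refine (Measurable.aestronglyMeasurable ?_)
    exact (Complex.measurable_ofReal.comp (HH_antitone b).measurable).mul (by fun_prop)
  · calc ∫⁻ ρ, ‖∑' x, h x ρ‖ₑ ≤ ∫⁻ ρ, ∑' x, ‖h x ρ‖ₑ :=
          lintegral_mono fun ρ => enorm_tsum_le_tsum_enorm
      _ = ∑' x, ∫⁻ ρ, ‖h x ρ‖ₑ := lintegral_tsum fun x => (h1 x).1.enorm
      _ = ∑' x, ENNReal.ofReal (∫ ρ, ‖h x ρ‖) := by
          refine tsum_congr fun x => ?_
          rw [ofReal_integral_norm_eq_lintegral_enorm (h1 x)]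
      _ < ⊤ := hsumm.tsum_ofReal_lt_top
  · rw [← (hasSum_integral_of_summable_integral_norm h1 hsumm).tsum_eq]
    exact tsum_congr h2

end Pool.Agent.QD.Z
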