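import Pool.Agent.QD.Z.Period
import Pool.Agent.QD.Z.Unfold

/-!
# QDZ-MuSum (0.4 h): sum over a unit orbit

PROOF.  `hasSum_unfold` applied to the integrand of `IsConst` for `x`; the term for `m` is `mu (n w / 2) (um m * x)` by
`GG_um` (and `(shf m p).2 = p.2`).  The absolute version: `hasSum_unfold` applied to the norm of the integrand,
`‖GG x p * exp (s ρ)‖ = GG x p * exp (Re s ρ)`; its integral is the value of `IsConst` at the real point `w.re` (compare real parts: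
`integral_ofReal`, `Complex.ofReal_exp`).
-/

namespace Pool.Agent.QD.Z

open NumberField NumberField.InfinitePlace MeasureTheory

variable {K : Type} [Field K] [NumberField K]

private theorem ms_GG_nonneg (x : K) (p : (Fin (Units.rank K) → ℝ) × ℝ) : 0 ≤ GG x p := by
  unfold GG
  positivity

private theorem ms_ofReal (x : K) (σ : ℝ) (p : (Fin (Units.rank K) → ℝ) × ℝ) :
    (GG x p : ℂ) * Complex.exp ((Module.finrank ℚ K : ℂ) * (σ : ℂ) / 2 * (p.2 : ℂ)) =
      ((GG x p * Real.exp ((Module.finrank ℚ K : ℝ) * σ / 2 * p.2) : ℝ) : ℂ) := by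
  push_cast
  rfl

theorem hasSum_mu_um {c : ℝ} (hc : IsConst K c) (x : K) (hx : x ≠ 0) (w : ℂ) (hw : 0 < w.re) :
    HasSum (fun m : Fin (Units.rank K) → ℤ =>
      mu ((Module.finrank ℚ K : ℂ) * w / 2) (((um m : 𝓞 K) : K) * x))
      ((c : ℂ) * (((|Algebra.norm ℚ x| : ℚ) : ℝ) : ℂ) ^ (-w) * gamK K w) := by
  obtain ⟨h1, h2⟩ := hc.2 x hx w hw
  have h3 := hasSum_unfold _ h1
  rw [h2] at h3
  have h4 : (fun m : Fin (Units.rank K) → ℤ =>
      mu ((Module.finrank ℚ K : ℂ) * w / 2) (((um m : 𝓞 K) : K) * x)) =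
      fun m => ∫ p in boxR (Units.rank K), (GG x (shf m p) : ℂ) *
        Complex.exp ((Module.finrank ℚ K : ℂ) * w / 2 * ((shf m p).2 : ℂ)) := by
    funext m
    unfold mu
    simp only [GG_um, shf]
  rw [h4]
  exact h3

theorem hasSum_nu_um {c : ℝ} (hc : IsConst K c) (x : K) (hx : x ≠ 0) (σ : ℝ) (hσ : 0 < σ) :
    HasSum (fun m : Fin (Units.rank K) → ℤ =>
      nu ((Module.finrank ℚ K : ℝ) * σ / 2) (((um m : 𝓞 K) : K) * x))
      (c * (((|Algebra.norm ℚ x| : ℚ) : ℝ)) ^ (-σ) * (gamK K (σ : ℂ)).re) := by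
  obtain ⟨h1, h2⟩ := hc.2 x hx (σ : ℂ) (by simpa using hσ)
  simp only [ms_ofReal] at h1 h2
  have h1' : Integrable (fun p : (Fin (Units.rank K) → ℝ) × ℝ =>
      GG x p * Real.exp ((Module.finrank ℚ K : ℝ) * σ / 2 * p.2)) := by
    have h5 := h1.re
    simp only [RCLike.re_to_complex, Complex.ofReal_re] at h5
    exact h5
  have h3 := hasSum_unfold _ h1'
  have h6 : (∫ p : (Fin (Units.rank K) → ℝ) × ℝ,
      GG x p * Real.exp ((Module.finrank ℚ K : ℝ) * σ / 2 * p.2)) =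
      c * (((|Algebra.norm ℚ x| : ℚ) : ℝ)) ^ (-σ) * (gamK K (σ : ℂ)).re := by
    rw [integral_complex_ofReal] at h2
    have hN : (0 : ℝ) ≤ ((|Algebra.norm ℚ x| : ℚ) : ℝ) := by
      exact_mod_cast abs_nonneg (Algebra.norm ℚ x)
    rw [← Complex.ofReal_neg, ← Complex.ofReal_cpow hN, ← Complex.ofReal_mul] at h2
    have h7 := congrArg Complex.re h2
    rw [Complex.ofReal_re, Complex.re_ofReal_mul] at h7
    exact h7
  rw [h6] at h3
  have h4 : (fun m : Fin (Units.rank K) → ℤ =>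
      nu ((Module.finrank ℚ K : ℝ) * σ / 2) (((um m : 𝓞 K) : K) * x)) =
      fun m => ∫ p in boxR (Units.rank K), GG x (shf m p) *
        Real.exp ((Module.finrank ℚ K : ℝ) * σ / 2 * (shf m p).2) := by
    funext m
    unfold nu
    simp only [GG_um, shf]
  rw [h4]
  exact h3

theorem norm_mu_le {c : ℝ} (hc : IsConst K c) (x : K) (hx : x ≠ 0) (w : ℂ) (hw : 0 < w.re) :
    ‖mu ((Module.finrank ℚ K : ℂ) * w / 2) x‖ ≤ nu ((Module.finrank ℚ K : ℝ) * w.re / 2) x := by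
  unfold mu nu
  refine (norm_integral_le_integral_norm _).trans (le_of_eq ?_)
  congr 1
  funext p
  rw [norm_mul, Complex.norm_real, Real.norm_of_nonneg (ms_GG_nonneg x p), Complex.norm_exp]
  congr 2
  have h1 : (Module.finrank ℚ K : ℂ) * w / 2 * (p.2 : ℂ) =
      (((Module.finrank ℚ K : ℝ) / 2 * p.2 : ℝ) : ℂ) * w := by
    push_cast
    ring
  rw [h1, Complex.re_ofReal_mul]
  ring

theorem nu_nonneg (σ : ℝ) (x : K) : 0 ≤ nu σ x := by
  unfold nu
  refine integral_nonneg fun p => ?_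
  unfold GG
  positivity

theorem mu_torsion (s : ℂ) (ζ : Units.torsion K) (x : K) :
    mu s ((((ζ : (𝓞 K)ˣ) : 𝓞 K) : K) * x) = mu s x := by
  unfold mu
  simp only [GG_torsion]

theorem nu_torsion (σ : ℝ) (ζ : Units.torsion K) (x : K) :
    nu σ ((((ζ : (𝓞 K)ˣ) : 𝓞 K) : K) * x) = nu σ x := by
  unfold nu
  simp only [GG_torsion]

end Pool.Agent.QD.Z
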