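import Pool.Agent.QD.Z.ThetaB
import Pool.Agent.QD.Z.FracDual

/-!
# QDZ-Theta (0.4 h): theta transformation for fractional ideals

PROOF.  `ω = basisOfFractionalIdeal K b` (index set `Module.Free.ChooseBasisIndex ℤ _`; classical decidable equality).  The map
`m ↦ ∑ m_i ω_i` is a bijection from `ι → ℤ` onto `{x // x ∈ b}` (`mem_span_basisOfFractionalIdeal`,
`Submodule.mem_span_range_iff_exists_fun`/`Fintype.mem_span...`, injective by linear independence over `ℚ`), in the same way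
`m ↦ ∑ m_i ω'_i` (trace dual basis) onto `{x // x ∈ dl b}` (`mem_dl`).  Transport the sums of `theta_basis` by
`Equiv.tsum_eq`, `Equiv.summable_iff`; `Dv_eq`.
-/

namespace Pool.Agent.QD.Z

open NumberField NumberField.InfinitePlace

open scoped nonZeroDivisors

variable {K : Type} [Field K] [NumberField K]

omit [NumberField K] in
private theorem exists_lat_equiv [CharZero K] {ι : Type} [Fintype ι] (ω : Module.Basis ι ℚ K)
    (P : K → Prop) (hP : ∀ x, P x ↔ x ∈ Submodule.span ℤ (Set.range ω)) :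
    ∃ e : (ι → ℤ) ≃ {x : K // P x}, ∀ m, (e m).1 = ∑ i, (m i : ℚ) • ω i := by
  have hs : ∀ m : ι → ℤ, ∑ i, (m i : ℚ) • ω i = ∑ i, m i • ω i := by
    intro m
    refine Finset.sum_congr rfl fun i _ => ?_
    rw [Int.cast_smul_eq_zsmul]
  have hmem : ∀ m : ι → ℤ, P (∑ i, (m i : ℚ) • ω i) := by
    intro m
    rw [hP, hs]
    exact Submodule.sum_mem _ fun i _ =>
      Submodule.smul_mem _ _ (Submodule.subset_span (Set.mem_range_self i))
  refine ⟨Equiv.ofBijective (fun m => ⟨∑ i, (m i : ℚ) • ω i, hmem m⟩) ⟨?_, ?_⟩, fun m => rfl⟩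
  · intro m m' h
    have h1 : ∑ i, (m i : ℚ) • ω i = ∑ i, (m' i : ℚ) • ω i := congrArg Subtype.val h
    have h2 := congrArg (fun z => (ω.repr z : ι → ℚ)) h1
    simp only [ω.repr_sum_self] at h2
    funext i
    have h3 := congrFun h2 i
    exact_mod_cast h3
  · rintro ⟨x, hx⟩
    obtain ⟨m, hm⟩ := (Submodule.mem_span_range_iff_exists_fun ℤ).1 ((hP x).1 hx)
    refine ⟨m, Subtype.ext ?_⟩
    change ∑ i, (m i : ℚ) • ω i = x
    rw [hs, hm]

theorem summable_Th (b : (FractionalIdeal (𝓞 K)⁰ K)ˣ) (g : InfinitePlace K → ℝ)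
    (hg : ∀ v, 0 < g v) :
    Summable fun x : {x : K // x ∈ (b : FractionalIdeal (𝓞 K)⁰ K)} =>
      Real.exp (-Real.pi * qf g x.1) := by
  classical
  obtain ⟨e, he⟩ := exists_lat_equiv (basisOfFractionalIdeal K b)
    (fun x => x ∈ (b : FractionalIdeal (𝓞 K)⁰ K)) (fun x => (mem_span_basisOfFractionalIdeal K).symm)
  have h := (theta_basis (basisOfFractionalIdeal K b) g hg).1
  rw [← e.summable_iff]
  refine h.congr fun m => ?_
  rw [Function.comp_apply, he]

theorem Th_dual (b : (FractionalIdeal (𝓞 K)⁰ K)ˣ) (g : InfinitePlace K → ℝ)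
    (hg : ∀ v, 0 < g v) :
    Th b g = (Dv b)⁻¹ * (∏ v : InfinitePlace K, g v ^ (-((v.mult : ℝ) / 2))) *
      Th (dl b) (fun v => (g v)⁻¹) := by
  classical
  obtain ⟨e, he⟩ := exists_lat_equiv (basisOfFractionalIdeal K b)
    (fun x => x ∈ (b : FractionalIdeal (𝓞 K)⁰ K)) (fun x => (mem_span_basisOfFractionalIdeal K).symm)
  obtain ⟨e', he'⟩ := exists_lat_equiv (basisOfFractionalIdeal K b).traceDual
    (fun x => x ∈ (dl b : FractionalIdeal (𝓞 K)⁰ K)) (fun x => mem_dl b x)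
  have h := (theta_basis (basisOfFractionalIdeal K b) g hg).2.2
  rw [← Dv_eq] at h
  unfold Th
  rw [← e.tsum_eq, ← e'.tsum_eq]
  simp only [he, he']
  exact h

end Pool.Agent.QD.Z
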