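import Pool.Agent.QD.Z.Forms
import Pool.Agent.QD.Poisson

/-!
# QDZ-ThetaB (0.5 h): theta transformation for a basis

PROOF.  `exists_forms ω`: `A`, `B`, `pl`.  `Aᵀ B = 1`, so `A.det ≠ 0` and `(A⁻¹)ᵀ = B` (`Matrix.inv_eq_left_inv`/
`Matrix.transpose_nonsing_inv`).  Apply `Pool.Agent.QD.summable_gauss`, `Pool.Agent.QD.poisson_gauss` with `M = A`,
`z j = (g (pl j) : ℂ)`, `c = 0`: the left side is `∑' exp (-π qf g ..)` (cast to `ℂ`), `∏ z_j ^ (-1/2) =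
∏_v g_v ^ (-mult/2)` by the product property with `f v = g v ^ (-1/2)`
(`Complex.ofReal_cpow`, `Real.rpow_natCast`, `Real.rpow_mul`), right side `exp (-π qf g⁻¹ ..)`.  Descend from `ℂ` to `ℝ`
(`Complex.ofReal_tsum`, `Complex.ofReal_injective`, `Complex.ofReal_exp`).  Summability of the second family:
`summable_gauss` for `M = B` (determinant nonzero), `z = g⁻¹`.
-/

namespace Pool.Agent.QD.Z

open NumberField NumberField.InfinitePlace

variable {K : Type} [Field K] [NumberField K]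

private lemma tb_term {ι : Type} [Fintype ι] (M : Matrix ι ι ℝ) (h : ι → ℝ) (x : ι → ℤ) :
    Complex.exp (-(Real.pi : ℂ) *
      ∑ j, ((h j : ℝ) : ℂ) * ((∑ i, M j i * ((x i : ℝ) + (0 : ι → ℝ) i) : ℝ) : ℂ) ^ 2)
      = ((Real.exp (-Real.pi * ∑ j, h j * (∑ i, M j i * (x i : ℝ)) ^ 2) : ℝ) : ℂ) := by
  simp only [Pi.zero_apply, add_zero]
  push_cast
  rfl

private lemma tb_summable {ι : Type} [Fintype ι] [DecidableEq ι] (M : Matrix ι ι ℝ)
    (hM : M.det ≠ 0) (h : ι → ℝ) (hh : ∀ j, 0 < h j) :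
    Summable (fun x : ι → ℤ => Real.exp (-Real.pi * ∑ j, h j * (∑ i, M j i * (x i : ℝ)) ^ 2)) := by
  have h1 := Pool.Agent.QD.summable_gauss M hM (fun j => ((h j : ℝ) : ℂ))
    (fun j => by rw [Complex.ofReal_re]; exact hh j) 0
  have h2 := h1.congr (fun x => tb_term M h x)
  exact Complex.summable_ofReal.1 h2

private lemma tb_poisson {ι : Type} [Fintype ι] [DecidableEq ι] (M N : Matrix ι ι ℝ)
    (hM : M.det ≠ 0) (hN : (M⁻¹).transpose = N) (h : ι → ℝ) (hh : ∀ j, 0 < h j) :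
    ∑' x : ι → ℤ, Real.exp (-Real.pi * ∑ j, h j * (∑ i, M j i * (x i : ℝ)) ^ 2)
      = |M.det|⁻¹ * (∏ j, h j ^ (-(1 / 2) : ℝ)) *
        ∑' x : ι → ℤ, Real.exp (-Real.pi * ∑ j, (h j)⁻¹ * (∑ i, N j i * (x i : ℝ)) ^ 2) := by
  have h1 := Pool.Agent.QD.poisson_gauss M hM (fun j => ((h j : ℝ) : ℂ))
    (fun j => by rw [Complex.ofReal_re]; exact hh j) 0
  rw [tsum_congr (fun x => tb_term M h x), hN] at h1
  have h2 : ∀ y : ι → ℤ, Complex.exp (-(Real.pi : ℂ) *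
      ∑ j, ((h j : ℝ) : ℂ)⁻¹ * ((∑ i, N j i * (y i : ℝ) : ℝ) : ℂ) ^ 2) *
        Complex.exp (2 * Real.pi * Complex.I * ∑ i, (y i : ℂ) * (((0 : ι → ℝ) i : ℝ) : ℂ))
      = ((Real.exp (-Real.pi * ∑ j, (h j)⁻¹ * (∑ i, N j i * (y i : ℝ)) ^ 2) : ℝ) : ℂ) := by
    intro y
    have h3 : ∑ i, (y i : ℂ) * (((0 : ι → ℝ) i : ℝ) : ℂ) = 0 :=
      Finset.sum_eq_zero (fun i _ => by rw [Pi.zero_apply, Complex.ofReal_zero, mul_zero])
    rw [h3, mul_zero, Complex.exp_zero, mul_one]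
    push_cast
    rfl
  rw [tsum_congr h2] at h1
  have h4 : ∏ j, ((h j : ℝ) : ℂ) ^ (-(1 / 2) : ℂ) = ((∏ j, h j ^ (-(1 / 2) : ℝ) : ℝ) : ℂ) := by
    rw [Complex.ofReal_prod]
    refine Finset.prod_congr rfl (fun j _ => ?_)
    rw [Complex.ofReal_cpow (hh j).le]
    congr 1
    push_cast
    rfl
  rw [h4, ← Complex.ofReal_tsum, ← Complex.ofReal_tsum, ← Complex.ofReal_inv,
    ← Complex.ofReal_mul, ← Complex.ofReal_mul] at h1
  exact Complex.ofReal_injective h1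

theorem theta_basis {ι : Type} [Fintype ι] [DecidableEq ι] (ω : Module.Basis ι ℚ K)
    (g : InfinitePlace K → ℝ) (hg : ∀ v, 0 < g v) :
    Summable (fun m : ι → ℤ => Real.exp (-Real.pi * qf g (∑ i, (m i : ℚ) • ω i))) ∧
    Summable (fun m : ι → ℤ => Real.exp (-Real.pi *
      qf (fun v => (g v)⁻¹) (∑ i, (m i : ℚ) • ω.traceDual i))) ∧
    ∑' m : ι → ℤ, Real.exp (-Real.pi * qf g (∑ i, (m i : ℚ) • ω i)) =
      (Real.sqrt |((Algebra.discr ℚ ω : ℚ) : ℝ)|)⁻¹ *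
        (∏ v : InfinitePlace K, g v ^ (-((v.mult : ℝ) / 2))) *
        ∑' m : ι → ℤ, Real.exp (-Real.pi *
          qf (fun v => (g v)⁻¹) (∑ i, (m i : ℚ) • ω.traceDual i)) := by
  obtain ⟨A, B, pl, hAB, hdet, hA, hB, hprod⟩ := exists_forms ω
  have hdet1 : A.det * B.det = 1 := by
    have h := congrArg Matrix.det hAB
    rwa [Matrix.det_mul, Matrix.det_transpose, Matrix.det_one] at h
  have hA0 : A.det ≠ 0 := fun h => by rw [h, zero_mul] at hdet1; exact zero_ne_one hdet1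
  have hB0 : B.det ≠ 0 := fun h => by rw [h, mul_zero] at hdet1; exact zero_ne_one hdet1
  have hinv : (A⁻¹).transpose = B := by
    have h : B.transpose * A = 1 := by
      have h1 := congrArg Matrix.transpose hAB
      rwa [Matrix.transpose_mul, Matrix.transpose_transpose, Matrix.transpose_one] at h1
    rw [Matrix.inv_eq_left_inv h, Matrix.transpose_transpose]
  have s1 := tb_summable A hA0 (fun j => g (pl j)) (fun j => hg _)
  have s2 := tb_summable B hB0 (fun j => (g (pl j))⁻¹) (fun j => inv_pos.2 (hg _))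
  have e := tb_poisson A B hA0 hinv (fun j => g (pl j)) (fun j => hg _)
  have t1 : ∀ m : ι → ℤ, Real.exp (-Real.pi * ∑ j, g (pl j) * (∑ i, A j i * (m i : ℝ)) ^ 2)
      = Real.exp (-Real.pi * qf g (∑ i, (m i : ℚ) • ω i)) := fun m => by rw [hA g m]
  have t2 : ∀ m : ι → ℤ, Real.exp (-Real.pi * ∑ j, (g (pl j))⁻¹ * (∑ i, B j i * (m i : ℝ)) ^ 2)
      = Real.exp (-Real.pi * qf (fun v => (g v)⁻¹) (∑ i, (m i : ℚ) • ω.traceDual i)) :=
    fun m => by rw [← hB (fun v => (g v)⁻¹) m]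
  refine ⟨s1.congr t1, s2.congr t2, ?_⟩
  rw [tsum_congr t1, tsum_congr t2, hdet] at e
  rw [e]
  congr 2
  rw [hprod (fun v => g v ^ (-(1 / 2) : ℝ))]
  refine Finset.prod_congr rfl (fun v _ => ?_)
  rw [← Real.rpow_natCast, ← Real.rpow_mul (hg v).le]
  congr 1
  ring

end Pool.Agent.QD.Z
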